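import Mathlib

namespace Pool.Agent.X7.SigProd
open Finset

section Basic
variable {K : Type*} [Field K]

/-- partial sums `a_1 + ... + a_k` -/
def S (a : ℕ → K) (k : ℕ) : K := ∑ i ∈ Icc 1 k, a i

/-- second elementary symmetric function of `a_1, ..., a_k` -/
def E (a : ℕ → K) : ℕ → K
  | 0 => 0
  | (k + 1) => E a k + a (k + 1) * S a k

/-- partial products -/
def P (a : ℕ → K) (k : ℕ) : K := ∏ i ∈ Icc 1 k, a i

@[simp] lemma S_zero (a : ℕ → K) : S a 0 = 0 := by simp [S]
@[simp] lemma E_zero (a : ℕ → K) : E a 0 = 0 := rfl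
@[simp] lemma P_zero (a : ℕ → K) : P a 0 = 1 := by simp [P]
lemma S_succ (a : ℕ → K) (k : ℕ) : S a (k + 1) = S a k + a (k + 1) := by
  unfold S; rw [Finset.sum_Icc_succ_top (by omega)]
lemma E_succ (a : ℕ → K) (k : ℕ) : E a (k + 1) = E a k + a (k + 1) * S a k := rfl
lemma P_succ (a : ℕ → K) (k : ℕ) : P a (k + 1) = P a k * a (k + 1) := by
  unfold P; rw [Finset.prod_Icc_succ_top (by omega)]

lemma S_add (a : ℕ → K) (k m : ℕ) : S a (k + m) = S a k + S (fun i => a (k + i)) m := by
  induction m with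
  | zero => simp
  | succ m ih => rw [← add_assoc, S_succ, ih, S_succ]; simp only [add_assoc]

lemma P_add (a : ℕ → K) (k m : ℕ) : P a (k + m) = P a k * P (fun i => a (k + i)) m := by
  induction m with
  | zero => simp
  | succ m ih => rw [← add_assoc, P_succ, ih, P_succ]; simp only [add_assoc, mul_assoc]

lemma E_add (a : ℕ → K) (k m : ℕ) :
    E a (k + m) = E a k + S a k * S (fun i => a (k + i)) m + E (fun i => a (k + i)) m := by
  induction m with
  | zero => simp
  | succ m ih =>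
    rw [← add_assoc, E_succ, ih, E_succ, S_succ, S_add]
    simp only [add_assoc]; ring

lemma S_congr (a b : ℕ → K) (k : ℕ) (h : ∀ i, 1 ≤ i → i ≤ k → a i = b i) : S a k = S b k := by
  unfold S; apply Finset.sum_congr rfl; intro i hi; rw [mem_Icc] at hi; exact h i hi.1 hi.2

lemma P_congr (a b : ℕ → K) (k : ℕ) (h : ∀ i, 1 ≤ i → i ≤ k → a i = b i) : P a k = P b k := by
  unfold P; apply Finset.prod_congr rfl; intro i hi; rw [mem_Icc] at hi; exact h i hi.1 hi.2

lemma E_congr (a b : ℕ → K) (k : ℕ) (h : ∀ i, 1 ≤ i → i ≤ k → a i = b i) : E a k = E b k := by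
  induction k with
  | zero => simp
  | succ k ih =>
    rw [E_succ, E_succ, ih (fun i h1 h2 => h i h1 (by omega)), h (k+1) (by omega) (by omega),
      S_congr a b k (fun i h1 h2 => h i h1 (by omega))]

/-- the double sum over `i < j` is `E` -/
lemma double_eq (a : ℕ → K) (k : ℕ) :
    ∑ i ∈ Icc 1 k, ∑ j ∈ Icc (i + 1) k, a i * a j = E a k := by
  induction k with
  | zero => simp
  | succ k ih =>
    rw [Finset.sum_Icc_succ_top (by omega), E_succ, ← ih]
    have h1 : Icc (k + 1 + 1) (k + 1) = (∅ : Finset ℕ) := by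
      apply Finset.Icc_eq_empty; omega
    rw [h1, Finset.sum_empty, add_zero]
    have h2 : ∀ i ∈ Icc 1 k, ∑ j ∈ Icc (i + 1) (k + 1), a i * a j
        = ∑ j ∈ Icc (i + 1) k, a i * a j + a i * a (k + 1) := by
      intro i hi
      rw [mem_Icc] at hi
      rw [Finset.sum_Icc_succ_top (by omega)]
    rw [Finset.sum_congr rfl h2, Finset.sum_add_distrib]
    congr 1
    unfold S
    rw [Finset.mul_sum]
    apply Finset.sum_congr rfl
    intro i _; ring

end Basic

/-! ### the sequence v -/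

/-- `(v_1 ... v_k, σ_{k-1}(v_1, ..., v_k))` -/
def pq : ℕ → ℕ × ℕ
  | 0 => (1, 0)
  | (k + 1) => ((pq k).1 * (1 + (pq k).2), (pq k).2 * (1 + (pq k).2) + (pq k).1)

/-- `v_k` for `k ≥ 1` -/
def vv (k : ℕ) : ℕ := 1 + (pq (k - 1)).2

lemma vv_succ (k : ℕ) : vv (k + 1) = 1 + (pq k).2 := rfl
lemma pq_succ (k : ℕ) : pq (k + 1) = ((pq k).1 * (1 + (pq k).2), (pq k).2 * (1 + (pq k).2) + (pq k).1) := rfl

lemma p_pos (k : ℕ) : 0 < (pq k).1 := by
  induction k with
  | zero => decide
  | succ k ih => rw [pq_succ]; positivity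

lemma vv_pos (k : ℕ) : 0 < vv k := by unfold vv; omega

section C
variable (K : Type*) [Field K] [CharZero K]

lemma Pc (k : ℕ) : P (fun i => 1 / (vv i : K)) k = 1 / ((pq k).1 : K) := by
  induction k with
  | zero => simp [pq]
  | succ k ih =>
    rw [P_succ, ih, pq_succ, vv_succ]
    push_cast
    rw [one_div_mul_one_div]

lemma Sc (k : ℕ) : S (fun i => 1 / (vv i : K)) k = ((pq k).2 : K) / ((pq k).1 : K) := by
  induction k with
  | zero => simp [pq]
  | succ k ih =>
    rw [S_succ, ih, pq_succ, vv_succ]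
    have h1 : ((pq k).1 : K) ≠ 0 := by exact_mod_cast (p_pos k).ne'
    have h2 : ((1 + (pq k).2 : ℕ) : K) ≠ 0 := by
      have : (1 + (pq k).2 : ℕ) ≠ 0 := by omega
      exact_mod_cast this
    push_cast at h2 ⊢
    field_simp

lemma Ec (k : ℕ) : E (fun i => 1 / (vv i : K)) k = 1 - 1 / ((pq k).1 : K) := by
  induction k with
  | zero => simp [pq]
  | succ k ih =>
    rw [E_succ, ih, pq_succ, vv_succ, Sc]
    have h1 : ((pq k).1 : K) ≠ 0 := by exact_mod_cast (p_pos k).ne'
    have h2 : ((1 + (pq k).2 : ℕ) : K) ≠ 0 := by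
      have : (1 + (pq k).2 : ℕ) ≠ 0 := by omega
      exact_mod_cast this
    push_cast at h2 ⊢
    field_simp
    ring

end C

/-! ### majorization -/

lemma S_major (x y l : ℕ → ℝ) (m : ℕ) (hy : ∀ i, 1 ≤ i → i ≤ m → 0 < y i)
    (hx : ∀ i, 1 ≤ i → i ≤ m → x i = y i * Real.exp (l i)) :
    S y m + ∑ i ∈ Icc 1 m, y i * l i ≤ S x m := by
  unfold S
  rw [← Finset.sum_add_distrib]
  apply Finset.sum_le_sum
  intro i hi
  rw [mem_Icc] at hi
  rw [hx i hi.1 hi.2]
  have := Real.add_one_le_exp (l i)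
  have h := hy i hi.1 hi.2
  nlinarith

lemma E_major (x y l : ℕ → ℝ) (m : ℕ) (hy : ∀ i, 1 ≤ i → i ≤ m → 0 < y i)
    (hx : ∀ i, 1 ≤ i → i ≤ m → x i = y i * Real.exp (l i)) :
    E y m + ∑ i ∈ Icc 1 m, y i * (S y m - y i) * l i ≤ E x m := by
  induction m with
  | zero => simp
  | succ m ih =>
    have ih' := ih (fun i h1 h2 => hy i h1 (by omega)) (fun i h1 h2 => hx i h1 (by omega))
    rw [E_succ, E_succ, Finset.sum_Icc_succ_top (by omega)]
    have key : ∑ i ∈ Icc 1 m, y i * y (m+1) * (1 + l i + l (m+1)) ≤ x (m+1) * S x m := by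
      unfold S
      rw [Finset.mul_sum]
      apply Finset.sum_le_sum
      intro i hi
      rw [mem_Icc] at hi
      rw [hx i hi.1 (by omega), hx (m+1) (by omega) le_rfl]
      have h1 := hy i hi.1 (by omega)
      have h2 := hy (m+1) (by omega) le_rfl
      have h3 := Real.add_one_le_exp (l i + l (m+1))
      rw [Real.exp_add] at h3
      have h4 : 0 < y i * y (m+1) := by positivity
      nlinarith
    have e1 : ∑ i ∈ Icc 1 m, y i * (S y (m+1) - y i) * l i
        = ∑ i ∈ Icc 1 m, y i * (S y m - y i) * l i + ∑ i ∈ Icc 1 m, y i * y (m+1) * l i := by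
      rw [← Finset.sum_add_distrib]
      apply Finset.sum_congr rfl
      intro i _
      rw [S_succ]; ring
    have e2 : ∑ i ∈ Icc 1 m, y i * y (m+1) * (1 + l i + l (m+1))
        = y (m+1) * S y m + ∑ i ∈ Icc 1 m, y i * y (m+1) * l i + y (m+1) * S y m * l (m+1) := by
      unfold S
      rw [Finset.mul_sum, Finset.sum_mul, ← Finset.sum_add_distrib, ← Finset.sum_add_distrib]
      apply Finset.sum_congr rfl
      intro i _
      ring
    have e3 : S y (m+1) - y (m+1) = S y m := by rw [S_succ]; ring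
    rw [e1, e3]
    rw [e2] at key
    linarith

lemma abel (w l : ℕ → ℝ) (m : ℕ) (hw : ∀ i, 1 ≤ i → i + 1 ≤ m → w (i+1) ≤ w i)
    (hL : ∀ j, 1 ≤ j → j ≤ m → 0 ≤ ∑ i ∈ Icc 1 j, l i) :
    w m * ∑ i ∈ Icc 1 m, l i ≤ ∑ i ∈ Icc 1 m, w i * l i := by
  induction m with
  | zero => simp
  | succ m ih =>
    have ih' := ih (fun i h1 h2 => hw i h1 (by omega)) (fun j h1 h2 => hL j h1 (by omega))
    rw [Finset.sum_Icc_succ_top (by omega), Finset.sum_Icc_succ_top (by omega)]
    rcases Nat.eq_zero_or_pos m with rfl | hm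
    · simp
    · have h1 := hw m (by omega) (by omega)
      have h2 := hL m (by omega) (by omega)
      nlinarith

lemma S_nonneg (y : ℕ → ℝ) (m : ℕ) (hy : ∀ i, 1 ≤ i → i ≤ m → 0 < y i) : 0 ≤ S y m := by
  unfold S
  apply Finset.sum_nonneg
  intro i hi
  rw [mem_Icc] at hi
  exact (hy i hi.1 hi.2).le

lemma S_pos (y : ℕ → ℝ) (m : ℕ) (hm : 1 ≤ m) (hy : ∀ i, 1 ≤ i → i ≤ m → 0 < y i) : 0 < S y m := by
  unfold S
  apply Finset.sum_pos
  · intro i hi
    rw [mem_Icc] at hi
    exact hy i hi.1 hi.2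
  · exact ⟨1, by rw [mem_Icc]; omega⟩

lemma P_pos (y : ℕ → ℝ) (m : ℕ) (hy : ∀ i, 1 ≤ i → i ≤ m → 0 < y i) : 0 < P y m := by
  unfold P
  apply Finset.prod_pos
  intro i hi
  rw [mem_Icc] at hi
  exact hy i hi.1 hi.2

lemma pair_le (y : ℕ → ℝ) (m : ℕ) (hy : ∀ i, 1 ≤ i → i ≤ m → 0 < y i) (i : ℕ) (h1 : 1 ≤ i)
    (h2 : i + 1 ≤ m) : y i + y (i+1) ≤ S y m := by
  have : ∑ j ∈ ({i, i+1} : Finset ℕ), y j ≤ S y m := by
    unfold S
    apply Finset.sum_le_sum_of_subset_of_nonneg
    · intro j hj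
      simp only [mem_insert, mem_singleton] at hj
      rw [mem_Icc]; omega
    · intro j hj _
      rw [mem_Icc] at hj
      exact (hy j hj.1 hj.2).le
  rwa [Finset.sum_pair (by omega)] at this

theorem tail_lt (x y : ℕ → ℝ) (m : ℕ) (s : ℝ) (hm : 1 ≤ m) (hs : 0 ≤ s)
    (hy : ∀ i, 1 ≤ i → i ≤ m → 0 < y i) (hx : ∀ i, 1 ≤ i → i ≤ m → 0 < x i)
    (hanti : ∀ i, 1 ≤ i → i + 1 ≤ m → y (i+1) ≤ y i)
    (hR : ∀ j, 1 ≤ j → j ≤ m → P y j < P x j)
    (hsm : 0 < s ∨ 2 ≤ m) :
    s * S y m + E y m < s * S x m + E x m := by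
  set l : ℕ → ℝ := fun i => Real.log (x i / y i) with hl
  have hxl : ∀ i, 1 ≤ i → i ≤ m → x i = y i * Real.exp (l i) := by
    intro i h1 h2
    have a1 := hy i h1 h2
    have a2 := hx i h1 h2
    simp only [hl]
    rw [Real.exp_log (by positivity)]
    field_simp
  have h1 := S_major x y l m hy hxl
  have h2 := E_major x y l m hy hxl
  -- partial sums of l
  have hLj : ∀ j, j ≤ m → ∑ i ∈ Icc 1 j, l i = Real.log (P x j) - Real.log (P y j) := by
    intro j
    induction j with
    | zero => intro _; simp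
    | succ j ih =>
      intro hj
      rw [Finset.sum_Icc_succ_top (by omega), ih (by omega), P_succ, P_succ]
      have b1 := P_pos x j (fun i a b => hx i a (by omega))
      have b2 := P_pos y j (fun i a b => hy i a (by omega))
      have b3 := hx (j+1) (by omega) hj
      have b4 := hy (j+1) (by omega) hj
      rw [Real.log_mul b1.ne' b3.ne', Real.log_mul b2.ne' b4.ne']
      simp only [hl]
      rw [Real.log_div b3.ne' b4.ne']
      ring
  have hLpos : ∀ j, 1 ≤ j → j ≤ m → 0 < ∑ i ∈ Icc 1 j, l i := by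
    intro j a b
    rw [hLj j b]
    have := hR j a b
    have b2 := P_pos y j (fun i a' b' => hy i a' (by omega))
    have := Real.log_lt_log b2 this
    linarith
  set w : ℕ → ℝ := fun i => y i * (s + S y m - y i) with hw
  have habel := abel w l m (by
    intro i a b
    simp only [hw]
    have c1 := pair_le y m hy i a b
    have c2 := hanti i a b
    nlinarith [mul_nonneg (sub_nonneg.mpr c2) (by linarith : 0 ≤ s + S y m - y i - y (i+1))])
    (fun j a b => (hLpos j a b).le)
  have hwm : 0 < w m := by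
    simp only [hw]
    have c1 := hy m hm le_rfl
    obtain ⟨m', rfl⟩ : ∃ m', m = m' + 1 := ⟨m - 1, by omega⟩
    rw [S_succ]
    have c2 := S_nonneg y m' (fun i a b => hy i a (by omega))
    apply mul_pos c1
    rcases hsm with h | h
    · linarith
    · have := S_pos y m' (by omega) (fun i a b => hy i a (by omega))
      linarith
  have hfin : 0 < ∑ i ∈ Icc 1 m, w i * l i :=
    lt_of_lt_of_le (mul_pos hwm (hLpos m hm le_rfl)) habel
  have hsum : ∑ i ∈ Icc 1 m, w i * l i
      = s * ∑ i ∈ Icc 1 m, y i * l i + ∑ i ∈ Icc 1 m, y i * (S y m - y i) * l i := by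
    rw [Finset.mul_sum, ← Finset.sum_add_distrib]
    apply Finset.sum_congr rfl
    intro i _
    simp only [hw]; ring
  rw [hsum] at hfin
  have h3 := mul_le_mul_of_nonneg_left h1 hs
  rw [mul_add] at h3
  linarith

/-! ### lower bounds for `E` -/

lemma E_nonneg (y : ℕ → ℝ) (m : ℕ) (hy : ∀ i, 1 ≤ i → i ≤ m → 0 < y i) : 0 ≤ E y m := by
  induction m with
  | zero => simp
  | succ m ih =>
    rw [E_succ]
    have h1 := ih (fun i a b => hy i a (by omega))
    have h2 := S_nonneg y m (fun i a b => hy i a (by omega))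
    have h3 := hy (m+1) (by omega) le_rfl
    positivity

lemma E_ge_lin (y : ℕ → ℝ) (h : ℝ) (m : ℕ) (hy : ∀ i, 1 ≤ i → i ≤ m → 0 < y i)
    (hh : ∀ i, 1 ≤ i → i ≤ m → y i ≤ h) : h * (S y m - h) ≤ E y m := by
  induction m with
  | zero => simp; nlinarith
  | succ m ih =>
    have ih' := ih (fun i a b => hy i a (by omega)) (fun i a b => hh i a (by omega))
    have h1 := E_nonneg y m (fun i a b => hy i a (by omega))
    have h2 := hy (m+1) (by omega) le_rfl
    have h3 := hh (m+1) (by omega) le_rfl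
    rw [E_succ, S_succ]
    rcases le_total h (S y m) with hc | hc
    · nlinarith
    · nlinarith [mul_nonneg (sub_nonneg.mpr h3) (sub_nonneg.mpr hc)]

lemma E_ge_sq (y : ℕ → ℝ) (h : ℝ) (m : ℕ) (hy : ∀ i, 1 ≤ i → i ≤ m → 0 < y i)
    (hh : ∀ i, 1 ≤ i → i ≤ m → y i ≤ h) : (S y m) ^ 2 - h * S y m ≤ 2 * E y m := by
  induction m with
  | zero => simp
  | succ m ih =>
    have ih' := ih (fun i a b => hy i a (by omega)) (fun i a b => hh i a (by omega))
    have h2 := hy (m+1) (by omega) le_rfl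
    have h3 := hh (m+1) (by omega) le_rfl
    rw [E_succ, S_succ]
    nlinarith

lemma E_mono_step (y : ℕ → ℝ) (m k : ℕ) (hmk : m ≤ k) (hy : ∀ i, 1 ≤ i → i ≤ k → 0 < y i) :
    E y m ≤ E y k := by
  obtain ⟨r, rfl⟩ := Nat.exists_eq_add_of_le hmk
  rw [E_add]
  have h1 := S_nonneg y m (fun i a b => hy i a (by omega))
  have h2 := S_nonneg (fun i => y (m + i)) r (fun i a b => hy (m+i) (by omega) (by omega))
  have h3 := E_nonneg (fun i => y (m + i)) r (fun i a b => hy (m+i) (by omega) (by omega))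
  have := mul_nonneg h1 h2
  linarith

lemma S_mono (y : ℕ → ℝ) (m k : ℕ) (hmk : m ≤ k) (hy : ∀ i, 1 ≤ i → i ≤ k → 0 < y i) :
    S y m ≤ S y k := by
  obtain ⟨r, rfl⟩ := Nat.exists_eq_add_of_le hmk
  rw [S_add]
  have h2 := S_nonneg (fun i => y (m + i)) r (fun i a b => hy (m+i) (by omega) (by omega))
  linarith

lemma pq_big : ∀ k, 3 ≤ k → 8 ≤ (pq k).1 ∧ 14 ≤ (pq k).2 := by
  intro k hk
  induction k, hk using Nat.le_induction with
  | base => decide
  | succ k _ ih =>
    rw [pq_succ]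
    refine ⟨?_, ?_⟩
    · show 8 ≤ (pq k).1 * (1 + (pq k).2)
      nlinarith [ih.1, ih.2]
    · show 14 ≤ (pq k).2 * (1 + (pq k).2) + (pq k).1
      nlinarith [ih.1, ih.2]

lemma big_case (p q T e : ℝ) (hp : 2 ≤ p) (hq : 5 ≤ q)
    (h1 : q * T + p * e < 1) (h2 : 1 / (q + 2) * (T - 1 / (q + 2)) ≤ e) :
    T ≤ 1 / (1 + q) + 1 / (1 + (q * (1 + q) + p)) := by
  set u := 1 / (q + 2) with hu
  have hq2 : 0 < q + 2 := by linarith
  have hu1 : u * (q + 2) = 1 := by rw [hu]; field_simp
  have hupos : 0 < u := by rw [hu]; positivity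
  have h3 : q * T + p * (u * (T - u)) < 1 := by nlinarith
  -- T (q + p u) < 1 + p u^2
  have h4 : T * ((q + 2) * (q * (q + 2) + p)) < (q + 2) ^ 2 + p := by
    have : (q * T + p * (u * (T - u))) * (q + 2) ^ 2 < 1 * (q + 2) ^ 2 := by
      apply mul_lt_mul_of_pos_right h3; positivity
    have e1 : (q * T + p * (u * (T - u))) * (q + 2) ^ 2
        = q * T * (q + 2) ^ 2 + p * ((u * (q + 2)) * (T * (q + 2) - u * (q + 2))) := by ring
    rw [e1, hu1] at this
    nlinarith
  have hden : 0 < (q + 2) * (q * (q + 2) + p) := by positivity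
  have h5 : T < ((q + 2) ^ 2 + p) / ((q + 2) * (q * (q + 2) + p)) := by
    rw [lt_div_iff₀ hden]; exact h4
  refine h5.le.trans ?_
  have ha : 0 < 1 + q := by linarith
  have hb : 0 < 1 + (q * (1 + q) + p) := by positivity
  rw [div_add_div _ _ ha.ne' hb.ne', div_le_div_iff₀ hden (by positivity)]
  have hkey : 0 ≤ (p - 1) * q ^ 2 - 4 * q + p ^ 2 - p - 4 := by nlinarith
  nlinarith [hkey]

/-- reciprocals of `v` -/
noncomputable def c (i : ℕ) : ℝ := 1 / (vv i : ℝ)

lemma c_pos (i : ℕ) : 0 < c i := by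
  unfold c
  have := vv_pos i
  positivity

lemma Sc' (k : ℕ) : S c k = ((pq k).2 : ℝ) / ((pq k).1 : ℝ) := Sc ℝ k
lemma Ec' (k : ℕ) : E c k = 1 - 1 / ((pq k).1 : ℝ) := Ec ℝ k
lemma Pc' (k : ℕ) : P c k = 1 / ((pq k).1 : ℝ) := Pc ℝ k

/-- the tail comparison, with head `v_1, ..., v_k` -/
lemma tail_case (x : ℕ → ℕ) (k m : ℕ) (hm : 1 ≤ m) (hpos : ∀ i, 1 ≤ i → i ≤ m → 1 ≤ x i)
    (hmono : ∀ i, 1 ≤ i → i ≤ m → x 1 ≤ x i)
    (hne : x 1 ≠ vv (k+1))
    (hE : E c k + S c k * S (fun i => 1 / (x i : ℝ)) m + E (fun i => 1 / (x i : ℝ)) m < 1) :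
    S (fun i => 1 / (x i : ℝ)) m ≤ S (fun i => c (k + i)) m := by
  set t : ℕ → ℝ := fun i => 1 / (x i : ℝ) with ht
  have htpos : ∀ i, 1 ≤ i → i ≤ m → 0 < t i := by
    intro i h1 h2
    have := hpos i h1 h2
    simp only [ht]
    have : (0:ℝ) < x i := by exact_mod_cast this
    positivity
  have hp := p_pos k
  have hpR : (0:ℝ) < (pq k).1 := by exact_mod_cast hp
  rw [Sc', Ec'] at hE
  have hTn := S_nonneg t m htpos
  have hEn := E_nonneg t m htpos
  have hE' : ((pq k).2 : ℝ) * S t m + ((pq k).1 : ℝ) * E t m < 1 := by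
    have h1 := mul_lt_mul_of_pos_right hE hpR
    have e1 : (1 - 1 / ((pq k).1 : ℝ) + ((pq k).2 : ℝ) / ((pq k).1 : ℝ) * S t m + E t m) * ((pq k).1 : ℝ)
      = ((pq k).1 : ℝ) - 1 + ((pq k).2 : ℝ) * S t m + ((pq k).1 : ℝ) * E t m := by
      field_simp
    rw [e1] at h1
    linarith
  -- x 1 ≥ v_{k+1} + 1
  have hx1 : (pq k).2 + 2 ≤ x 1 := by
    have h1 : t 1 ≤ S t m := by
      have := S_mono t 1 m hm htpos
      have e : S t 1 = t 1 := by rw [show (1:ℕ) = 0 + 1 from rfl, S_succ]; simp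
      linarith
    have h2 : ((pq k).2 : ℝ) * t 1 < 1 := by
      have hq : (0:ℝ) ≤ ((pq k).2 : ℝ) := by positivity
      have := mul_le_mul_of_nonneg_left h1 hq
      have := mul_nonneg hpR.le hEn
      linarith
    have h3 : (0:ℝ) < x 1 := by exact_mod_cast hpos 1 le_rfl hm
    have h4 : ((pq k).2 : ℝ) < x 1 := by
      simp only [ht] at h2
      rwa [mul_one_div, div_lt_one h3] at h2
    have h5 : (pq k).2 < x 1 := by exact_mod_cast h4
    rw [vv_succ] at hne
    omega
  have hq2 : (0:ℝ) < ((pq k).2 : ℝ) + 2 := by positivity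
  have hth : ∀ i, 1 ≤ i → i ≤ m → t i ≤ 1 / (((pq k).2 : ℝ) + 2) := by
    intro i h1 h2
    have a1 := hmono i h1 h2
    simp only [ht]
    apply one_div_le_one_div_of_le hq2
    have : (pq k).2 + 2 ≤ x i := by omega
    exact_mod_cast this
  have hlin := E_ge_lin t _ m htpos hth
  have hsq := E_ge_sq t _ m htpos hth
  have hc1 : c (k + 1) = 1 / (1 + ((pq k).2 : ℝ)) := by
    unfold c; rw [vv_succ]; push_cast; rfl
  have hc2 : c (k + 2) = 1 / (1 + (((pq k).2 : ℝ) * (1 + ((pq k).2 : ℝ)) + (pq k).1)) := by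
    unfold c; rw [show k + 2 = (k + 1) + 1 from rfl, vv_succ, pq_succ]; push_cast; rfl
  have hS1 : S (fun i => c (k + i)) 1 = c (k + 1) := by
    rw [show (1:ℕ) = 0 + 1 from rfl, S_succ]; simp
  have hS2 : S (fun i => c (k + i)) 2 = c (k + 1) + c (k + 2) := by
    rw [show (2:ℕ) = 1 + 1 from rfl, S_succ, hS1]
  have hS3 : S (fun i => c (k + i)) 3 = c (k + 1) + c (k + 2) + c (k + 3) := by
    have := S_succ (fun i => c (k + i)) 2
    rw [hS2] at this
    exact this
  have hcm : ∀ r, r ≤ m → S (fun i => c (k + i)) r ≤ S (fun i => c (k + i)) m := fun r hr =>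
    S_mono _ r m hr (fun i _ _ => c_pos _)
  rcases Nat.lt_or_ge 1 m with hm2 | hm1
  swap
  · -- m = 1
    obtain rfl : m = 1 := by omega
    have e : S t 1 = t 1 := by rw [show (1:ℕ) = 0 + 1 from rfl, S_succ]; simp
    rw [e, hS1, hc1]
    refine (hth 1 le_rfl le_rfl).trans ?_
    apply one_div_le_one_div_of_le (by positivity)
    linarith
  have hge2 := hcm 2 hm2
  rw [hS2, hc1, hc2] at hge2
  rcases Nat.lt_or_ge 2 k with hk | hk
  · -- k ≥ 3
    obtain ⟨b1, b2⟩ := pq_big k hk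
    have b1' : (8:ℝ) ≤ (pq k).1 := by exact_mod_cast b1
    have b2' : (14:ℝ) ≤ (pq k).2 := by exact_mod_cast b2
    refine le_trans ?_ hge2
    exact big_case _ _ _ _ (by linarith) (by linarith) hE' hlin
  · interval_cases k
    · -- k = 0
      have e1 : (pq 0).1 = 1 := rfl
      have e2 : (pq 0).2 = 0 := rfl
      rw [e1, e2] at hE' hge2
      rw [e2] at hth hlin hsq
      norm_num at hE' hge2 hth hlin hsq
      rcases Nat.lt_or_ge 2 m with hm3 | hm3
      · have h3 := hcm 3 hm3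
        have e3 : S (fun i => c (0 + i)) 3 = 7 / 4 := by
          rw [hS3]
          norm_num [c, vv, pq]
        rw [e3] at h3
        refine le_trans ?_ h3
        by_contra hcon
        push Not at hcon
        nlinarith
      · obtain rfl : m = 2 := by omega
        have e4 : S t 2 = t 1 + t 2 := by
          rw [show (2:ℕ) = 0 + 1 + 1 from rfl, S_succ, S_succ]; simp
        rw [e4]
        have u1 := hth 1 le_rfl (by norm_num)
        have u2 := hth 2 (by norm_num) le_rfl
        simp only [zero_add]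
        linarith
    · -- k = 1
      have e1 : (pq 1).1 = 1 := rfl
      have e2 : (pq 1).2 = 1 := rfl
      rw [e1, e2] at hE' hge2
      rw [e2] at hth hlin hsq
      norm_num at hE' hge2 hth hlin hsq
      rcases Nat.lt_or_ge 2 m with hm3 | hm3
      · have h3 := hcm 3 hm3
        have e3 : S (fun i => c (1 + i)) 3 = 49 / 60 := by
          rw [hS3]
          norm_num [c, vv, pq]
        rw [e3] at h3
        refine le_trans ?_ h3
        by_contra hcon
        push Not at hcon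
        nlinarith
      · obtain rfl : m = 2 := by omega
        have e4 : S t 2 = t 1 + t 2 := by
          rw [show (2:ℕ) = 0 + 1 + 1 from rfl, S_succ, S_succ]; simp
        rw [e4]
        have u1 := hth 1 le_rfl (by norm_num)
        have u2 := hth 2 (by norm_num) le_rfl
        linarith
    · -- k = 2
      have e1 : (pq 2).1 = 2 := rfl
      have e2 : (pq 2).2 = 3 := rfl
      rw [e1, e2] at hE' hge2
      rw [e2] at hth hlin hsq hx1
      norm_num at hE' hge2 hth hlin hsq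
      rcases Nat.lt_or_ge 2 m with hm3 | hm3
      · have h3 := hcm 3 hm3
        have e3 : S (fun i => c (2 + i)) 3 = 1 / 4 + 1 / 15 + 1 / 219 := by
          rw [hS3]
          norm_num [c, vv, pq]
        rw [e3] at h3
        refine le_trans ?_ h3
        by_contra hcon
        push Not at hcon
        nlinarith
      · obtain rfl : m = 2 := by omega
        have e4 : S t 2 = t 1 + t 2 := by
          rw [show (2:ℕ) = 0 + 1 + 1 from rfl, S_succ, S_succ]; simp
        have e5 : E t 2 = t 2 * t 1 := by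
          rw [show (2:ℕ) = 0 + 1 + 1 from rfl, E_succ, E_succ, S_succ]; simp
        rw [e4] at hE' ⊢
        rw [e5] at hE'
        refine le_trans ?_ hge2
        by_contra hcon
        push Not at hcon
        have u1 := hth 1 le_rfl (by norm_num)
        have x12 := hmono 2 (by norm_num) le_rfl
        have hx2 : x 2 ≤ 8 := by
          by_contra h9
          push Not at h9
          have : t 2 ≤ 1 / 9 := by
            simp only [ht]
            apply one_div_le_one_div_of_le (by norm_num)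
            exact_mod_cast h9
          linarith
        have hx1' : x 1 ≤ 8 := by omega
        simp only [ht] at hE' hcon
        have ha : 5 ≤ x 1 := by omega
        generalize x 1 = X1 at *
        generalize x 2 = X2 at *
        clear hmono hpos hne hE hth hlin hsq hTn hEn htpos e4 e5 ht hcm
        revert hE' hcon
        interval_cases X1 <;> interval_cases X2 <;> norm_num

/-- among integer tuples with `e_2(1/x) < 1` the sequence `v` maximises `∑ 1/x_i` -/
theorem S_le (x : ℕ → ℕ) (k : ℕ) (hpos : ∀ i, 1 ≤ i → i ≤ k → 1 ≤ x i)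
    (hmono : ∀ i j, 1 ≤ i → i ≤ j → j ≤ k → x i ≤ x j)
    (hE : E (fun i => 1 / (x i : ℝ)) k < 1) : S (fun i => 1 / (x i : ℝ)) k ≤ S c k := by
  by_cases hall : ∀ i, 1 ≤ i → i ≤ k → x i = vv i
  · apply le_of_eq
    apply S_congr
    intro i h1 h2
    unfold c
    rw [hall i h1 h2]
  · push Not at hall
    have hex : ∃ j, 1 ≤ j ∧ j ≤ k ∧ x j ≠ vv j := by
      obtain ⟨j, h⟩ := hall
      exact ⟨j, h⟩
    classical
    obtain ⟨hj1, hj2, hj3⟩ := Nat.find_spec hex
    have hmin : ∀ i, i < Nat.find hex → 1 ≤ i → x i = vv i := by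
      intro i hi h1
      have := Nat.find_min hex hi
      by_contra hne
      exact this ⟨h1, by omega, hne⟩
    generalize Nat.find hex = j at hj1 hj2 hj3 hmin
    obtain ⟨j', rfl⟩ : ∃ j', j = j' + 1 := ⟨j - 1, by omega⟩
    obtain ⟨m, rfl⟩ := Nat.exists_eq_add_of_le (show j' ≤ k by omega)
    have hheadS : S (fun i => 1 / (x i : ℝ)) j' = S c j' := by
      apply S_congr; intro i h1 h2; unfold c; rw [hmin i (by omega) h1]
    have hheadE : E (fun i => 1 / (x i : ℝ)) j' = E c j' := by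
      apply E_congr; intro i h1 h2; unfold c; rw [hmin i (by omega) h1]
    rw [E_add, hheadE, hheadS] at hE
    rw [S_add, S_add, hheadS]
    have := tail_case (fun i => x (j' + i)) j' m (by omega)
      (fun i h1 h2 => hpos _ (by omega) (by omega))
      (fun i h1 h2 => hmono _ _ (by omega) (by omega) (by omega)) hj3 hE
    linarith

lemma int_form (x : ℕ → ℕ) (k : ℕ) (hpos : ∀ i, 1 ≤ i → i ≤ k → 1 ≤ x i) :
    ∃ A B X : ℕ, (X : ℝ) * P (fun i => 1 / (x i : ℝ)) k = 1 ∧
      S (fun i => 1 / (x i : ℝ)) k = A * P (fun i => 1 / (x i : ℝ)) k ∧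
      E (fun i => 1 / (x i : ℝ)) k = B * P (fun i => 1 / (x i : ℝ)) k := by
  induction k with
  | zero => exact ⟨0, 0, 1, by simp, by simp, by simp⟩
  | succ k ih =>
    obtain ⟨A, B, X, h1, h2, h3⟩ := ih (fun i a b => hpos i a (by omega))
    have hx : (0:ℝ) < x (k+1) := by exact_mod_cast hpos (k+1) (by omega) le_rfl
    refine ⟨A * x (k+1) + X, B * x (k+1) + A, X * x (k+1), ?_, ?_, ?_⟩
    · rw [P_succ]; push_cast
      have : (X : ℝ) * x (k+1) * (P (fun i => 1 / (x i : ℝ)) k * (1 / (x (k+1) : ℝ)))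
        = ((X : ℝ) * P (fun i => 1 / (x i : ℝ)) k) * (x (k+1) * (1 / (x (k+1) : ℝ))) := by ring
      rw [this, h1]; field_simp
    · rw [P_succ, S_succ, h2]; push_cast
      have : ((A : ℝ) * x (k+1) + X) * (P (fun i => 1 / (x i : ℝ)) k * (1 / (x (k+1) : ℝ)))
        = A * P (fun i => 1 / (x i : ℝ)) k * (x (k+1) * (1 / (x (k+1) : ℝ)))
          + ((X : ℝ) * P (fun i => 1 / (x i : ℝ)) k) * (1 / (x (k+1) : ℝ)) := by ring
      rw [this, h1, mul_one_div_cancel hx.ne']; ring
    · rw [P_succ, E_succ, h2, h3]; push_cast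
      have : ((B : ℝ) * x (k+1) + A) * (P (fun i => 1 / (x i : ℝ)) k * (1 / (x (k+1) : ℝ)))
        = B * P (fun i => 1 / (x i : ℝ)) k * (x (k+1) * (1 / (x (k+1) : ℝ)))
          + A * P (fun i => 1 / (x i : ℝ)) k * (1 / (x (k+1) : ℝ)) := by ring
      rw [this, mul_one_div_cancel hx.ne']; ring

lemma P_le (x : ℕ → ℕ) (k : ℕ) (hpos : ∀ i, 1 ≤ i → i ≤ k → 1 ≤ x i)
    (hE : E (fun i => 1 / (x i : ℝ)) k < 1) :
    P (fun i => 1 / (x i : ℝ)) k ≤ 1 - E (fun i => 1 / (x i : ℝ)) k := by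
  obtain ⟨A, B, X, h1, h2, h3⟩ := int_form x k hpos
  have hP : 0 < P (fun i => 1 / (x i : ℝ)) k := by
    apply P_pos
    intro i a b
    have : (0:ℝ) < x i := by exact_mod_cast hpos i a b
    positivity
  rw [h3] at hE ⊢
  have hE2 : (B : ℝ) * P (fun i => 1 / (x i : ℝ)) k < X * P (fun i => 1 / (x i : ℝ)) k := by
    rw [h1]; exact hE
  have h4 : (B : ℝ) < X := lt_of_mul_lt_mul_right hE2 hP.le
  have h5 : B + 1 ≤ X := by exact_mod_cast h4
  have h6 : (B : ℝ) + 1 ≤ X := by exact_mod_cast h5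
  have := mul_le_mul_of_nonneg_right h6 hP.le
  rw [h1] at this
  linarith

lemma q_pos (k : ℕ) (hk : 1 ≤ k) : 0 < (pq k).2 := by
  obtain ⟨k', rfl⟩ : ∃ k', k = k' + 1 := ⟨k - 1, by omega⟩
  rw [pq_succ]
  have := p_pos k'
  show 0 < (pq k').2 * (1 + (pq k').2) + (pq k').1
  omega

/-- main inequality -/
theorem main (x : ℕ → ℕ) (n : ℕ) (hn : 1 ≤ n) (hpos : ∀ i, 1 ≤ i → i ≤ n + 1 → 1 ≤ x i)
    (hmono : ∀ i j, 1 ≤ i → i ≤ j → j ≤ n + 1 → x i ≤ x j)
    (hE : E (fun i => 1 / (x i : ℝ)) (n + 1) = 1) :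
    1 / (((pq n).1 : ℝ) * ((pq n).2 : ℝ)) ≤ P (fun i => 1 / (x i : ℝ)) (n + 1) := by
  by_contra hcon
  push Not at hcon
  set a : ℕ → ℝ := fun i => 1 / (x i : ℝ) with ha
  have hapos : ∀ i, 1 ≤ i → i ≤ n + 1 → 0 < a i := by
    intro i h1 h2
    have : (0:ℝ) < x i := by exact_mod_cast hpos i h1 h2
    simp only [ha]; positivity
  set d : ℕ → ℝ := fun i => if i = n + 1 then 1 / ((pq n).2 : ℝ) else c i with hd
  have hq := q_pos n hn
  have hp := p_pos n
  have hqR : (0:ℝ) < (pq n).2 := by exact_mod_cast hq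
  have hpR : (0:ℝ) < (pq n).1 := by exact_mod_cast hp
  have hdpos : ∀ i, 0 < d i := by
    intro i
    simp only [hd]
    split_ifs
    · positivity
    · exact c_pos i
  have hdc : ∀ i, i ≤ n → d i = c i := by
    intro i hi
    simp only [hd]
    rw [if_neg (by omega)]
  have hSd : ∀ k, k ≤ n → S d k = S c k := fun k hk => S_congr _ _ _ (fun i _ h => hdc i (by omega))
  have hEd : ∀ k, k ≤ n → E d k = E c k := fun k hk => E_congr _ _ _ (fun i _ h => hdc i (by omega))
  have hPd : ∀ k, k ≤ n → P d k = P c k := fun k hk => P_congr _ _ _ (fun i _ h => hdc i (by omega))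
  have hdn : d (n + 1) = 1 / ((pq n).2 : ℝ) := by
    show (if n + 1 = n + 1 then 1 / ((pq n).2 : ℝ) else c (n + 1)) = _
    rw [if_pos rfl]
  have hEdn : E d (n + 1) = 1 := by
    rw [E_succ, hEd n le_rfl, hSd n le_rfl, hdn, Sc', Ec']
    field_simp
    ring
  have hPdn : P d (n + 1) = 1 / (((pq n).1 : ℝ) * ((pq n).2 : ℝ)) := by
    rw [P_succ, hPd n le_rfl, hdn, Pc', one_div_mul_one_div]
  rw [← hPdn] at hcon
  -- E a k < 1
  have hEn : E a n < 1 := by
    rw [E_succ] at hE
    have h1 := S_pos a n hn (fun i u v => hapos i u (by omega))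
    have h2 := hapos (n+1) (by omega) le_rfl
    have := mul_pos h2 h1
    linarith
  have hEk : ∀ k, k ≤ n → E a k < 1 := fun k hk =>
    lt_of_le_of_lt (E_mono_step a k n hk (fun i u v => hapos i u (by omega))) hEn
  classical
  set k := Nat.findGreatest (fun k => P d k ≤ P a k) n with hk
  have hkn : k ≤ n := Nat.findGreatest_le n
  have hk0 : P d k ≤ P a k := by
    have : (fun k => P d k ≤ P a k) 0 := by simp
    exact Nat.findGreatest_spec (P := fun k => P d k ≤ P a k) (Nat.zero_le n) this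
  have hkgt : ∀ j, k < j → j ≤ n → P a j < P d j := by
    intro j h1 h2
    have := Nat.findGreatest_is_greatest (P := fun k => P d k ≤ P a k) h1 h2
    push Not at this
    exact this
  obtain ⟨m, hm⟩ := Nat.exists_eq_add_of_le (show k ≤ n + 1 by omega)
  have hm1 : 1 ≤ m := by omega
  have hSk : 0 ≤ S a k := S_nonneg a k (fun i u v => hapos i u (by omega))
  have hPk : 0 < P a k := P_pos a k (fun i u v => hapos i u (by omega))
  have key := tail_lt (fun i => d (k + i)) (fun i => a (k + i)) m (S a k) hm1 hSk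
    (fun i u v => hapos _ (by omega) (by omega)) (fun i u v => hdpos _)
    (by
      intro i u v
      have h1 : x (k + i) ≤ x (k + (i + 1)) := hmono _ _ (by omega) (by omega) (by omega)
      have h2 : (0:ℝ) < x (k + i) := by exact_mod_cast hpos (k + i) (by omega) (by omega)
      show 1 / (x (k + (i + 1)) : ℝ) ≤ 1 / (x (k + i) : ℝ)
      apply one_div_le_one_div_of_le h2
      exact_mod_cast h1)
    (by
      intro j u v
      have h1 : P a (k + j) < P d (k + j) := by
        rcases Nat.lt_or_ge n (k + j) with h | h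
        · have : k + j = n + 1 := by omega
          rw [this]; exact hcon
        · exact hkgt _ (by omega) h
      rw [P_add, P_add] at h1
      have h2 : 0 < P (fun i => d (k + i)) j := P_pos _ _ (fun i _ _ => hdpos _)
      have h3 := mul_le_mul_of_nonneg_right hk0 h2.le
      exact lt_of_mul_lt_mul_left (lt_of_lt_of_le h1 h3) hPk.le)
    (by
      rcases Nat.eq_zero_or_pos k with h | h
      · right; omega
      · left; exact S_pos a k h (fun i u v => hapos i u (by omega)))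
  have e1 : E a k + S a k * S (fun i => a (k + i)) m + E (fun i => a (k + i)) m = 1 := by
    rw [← E_add, ← hm]; exact hE
  have e2 : E d k + S d k * S (fun i => d (k + i)) m + E (fun i => d (k + i)) m = 1 := by
    rw [← E_add, ← hm]; exact hEdn
  have e3 : E a k ≤ E d k := by
    have h1 := P_le x k (fun i u v => hpos i u (by omega)) (hEk k hkn)
    have h2 : E d k = 1 - P d k := by rw [hEd k hkn, hPd k hkn, Ec', Pc']
    have h3 : P a k ≤ 1 - E a k := h1
    linarith
  have e4 : S a k ≤ S d k := by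
    rw [hSd k hkn]
    exact S_le x k (fun i u v => hpos i u (by omega)) (fun i j u v w => hmono i j u v (by omega))
      (hEk k hkn)
  have e5 : 0 ≤ S (fun i => d (k + i)) m := S_nonneg _ _ (fun i _ _ => hdpos _)
  have e6 := mul_le_mul_of_nonneg_right e4 e5
  linarith

/-! ### elementary symmetric functions -/

/-- `σ_j(x_1, ..., x_n)` -/
def sig (x : ℕ → ℕ) (n j : ℕ) : ℕ := ∑ s ∈ (Icc 1 n).powersetCard j, ∏ i ∈ s, x i

lemma sig_succ (x : ℕ → ℕ) (n r : ℕ) :
    sig x (n + 1) (r + 1) = sig x n (r + 1) + x (n + 1) * sig x n r := by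
  have hI : Icc 1 (n + 1) = insert (n + 1) (Icc 1 n) := by
    ext i; simp only [mem_Icc, mem_insert]; omega
  have hnot : n + 1 ∉ Icc 1 n := by rw [mem_Icc]; omega
  unfold sig
  rw [hI, Finset.powersetCard_succ_insert hnot, Finset.sum_union, Finset.sum_image]
  · congr 1
    rw [Finset.mul_sum]
    apply Finset.sum_congr rfl
    intro s hs
    rw [Finset.mem_powersetCard] at hs
    rw [Finset.prod_insert (fun h => hnot (hs.1 h))]
  · intro s hs t ht hst
    rw [Finset.mem_coe, Finset.mem_powersetCard] at hs ht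
    have h1 : n + 1 ∉ s := fun h => hnot (hs.1 h)
    have h2 : n + 1 ∉ t := fun h => hnot (ht.1 h)
    have := congrArg (fun u => u.erase (n + 1)) hst
    simpa [Finset.erase_insert h1, Finset.erase_insert h2] using this
  · rw [Finset.disjoint_left]
    intro s hs ht
    rw [Finset.mem_powersetCard] at hs
    rw [Finset.mem_image] at ht
    obtain ⟨t, _, rfl⟩ := ht
    exact hnot (hs.1 (Finset.mem_insert_self _ _))

lemma sig_top (x : ℕ → ℕ) (n : ℕ) : sig x n n = ∏ i ∈ Icc 1 n, x i := by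
  unfold sig
  have : (Icc 1 n).powersetCard n = {Icc 1 n} := by
    have h := Finset.powersetCard_self (Icc 1 n)
    rwa [Nat.card_Icc, show n + 1 - 1 = n by omega] at h
  rw [this, Finset.sum_singleton]

lemma sig_zero (x : ℕ → ℕ) (n : ℕ) : sig x n 0 = 1 := by
  unfold sig; simp

lemma PX (x : ℕ → ℕ) (k : ℕ) :
    P (fun i => 1 / (x i : ℝ)) k = 1 / ((∏ i ∈ Icc 1 k, x i : ℕ) : ℝ) := by
  unfold P
  push_cast
  rw [Finset.prod_div_distrib]
  simp

lemma sig_A (x : ℕ → ℕ) (r : ℕ) (hpos : ∀ i, 1 ≤ i → i ≤ r + 1 → 1 ≤ x i) :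
    (sig x (r + 1) r : ℝ) = S (fun i => 1 / (x i : ℝ)) (r + 1) * ((∏ i ∈ Icc 1 (r + 1), x i : ℕ) : ℝ) := by
  induction r with
  | zero =>
    have : (0:ℝ) < x 1 := by exact_mod_cast hpos 1 le_rfl le_rfl
    rw [sig_zero, S_succ]
    simp
    field_simp
  | succ r ih =>
    have ih' := ih (fun i a b => hpos i a (by omega))
    have hx : (0:ℝ) < x (r + 1 + 1) := by exact_mod_cast hpos (r + 1 + 1) (by omega) le_rfl
    rw [sig_succ, sig_top, S_succ, Finset.prod_Icc_succ_top (by omega : 1 ≤ r + 1 + 1)]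
    push_cast at ih' ⊢
    rw [ih']
    field_simp
    ring

lemma sig_B (x : ℕ → ℕ) (r : ℕ) (hpos : ∀ i, 1 ≤ i → i ≤ r + 2 → 1 ≤ x i) :
    (sig x (r + 2) r : ℝ) = E (fun i => 1 / (x i : ℝ)) (r + 2) * ((∏ i ∈ Icc 1 (r + 2), x i : ℕ) : ℝ) := by
  induction r with
  | zero =>
    have h1 : (0:ℝ) < x 1 := by exact_mod_cast hpos 1 le_rfl (by norm_num)
    have h2 : (0:ℝ) < x 2 := by exact_mod_cast hpos 2 (by norm_num) le_rfl
    rw [sig_zero, show 0 + 2 = 0 + 1 + 1 from rfl, E_succ, E_succ, S_succ,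
      Finset.prod_Icc_succ_top (by omega), Finset.prod_Icc_succ_top (by omega)]
    simp
    field_simp
  | succ r ih =>
    have ih' := ih (fun i a b => hpos i a (by omega))
    have hx : (0:ℝ) < x (r + 2 + 1) := by exact_mod_cast hpos (r + 2 + 1) (by omega) le_rfl
    have hA := sig_A x (r + 1) (fun i a b => hpos i a (by omega))
    rw [show r + 1 + 2 = (r + 2) + 1 from rfl, sig_succ, E_succ,
      Finset.prod_Icc_succ_top (by omega : 1 ≤ r + 2 + 1)]
    rw [show r + 1 + 1 = r + 2 from rfl] at hA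
    push_cast at ih' hA ⊢
    rw [ih', hA]
    field_simp
    ring

theorem prod_bound (x : ℕ → ℕ) (n : ℕ) (hn : 2 ≤ n) (hpos : ∀ i, 1 ≤ i → i ≤ n → 1 ≤ x i)
    (hmono : ∀ i j, 1 ≤ i → i ≤ j → j ≤ n → x i ≤ x j)
    (hsig : sig x n (n - 2) = sig x n n) :
    ∏ i ∈ Icc 1 n, x i ≤ (pq (n - 1)).1 * (pq (n - 1)).2 := by
  obtain ⟨r, rfl⟩ : ∃ r, n = r + 2 := ⟨n - 2, by omega⟩
  rw [show r + 2 - 2 = r by omega, sig_top] at hsig
  have hX : 0 < ∏ i ∈ Icc 1 (r + 2), x i := by
    apply Finset.prod_pos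
    intro i hi
    rw [mem_Icc] at hi
    exact hpos i hi.1 hi.2
  have hXR : (0:ℝ) < ((∏ i ∈ Icc 1 (r + 2), x i : ℕ) : ℝ) := by exact_mod_cast hX
  have hE : E (fun i => 1 / (x i : ℝ)) (r + 1 + 1) = 1 := by
    have h := sig_B x r hpos
    rw [hsig] at h
    have := mul_right_cancel₀ hXR.ne' (h.symm.trans (one_mul _).symm)
    exact this
  have h := main x (r + 1) (by omega) hpos hmono hE
  rw [PX x _] at h
  have hq := q_pos (r + 1) (by omega)
  have hp := p_pos (r + 1)
  have hqR : (0:ℝ) < (pq (r + 1)).2 := by exact_mod_cast hq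
  have hpR : (0:ℝ) < (pq (r + 1)).1 := by exact_mod_cast hp
  rw [one_div_le_one_div (by positivity) hXR] at h
  show ∏ i ∈ Icc 1 (r + 2), x i ≤ (pq (r + 1)).1 * (pq (r + 1)).2
  exact_mod_cast h

/-- identification of the sequence of the problem -/
theorem v_eq (v : ℕ → ℚ) (h1 : v 1 = 1) (h2 : v 2 = 2)
    (hrec : ∀ n, 2 ≤ n → v (n + 1) = 1 + (∑ i ∈ Icc 1 n, 1 / v i) /
      (1 - ∑ i ∈ Icc 1 n, ∑ j ∈ Icc (i + 1) n, 1 / (v i * v j))) :
    ∀ k, 1 ≤ k → v k = (vv k : ℚ) := by
  intro k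
  induction k using Nat.strong_induction_on with
  | _ k ih =>
    intro hk
    rcases Nat.lt_or_ge 2 k with h | h
    · obtain ⟨n, rfl⟩ : ∃ n, k = n + 1 := ⟨k - 1, by omega⟩
      rw [hrec n (by omega), vv_succ]
      have hS : ∑ i ∈ Icc 1 n, 1 / v i = ((pq n).2 : ℚ) / ((pq n).1 : ℚ) := by
        rw [← Sc ℚ n]
        unfold S
        apply Finset.sum_congr rfl
        intro i hi
        rw [mem_Icc] at hi
        rw [ih i (by omega) hi.1]
      have hE : ∑ i ∈ Icc 1 n, ∑ j ∈ Icc (i + 1) n, 1 / (v i * v j) = 1 - 1 / ((pq n).1 : ℚ) := by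
        rw [← Ec ℚ n, ← double_eq]
        apply Finset.sum_congr rfl
        intro i hi
        rw [mem_Icc] at hi
        apply Finset.sum_congr rfl
        intro j hj
        rw [mem_Icc] at hj
        rw [ih i (by omega) hi.1, ih j (by omega) (by omega), one_div_mul_one_div]
      rw [hS, hE]
      have hp : ((pq n).1 : ℚ) ≠ 0 := by exact_mod_cast (p_pos n).ne'
      push_cast
      field_simp
      ring
    · interval_cases k
      · rw [h1]; norm_num [vv, pq]
      · rw [h2]; norm_num [vv, pq]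

lemma prod_vv (n : ℕ) : ∏ i ∈ Icc 1 n, vv i = (pq n).1 := by
  induction n with
  | zero => simp [pq]
  | succ n ih => rw [Finset.prod_Icc_succ_top (by omega), ih, pq_succ, vv_succ]

end Pool.Agent.X7.SigProd
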