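import Mathlib

/-!
# Triangle-free graphs and Turan graphs in the complement (helper7)
-/

set_option autoImplicit false
set_option maxHeartbeats 4000000

namespace Pool.Agent.X7.SidTuran

open Finset

/-- number of edges of the Turan graph `T(k, w)` -/
def M (k w : ℕ) : ℕ := (k ^ 2 - (k % w) ^ 2) * (w - 1) / (2 * w) + (k % w).choose 2

/-- the numerical condition -/
def ok (k w : ℕ) : Bool :=
  decide (((k - k / w) + M (k - k / w) (w - 1) - 1) * (k + M k w).descFactorial (k / w) <
    (k + M k w) * (k + M k w - k).descFactorial (k / w))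

/-- the numerical conditions for the induction; the number of parts is `w + 1` -/
def chain : ℕ → ℕ → Bool
  | 0, _ => true
  | w + 1, k => ok k (w + 2) && chain w (k - k / (w + 2))

/-- arithmetic condition implied by `log k < (3w-1)/(w-1)`, with `w - 1 = t` -/
def R (k t : ℕ) : Prop := k ^ t * (10 ^ 10) ^ (3 * t + 2) < 27182818286 ^ (3 * t + 2)

instance (k t : ℕ) : Decidable (R k t) := by unfold R; infer_instance

theorem chain_ok : ∀ t < 22, ∀ k < 149, t + 1 ≤ k → R k t → chain t k = true := by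
  decide +kernel

theorem R_bounds {k t : ℕ} (ht : 1 ≤ t) (hk : t + 1 ≤ k) (h : R k t) : t < 22 ∧ k < 149 := by
  have key : ∀ (a t0 : ℕ), t0 ≤ t → 27182818286 ^ 3 ≤ a * (10 ^ 10) ^ 3 →
      (27182818286 ^ 3) ^ t0 * 27182818286 ^ 2 ≤ (a * (10 ^ 10) ^ 3) ^ t0 * (10 ^ 10) ^ 2 →
      k < a := by
    intro a t0 h0 h1 h2
    by_contra hcon
    push Not at hcon
    obtain ⟨j, rfl⟩ := Nat.exists_eq_add_of_le h0
    unfold R at h
    have gen1 : ∀ c : ℕ, c ^ (3 * (t0 + j) + 2) = (c ^ 3) ^ j * ((c ^ 3) ^ t0 * c ^ 2) := by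
      intro c; ring
    have gen2 : ∀ k d : ℕ, k ^ (t0 + j) * d ^ (3 * (t0 + j) + 2) =
        (k * d ^ 3) ^ j * ((k * d ^ 3) ^ t0 * d ^ 2) := by intro k d; ring
    rw [gen2, gen1] at h
    have h3 : a * (10 ^ 10) ^ 3 ≤ k * (10 ^ 10) ^ 3 := Nat.mul_le_mul_right _ hcon
    have h4 : (27182818286 ^ 3) ^ j ≤ (k * (10 ^ 10) ^ 3) ^ j :=
      Nat.pow_le_pow_left (h1.trans h3) j
    have h5 : (27182818286 ^ 3) ^ t0 * 27182818286 ^ 2 ≤ (k * (10 ^ 10) ^ 3) ^ t0 * (10 ^ 10) ^ 2 :=
      h2.trans (Nat.mul_le_mul_right _ (Nat.pow_le_pow_left h3 t0))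
    exact absurd (Nat.mul_le_mul h4 h5) (not_le.2 h)
  refine ⟨?_, key 149 1 ht (by norm_num) (by norm_num)⟩
  by_contra hcon
  push Not at hcon
  have := key 23 22 hcon (by norm_num) (by norm_num)
  omega

section arith

lemma ar1 {u k v : ℕ} (hv : v < k) (h : v % (u + 1) ≠ u) :
    v - v / (u + 1) < k - k / (u + 1) ∧ (v - v / (u + 1)) % u = v % (u + 1) ∧
      (v - v / (u + 1)) / u = v / (u + 1) := by
  obtain ⟨q', hq'⟩ : ∃ q', q' = v / (u + 1) := ⟨_, rfl⟩
  obtain ⟨r', hr'⟩ : ∃ r', r' = v % (u + 1) := ⟨_, rfl⟩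
  obtain ⟨q, hq⟩ : ∃ q, q = k / (u + 1) := ⟨_, rfl⟩
  obtain ⟨r, hr⟩ : ∃ r, r = k % (u + 1) := ⟨_, rfl⟩
  have e1 : (u + 1) * q' + r' = v := by rw [hq', hr']; exact Nat.div_add_mod _ _
  have e2 : (u + 1) * q + r = k := by rw [hq, hr]; exact Nat.div_add_mod _ _
  have l1 : r' < u + 1 := by rw [hr']; exact Nat.mod_lt _ (Nat.succ_pos _)
  have l2 : r < u + 1 := by rw [hr]; exact Nat.mod_lt _ (Nat.succ_pos _)
  rw [← hq', ← hq, ← hr']
  rw [← hr'] at h
  have l3 : r' < u := by omega
  have e3 : v - q' = u * q' + r' := by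
    rw [← e1, add_mul, one_mul]; omega
  have e4 : k - q = u * q + r := by
    rw [← e2, add_mul, one_mul]; omega
  refine ⟨?_, ?_, ?_⟩
  · rw [e3, e4]
    have h5 : q' ≤ q := by rw [hq', hq]; exact Nat.div_le_div_right hv.le
    rcases h5.lt_or_eq with h6 | h6
    · have h7 : u * (q' + 1) ≤ u * q := Nat.mul_le_mul_left _ h6
      rw [mul_add, mul_one] at h7
      omega
    · rw [h6]
      rw [← e1, ← e2, h6] at hv
      omega
  · rw [e3, Nat.mul_add_mod, Nat.mod_eq_of_lt l3]
  · rw [e3, Nat.mul_add_div (by omega), Nat.div_eq_of_lt l3, add_zero]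

lemma ar2 {u k v : ℕ} (hv : v < k) (h : v % (u + 1) = u) : v / (u + 1) < k / (u + 1) := by
  have e1 : (u + 1) * (v / (u + 1)) + v % (u + 1) = v := Nat.div_add_mod _ _
  have e2 : (u + 1) * (k / (u + 1)) + k % (u + 1) = k := Nat.div_add_mod _ _
  have l2 : k % (u + 1) < u + 1 := Nat.mod_lt _ (Nat.succ_pos _)
  by_contra hcon
  push Not at hcon
  have := Nat.mul_le_mul_left (u + 1) hcon
  rw [h] at e1
  omega

lemma eq_of_div_mod {u v v' : ℕ} (h1 : v / u = v' / u) (h2 : v % u = v' % u) : v = v' := by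
  rw [← Nat.div_add_mod v u, ← Nat.div_add_mod v' u, h1, h2]

end arith

section

variable {V : Type*} [DecidableEq V] [Nonempty V] (H : SimpleGraph V) [DecidableRel H.Adj]

/-- a copy of `T(k, w)` in the complement of `H`, inside `U` -/
def Emb (k w : ℕ) (U : Finset V) : Prop :=
  ∃ f : ℕ → V, (∀ i < k, f i ∈ U) ∧ (∀ i < k, ∀ j < k, f i = f j → i = j) ∧
    ∀ i < k, ∀ j < k, i % w ≠ j % w → ¬ H.Adj (f i) (f j)

omit [DecidableEq V] in
lemma enum (I : Finset V) : ∃ f : ℕ → V, (∀ i < I.card, f i ∈ I) ∧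
    ∀ i < I.card, ∀ j < I.card, f i = f j → i = j := by
  refine ⟨fun i => if h : i < I.card then (I.equivFin.symm ⟨i, h⟩).1 else Classical.arbitrary V,
    ?_, ?_⟩
  · intro i hi
    simp only [dif_pos hi]
    exact (I.equivFin.symm ⟨i, hi⟩).2
  · intro i hi j hj hij
    simp only [dif_pos hi, dif_pos hj] at hij
    have := I.equivFin.symm.injective (Subtype.ext hij)
    simpa using this

variable {H}

omit [DecidableEq V] [DecidableRel H.Adj] in
lemma emb_of_indep {k w : ℕ} {U I : Finset V} (hI : I ⊆ U) (hk : k ≤ I.card)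
    (hind : ∀ a ∈ I, ∀ b ∈ I, ¬ H.Adj a b) : Emb H k w U := by
  obtain ⟨f, h1, h2⟩ := enum I
  exact ⟨f, fun i hi => hI (h1 i (hi.trans_le hk)),
    fun i hi j hj => h2 i (hi.trans_le hk) j (hj.trans_le hk),
    fun i hi j hj _ => hind _ (h1 i (hi.trans_le hk)) _ (h1 j (hj.trans_le hk))⟩

omit [Nonempty V] in
/-- Averaging over all sets of size `s`. -/
lemma avg (U : Finset V) {N s Np k : ℕ} (hU : U.card = N)
    (hdeg : ∀ x ∈ U, (U.filter (fun y => H.Adj x y)).card + 1 ≤ k)
    (hnum : (Np - 1) * N.descFactorial s < N * (N - k).descFactorial s) :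
    ∃ A ⊆ U, A.card = s ∧ Np ≤ (U.filter (fun x => x ∉ A ∧ ∀ a ∈ A, ¬ H.Adj a x)).card := by
  classical
  by_contra hcon
  push Not at hcon
  have h1 : ∑ A ∈ powersetCard s U, (U.filter (fun x => x ∉ A ∧ ∀ a ∈ A, ¬ H.Adj a x)).card ≤
      N.choose s * (Np - 1) := by
    rw [← hU, ← card_powersetCard, ← smul_eq_mul]
    apply sum_le_card_nsmul
    intro A hA
    rw [mem_powersetCard] at hA
    have := hcon A hA.1 hA.2
    omega
  have h2 : ∑ A ∈ powersetCard s U, (U.filter (fun x => x ∉ A ∧ ∀ a ∈ A, ¬ H.Adj a x)).card =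
      ∑ x ∈ U, ((powersetCard s U).filter (fun A => x ∉ A ∧ ∀ a ∈ A, ¬ H.Adj a x)).card := by
    simp only [card_filter]
    exact sum_comm
  have h3 : N * (N - k).choose s ≤
      ∑ x ∈ U, ((powersetCard s U).filter (fun A => x ∉ A ∧ ∀ a ∈ A, ¬ H.Adj a x)).card := by
    rw [← hU, ← smul_eq_mul]
    apply card_nsmul_le_sum
    intro x hx
    have h4 : (powersetCard s (U.filter (fun y => ¬ (y = x ∨ H.Adj x y)))) ⊆
        (powersetCard s U).filter (fun A => x ∉ A ∧ ∀ a ∈ A, ¬ H.Adj a x) := by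
      intro A hA
      rw [mem_powersetCard] at hA
      rw [mem_filter, mem_powersetCard]
      refine ⟨⟨hA.1.trans (filter_subset _ _), hA.2⟩, ?_, ?_⟩
      · intro hxA
        have := (mem_filter.1 (hA.1 hxA)).2
        exact this (Or.inl rfl)
      · intro a ha hadj
        have := (mem_filter.1 (hA.1 ha)).2
        exact this (Or.inr hadj.symm)
    have h5 := card_le_card h4
    rw [card_powersetCard] at h5
    refine le_trans (Nat.choose_le_choose s ?_) h5
    have h6 : (U.filter (fun y => y = x ∨ H.Adj x y)).card ≤ k := by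
      have h7 : U.filter (fun y => y = x ∨ H.Adj x y) ⊆
          insert x (U.filter (fun y => H.Adj x y)) := by
        intro y hy
        rw [mem_filter] at hy
        rw [mem_insert, mem_filter]
        rcases hy.2 with h | h
        · exact Or.inl h
        · exact Or.inr ⟨hy.1, h⟩
      have h8 := (card_le_card h7).trans (card_insert_le _ _)
      have h9 := hdeg x hx
      omega
    have h10 := card_filter_add_card_filter_not (s := U) (fun y => y = x ∨ H.Adj x y)
    omega
  have h11 : N * (N - k).choose s ≤ N.choose s * (Np - 1) := h3.trans (h2 ▸ h1)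
  rw [Nat.descFactorial_eq_factorial_mul_choose, Nat.descFactorial_eq_factorial_mul_choose] at hnum
  have h12 := Nat.mul_le_mul_left (Nat.factorial s) h11
  have e1 : (Np - 1) * (Nat.factorial s * N.choose s) =
      Nat.factorial s * (N.choose s * (Np - 1)) := by ring
  have e2 : N * (Nat.factorial s * (N - k).choose s) =
      Nat.factorial s * (N * (N - k).choose s) := by ring
  rw [e1, e2] at hnum
  omega

/-- Main induction. -/
theorem main (htri : ∀ a b c, H.Adj a b → H.Adj b c → H.Adj c a → False) :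
    ∀ (w k : ℕ), chain w k = true → ∀ U : Finset V, k + M k (w + 1) ≤ U.card →
      Emb H k (w + 1) U := by
  classical
  intro w
  induction w with
  | zero =>
    intro k _ U hU
    obtain ⟨f, h1, h2⟩ := enum U
    have hk : k ≤ U.card := by omega
    refine ⟨f, fun i hi => h1 i (hi.trans_le hk),
      fun i hi j hj => h2 i (hi.trans_le hk) j (hj.trans_le hk), ?_⟩
    intro i _ j _ hij
    rw [zero_add, Nat.mod_one, Nat.mod_one] at hij
    exact absurd rfl hij
  | succ w ih =>
    intro k hc U hU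
    unfold chain at hc
    rw [Bool.and_eq_true] at hc
    obtain ⟨hok, hc⟩ := hc
    unfold ok at hok
    rw [decide_eq_true_eq] at hok
    obtain ⟨U0, hU0, hU0c⟩ := exists_subset_card_eq hU
    by_cases hdeg : ∃ x ∈ U0, k ≤ (U0.filter (fun y => H.Adj x y)).card
    · obtain ⟨x, hx, hxk⟩ := hdeg
      apply emb_of_indep (I := U0.filter (fun y => H.Adj x y)) ((filter_subset _ _).trans hU0) hxk
      intro a ha b hb hab
      exact htri x a b (mem_filter.1 ha).2 hab (mem_filter.1 hb).2.symm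
    · push Not at hdeg
      obtain ⟨A, hA, hAs, hA2⟩ := avg (H := H) U0 hU0c (fun x hx => hdeg x hx) hok
      obtain ⟨f', f1, f2, f3⟩ := ih (k - k / (w + 2)) hc _ hA2
      obtain ⟨a, a1, a2⟩ := enum A
      rw [hAs] at a1 a2
      have hmemU : ∀ z, z ∈ U0.filter (fun x => x ∉ A ∧ ∀ a ∈ A, ¬ H.Adj a x) →
          z ∈ U ∧ z ∉ A ∧ ∀ a ∈ A, ¬ H.Adj a z := by
        intro z hz
        rw [mem_filter] at hz
        exact ⟨hU0 hz.1, hz.2⟩
      refine ⟨fun v => if v % (w + 1 + 1) = w + 1 then a (v / (w + 1 + 1)) else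
        f' (v - v / (w + 1 + 1)), ?_, ?_, ?_⟩
      · intro i hi
        by_cases hc1 : i % (w + 1 + 1) = w + 1
        · simp only [if_pos hc1]
          exact hU0 (hA (a1 _ (ar2 hi hc1)))
        · simp only [if_neg hc1]
          exact (hmemU _ (f1 _ (ar1 hi hc1).1)).1
      · intro i hi j hj hij
        by_cases hc1 : i % (w + 1 + 1) = w + 1 <;> by_cases hc2 : j % (w + 1 + 1) = w + 1
        · simp only [if_pos hc1, if_pos hc2] at hij
          have := a2 _ (ar2 hi hc1) _ (ar2 hj hc2) hij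
          exact eq_of_div_mod this (hc1.trans hc2.symm)
        · simp only [if_pos hc1, if_neg hc2] at hij
          have h1 := a1 _ (ar2 hi hc1)
          have h2 := (hmemU _ (f1 _ (ar1 hj hc2).1)).2.1
          rw [hij] at h1
          exact absurd h1 h2
        · simp only [if_neg hc1, if_pos hc2] at hij
          have h1 := a1 _ (ar2 hj hc2)
          have h2 := (hmemU _ (f1 _ (ar1 hi hc1).1)).2.1
          rw [← hij] at h1
          exact absurd h1 h2
        · simp only [if_neg hc1, if_neg hc2] at hij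
          have h1 := ar1 hi hc1
          have h2 := ar1 hj hc2
          have h3 := f2 _ h1.1 _ h2.1 hij
          apply eq_of_div_mod (u := w + 1 + 1)
          · rw [← h1.2.2, ← h2.2.2, h3]
          · rw [← h1.2.1, ← h2.2.1, h3]
      · intro i hi j hj hij
        by_cases hc1 : i % (w + 1 + 1) = w + 1 <;> by_cases hc2 : j % (w + 1 + 1) = w + 1
        · exact absurd (hc1.trans hc2.symm) hij
        · simp only [if_pos hc1, if_neg hc2]
          exact (hmemU _ (f1 _ (ar1 hj hc2).1)).2.2 _ (a1 _ (ar2 hi hc1))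
        · simp only [if_neg hc1, if_pos hc2]
          intro hadj
          exact (hmemU _ (f1 _ (ar1 hi hc1).1)).2.2 _ (a1 _ (ar2 hj hc2)) hadj.symm
        · simp only [if_neg hc1, if_neg hc2]
          have h1 := ar1 hi hc1
          have h2 := ar1 hj hc2
          apply f3 _ h1.1 _ h2.1
          rw [h1.2.1, h2.2.1]
          exact hij

end

end Pool.Agent.X7.SidTuran
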