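import Mathlib

/-!
Preimages of sets of residues under the reduction `ℤ/(de) → ℤ/d`.
-/

set_option autoImplicit false

open Finset

namespace Pool.Agent.X7.Fiber

theorem fiber_card (d e : ℕ) (hd : 1 ≤ d) [NeZero (d * e)] (y : ZMod d) :
    ((univ : Finset (ZMod (d * e))).filter
      (fun x => (ZMod.castHom (dvd_mul_right d e) (ZMod d)) x = y)).card = e := by
  have : NeZero d := ⟨by omega⟩
  set f := ZMod.castHom (dvd_mul_right d e) (ZMod d) with hf
  have hsurj : Function.Surjective f := ZMod.castHom_surjective _
  have hconst : ∀ y : ZMod d, ((univ : Finset (ZMod (d * e))).filter (fun x => f x = y)).card =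
      ((univ : Finset (ZMod (d * e))).filter (fun x => f x = 0)).card := by
    intro y
    obtain ⟨x0, hx0⟩ := hsurj y
    symm
    apply card_bij (fun x _ => x + x0)
    · intro x hx
      rw [mem_filter] at hx ⊢
      exact ⟨mem_univ _, by rw [map_add, hx.2, zero_add, hx0]⟩
    · intro a _ b _ hab
      exact add_right_cancel hab
    · intro z hz
      rw [mem_filter] at hz
      exact ⟨z - x0, by rw [mem_filter]; exact ⟨mem_univ _, by rw [map_sub, hz.2, hx0, sub_self]⟩,
        by ring⟩
  have hsum : (univ : Finset (ZMod (d * e))).card = ∑ y : ZMod d,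
      ((univ : Finset (ZMod (d * e))).filter (fun x => f x = y)).card :=
    card_eq_sum_card_fiberwise (fun x _ => mem_coe.2 (mem_univ (f x)))
  rw [sum_congr rfl (fun y _ => hconst y), sum_const, card_univ, card_univ, ZMod.card, ZMod.card,
    smul_eq_mul] at hsum
  rw [hconst y]
  exact (Nat.eq_of_mul_eq_mul_left (by omega) hsum).symm

theorem preimage_card (d e : ℕ) (hd : 1 ≤ d) [NeZero (d * e)] (J : Finset (ZMod d)) :
    ((univ : Finset (ZMod (d * e))).filter
      (fun x => (ZMod.castHom (dvd_mul_right d e) (ZMod d)) x ∈ J)).card = J.card * e := by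
  set f := ZMod.castHom (dvd_mul_right d e) (ZMod d) with hf
  have hmaps : Set.MapsTo f ((univ.filter (fun x => f x ∈ J) : Finset (ZMod (d * e))) :
      Set (ZMod (d * e))) (J : Set (ZMod d)) := by
    intro x hx
    rw [mem_coe, mem_filter] at hx
    exact mem_coe.2 hx.2
  rw [card_eq_sum_card_fiberwise hmaps]
  have : ∀ y ∈ J, ((univ.filter (fun x => f x ∈ J) : Finset (ZMod (d * e))).filter
      (fun x => f x = y)).card = e := by
    intro y hy
    have h1 := fiber_card d e hd y
    rw [← hf] at h1
    refine Eq.trans ?_ h1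
    congr 1
    ext x
    simp only [mem_filter, mem_univ, true_and]
    constructor
    · exact fun h => h.2
    · intro h
      exact ⟨by rw [h]; exact hy, h⟩
  rw [sum_congr rfl this, sum_const, smul_eq_mul]

/-- Counting residues given by a condition on representatives. -/
theorem val_filter_card (d : ℕ) [NeZero d] (P : ℕ → Prop) [DecidablePred P] :
    ((univ : Finset (ZMod d)).filter (fun x => P x.val)).card = ((range d).filter P).card := by
  apply card_bij (fun x _ => x.val)
  · intro x hx
    rw [mem_filter] at hx ⊢
    exact ⟨mem_range.2 (ZMod.val_lt x), hx.2⟩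
  · intro a _ b _ hab
    exact ZMod.val_injective d hab
  · intro k hk
    rw [mem_filter, mem_range] at hk
    refine ⟨(k : ZMod d), ?_, ZMod.val_natCast_of_lt hk.1⟩
    rw [mem_filter, ZMod.val_natCast_of_lt hk.1]
    exact ⟨mem_univ _, hk.2⟩

end Pool.Agent.X7.Fiber
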