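import Mathlib
import Pool.Agent.Helper591.Kneser

/-!
Iterated forms of Kneser's theorem and tools for signed sumsets.
-/

set_option autoImplicit false
set_option linter.unusedSectionVars false

open Finset
open scoped Pointwise

namespace Pool.Agent.X7.KneserTools

open Pool.Agent.Helper591.Kneser

variable {G : Type*} [AddCommGroup G] [Fintype G] [DecidableEq G]

theorem els_add_self (H : AddSubgroup G) : els H + els H = els H := by
  ext x
  rw [mem_add, mem_els]
  constructor
  · rintro ⟨a, ha, b, hb, rfl⟩
    exact H.add_mem (mem_els.1 ha) (mem_els.1 hb)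
  · intro hx
    exact ⟨x, mem_els.2 hx, 0, mem_els.2 H.zero_mem, add_zero x⟩

theorem add_els_eq {C : Finset G} {H : AddSubgroup G} (h : H ≤ stab C) : C + els H = C := by
  ext x
  rw [mem_add]
  constructor
  · rintro ⟨a, ha, b, hb, rfl⟩
    rw [add_comm]
    exact (h (mem_els.1 hb) a).2 ha
  · intro hx
    exact ⟨x, hx, 0, mem_els.2 H.zero_mem, add_zero x⟩

theorem le_stab_add_els (C : Finset G) (H : AddSubgroup G) : H ≤ stab (C + els H) := by
  intro g hg
  apply mem_stab_of_forall
  intro x hx
  rw [mem_add] at hx ⊢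
  obtain ⟨a, ha, b, hb, rfl⟩ := hx
  exact ⟨a, ha, g + b, mem_els.2 (H.add_mem hg (mem_els.1 hb)), by abel⟩

theorem sm_add_els (B : Finset G) (H : AddSubgroup G) (s : ℕ) (hs : 1 ≤ s) :
    sm s (B + els H) = sm s B + els H := by
  induction s with
  | zero => omega
  | succ s ih =>
    rcases Nat.eq_zero_or_pos s with rfl | hpos
    · rw [sm_one, sm_one]
    · rw [sm_succ, sm_succ, ih hpos, add_add_add_comm, els_add_self]

/-- Iterated Kneser theorem: with `H` the stabilizer of `sB`, one has
`s |B + H| + |H| ≤ |sB| + s |H|`. -/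
theorem kneser_iter {B : Finset G} (hB : B.Nonempty) (s : ℕ) (hs : 1 ≤ s) :
    s * (B + els (stab (sm s B))).card + (els (stab (sm s B))).card ≤
      (sm s B).card + s * (els (stab (sm s B))).card := by
  set H := stab (sm s B) with hH
  set C := B + els H with hC
  have hCne : C.Nonempty := hB.add ⟨0, mem_els.2 H.zero_mem⟩
  have hsC : sm s C = sm s B := by
    rw [hC, sm_add_els B H s hs]
    exact add_els_eq le_rfl
  have hst : ∀ j, 1 ≤ j → j ≤ s → stab (sm j C) = H := by
    intro j hj hjs
    apply le_antisymm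
    · have := stab_sm_mono hjs C
      rw [hsC] at this
      exact this
    · have := stab_sm_mono hj C
      rw [sm_one] at this
      exact (le_stab_add_els B H).trans this
  have key : ∀ j, 1 ≤ j → j ≤ s → j * C.card + (els H).card ≤ (sm j C).card + j * (els H).card := by
    intro j
    induction j with
    | zero => intro h; omega
    | succ j ih =>
      intro _ hjs
      rcases Nat.eq_zero_or_pos j with rfl | hpos
      · rw [sm_one]
        omega
      · have h1 := ih hpos (by omega)
        have h2 := kneser (sm_nonempty hCne j) hCne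
        rw [← sm_succ, hst (j + 1) (by omega) hjs] at h2
        rw [Nat.succ_mul, Nat.succ_mul]
        omega
  have := key s hs le_rfl
  rw [hsC] at this
  exact this

/-- A union of cosets of `H` has cardinality divisible by `|H|`. -/
theorem card_dvd_of_le_stab {C : Finset G} {H : AddSubgroup G} (h : H ≤ stab C) :
    (els H).card ∣ C.card := by
  classical
  have hmaps : Set.MapsTo (fun x => (QuotientAddGroup.mk x : G ⧸ H)) (C : Set G)
      ((C.image (fun x => (QuotientAddGroup.mk x : G ⧸ H))) : Finset (G ⧸ H)) := by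
    intro x hx
    exact mem_coe.2 (mem_image_of_mem _ (mem_coe.1 hx))
  rw [card_eq_sum_card_fiberwise hmaps]
  apply dvd_sum
  intro q hq
  rw [mem_image] at hq
  obtain ⟨x, hx, rfl⟩ := hq
  have : (C.filter (fun y => (QuotientAddGroup.mk y : G ⧸ H) = QuotientAddGroup.mk x)).card
      = (els H).card := by
    symm
    apply card_bij (fun g _ => g + x)
    · intro g hg
      rw [mem_filter]
      refine ⟨(h (mem_els.1 hg) x).2 hx, ?_⟩
      rw [QuotientAddGroup.eq]
      have : -(g + x) + x = -g := by abel
      rw [this]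
      exact H.neg_mem (mem_els.1 hg)
    · intro a _ b _ hab
      exact add_right_cancel hab
    · intro y hy
      rw [mem_filter, QuotientAddGroup.eq] at hy
      refine ⟨y - x, ?_, by abel⟩
      rw [mem_els]
      have : y - x = -(-y + x) := by abel
      rw [this]
      exact H.neg_mem hy.2
  rw [this]

theorem stab_univ_ge (H : AddSubgroup G) : H ≤ stab (univ : Finset G) := by
  intro g _ x
  simp

theorem els_card_dvd (H : AddSubgroup G) : (els H).card ∣ Fintype.card G := by
  have := card_dvd_of_le_stab (stab_univ_ge H)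
  rwa [card_univ] at this

/-- A nonempty-fixed-point count: a symmetric set containing `0` in a group of odd order has odd
cardinality. -/
theorem odd_card_of_symm (hodd : Odd (Fintype.card G)) {B : Finset G} (h0 : (0 : G) ∈ B)
    (hsym : ∀ x ∈ B, -x ∈ B) : Odd B.card := by
  have h2 : ∀ x : G, x + x = 0 → x = 0 := by
    intro x hx
    have h1 : addOrderOf x ∣ 2 := addOrderOf_dvd_of_nsmul_eq_zero (by rw [two_nsmul]; exact hx)
    have h3 : addOrderOf x ∣ Fintype.card G := addOrderOf_dvd_card
    have h4 : addOrderOf x ∣ 1 := by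
      have hc : Nat.Coprime 2 (Fintype.card G) := Nat.coprime_two_left.2 hodd
      have := Nat.dvd_gcd h1 h3
      rwa [hc] at this
    exact AddMonoid.addOrderOf_eq_one_iff.1 (Nat.dvd_one.1 h4)
  have heven : Even (B.erase 0).card := by
    rw [even_iff_two_dvd, ← ZMod.natCast_eq_zero_iff]
    have := Finset.sum_involution (s := B.erase 0) (f := fun _ => (1 : ZMod 2)) (fun x _ => -x)
      (by intro a _; decide) (by
        intro a ha _ hcon
        rw [mem_erase] at ha
        apply ha.1
        apply h2
        nth_rw 1 [← hcon]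
        exact neg_add_cancel a) (by
        intro a ha
        rw [mem_erase] at ha ⊢
        exact ⟨fun h => ha.1 (neg_eq_zero.1 h), hsym a ha.2⟩) (by
        intro a _
        exact neg_neg a)
    rw [sum_const, nsmul_one] at this
    exact this
  rw [card_erase_of_mem h0] at heven
  have hpos : 0 < B.card := card_pos.2 ⟨0, h0⟩
  obtain ⟨k, hk⟩ := heven
  exact ⟨k, by omega⟩

/-- Main bound in groups of odd order: if `B` is symmetric, contains `0` and `sB ≠ G`, then for some
divisor `d ≥ 2` of `|G| = d e` and some `t` with `2 s t ≤ d - 2` we have `|B| ≤ (2t+1) e`. -/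
theorem symm_bound (hodd : Odd (Fintype.card G)) {B : Finset G} (h0 : (0 : G) ∈ B)
    (hsym : ∀ x ∈ B, -x ∈ B) (s : ℕ) (hs : 1 ≤ s) (hne : sm s B ≠ univ) :
    ∃ d e t : ℕ, d * e = Fintype.card G ∧ 2 ≤ d ∧ B.card ≤ (2 * t + 1) * e ∧
      2 * s * t + 2 ≤ d := by
  set H := stab (sm s B) with hH
  obtain ⟨d, hd⟩ := els_card_dvd H
  have hk := kneser_iter ⟨0, h0⟩ s hs
  rw [← hH] at hk
  obtain ⟨b, hb⟩ := card_dvd_of_le_stab (le_stab_add_els B H)
  have hlt : (sm s B).card < Fintype.card G := by
    rw [← card_univ]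
    exact card_lt_card (ssubset_univ_iff.2 hne)
  obtain ⟨c, hc⟩ := card_dvd_of_le_stab (C := sm s B) (H := H) le_rfl
  have hpos := card_els_pos H
  have h0C : (0 : G) ∈ B + els H := mem_add.2 ⟨0, h0, 0, mem_els.2 H.zero_mem, add_zero 0⟩
  have hsymC : ∀ x ∈ B + els H, -x ∈ B + els H := by
    intro x hx
    obtain ⟨a, ha, g, hg, rfl⟩ := mem_add.1 hx
    exact mem_add.2 ⟨-a, hsym a ha, -g, mem_els.2 (H.neg_mem (mem_els.1 hg)), by abel⟩
  have hoddC := odd_card_of_symm hodd h0C hsymC
  rw [hb] at hoddC hk
  rw [hc] at hk hlt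
  rw [hd] at hlt
  have hbodd : Odd b := (Nat.odd_mul.1 hoddC).2
  obtain ⟨t, ht⟩ := hbodd
  have hcd : c < d := Nat.lt_of_mul_lt_mul_left hlt
  have hk' : (els H).card * (s * b + 1) ≤ (els H).card * (c + s) := by
    calc (els H).card * (s * b + 1) = s * ((els H).card * b) + (els H).card := by ring
      _ ≤ (els H).card * c + s * (els H).card := hk
      _ = (els H).card * (c + s) := by ring
  have hk2 : s * b + 1 ≤ c + s := Nat.le_of_mul_le_mul_left hk' hpos
  have hBC : B.card ≤ (B + els H).card := by
    apply card_le_card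
    intro x hx
    exact mem_add.2 ⟨x, hx, 0, mem_els.2 H.zero_mem, add_zero x⟩
  refine ⟨d, (els H).card, t, by rw [hd, mul_comm], ?_, ?_, ?_⟩
  · subst ht
    have : s * (2 * t + 1) = s * (2 * t) + s := by ring
    rw [this] at hk2
    omega
  · rw [hb, ht, mul_comm] at hBC
    exact hBC
  · subst ht
    have : s * (2 * t + 1) = 2 * s * t + s := by ring
    rw [this] at hk2
    omega

/-- Elements of the `s`-fold sumset of `A ∪ -A ∪ {0}` are signed sums of length at most `s`. -/
theorem exists_coeff (A : Finset G) (s : ℕ) : ∀ x ∈ sm s (insert 0 (A ∪ -A)),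
    ∃ c : G → ℤ, ∑ a ∈ A, |c a| ≤ (s : ℤ) ∧ ∑ a ∈ A, c a • a = x := by
  classical
  induction s with
  | zero =>
    intro x hx
    rw [sm_zero, mem_singleton] at hx
    exact ⟨0, by simp, by simp [hx]⟩
  | succ s ih =>
    intro x hx
    rw [sm_succ, mem_add] at hx
    obtain ⟨y, hy, b, hb, rfl⟩ := hx
    obtain ⟨c, hc1, hc2⟩ := ih y hy
    have step : ∀ a ∈ A, ∀ ε : ℤ, |ε| = 1 → ∃ c' : G → ℤ,
        ∑ a ∈ A, |c' a| ≤ ((s + 1 : ℕ) : ℤ) ∧ ∑ a ∈ A, c' a • a = y + ε • a := by
      intro a ha ε hε
      refine ⟨fun z => c z + if z = a then ε else 0, ?_, ?_⟩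
      · calc ∑ z ∈ A, |c z + if z = a then ε else 0|
            ≤ ∑ z ∈ A, (|c z| + if z = a then 1 else 0) := by
              apply sum_le_sum
              intro z _
              by_cases hz : z = a
              · rw [if_pos hz, if_pos hz, ← hε]
                exact abs_add_le _ _
              · rw [if_neg hz, if_neg hz, add_zero, add_zero]
          _ = ∑ z ∈ A, |c z| + 1 := by
              rw [sum_add_distrib, sum_ite_eq' A a, if_pos ha]
          _ ≤ ((s + 1 : ℕ) : ℤ) := by push_cast; linarith
      · calc ∑ z ∈ A, (c z + if z = a then ε else 0) • z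
            = ∑ z ∈ A, (c z • z + if z = a then ε • z else 0) := by
              apply sum_congr rfl
              intro z _
              rw [add_zsmul]
              by_cases hz : z = a
              · rw [if_pos hz, if_pos hz]
              · rw [if_neg hz, if_neg hz, zero_zsmul]
          _ = y + ε • a := by
              rw [sum_add_distrib, sum_ite_eq' A a, if_pos ha, hc2]
    rw [mem_insert, mem_union, mem_neg] at hb
    rcases hb with rfl | hb | ⟨a, ha, rfl⟩
    · exact ⟨c, by push_cast; linarith, by rw [add_zero, hc2]⟩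
    · obtain ⟨c', h1, h2⟩ := step b hb 1 (by norm_num)
      exact ⟨c', h1, by rw [h2, one_zsmul]⟩
    · obtain ⟨c', h1, h2⟩ := step a ha (-1) (by norm_num)
      exact ⟨c', h1, by rw [h2, neg_one_zsmul]⟩

end Pool.Agent.X7.KneserTools
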