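import Mathlib

/-!
Verified exhaustive search for `4`-independent sets in `ℤ/n` with bit masks.
-/

set_option autoImplicit false

open Finset

namespace Pool.Agent.X7.IndepSearch

/-- `A ⊆ ℤ/n` is `t`-independent. -/
def Indep {n : ℕ} (t : ℕ) (A : Finset (ZMod n)) : Prop :=
  ∀ c : ZMod n → ℤ, ∑ a ∈ A, |c a| ≤ (t : ℤ) → ∑ a ∈ A, c a • a = 0 → ∀ a ∈ A, c a = 0

/-- Signed sums of `A` of weight at most `w`. -/
def Rep {n : ℕ} (A : Finset (ZMod n)) (w : ℕ) (s : ZMod n) : Prop :=
  ∃ c : ZMod n → ℤ, ∑ a ∈ A, |c a| ≤ (w : ℤ) ∧ ∑ a ∈ A, c a • a = s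

theorem rep_zero {n : ℕ} (A : Finset (ZMod n)) (w : ℕ) : Rep A w 0 :=
  ⟨0, by simp, by simp⟩

theorem rep_insert {n : ℕ} {A : Finset (ZMod n)} {y : ZMod n} (hy : y ∉ A) {w w' : ℕ} {s : ZMod n}
    (h : Rep A w s) (j : ℤ) (hj : |j| + w ≤ w') : Rep (insert y A) w' (s + j • y) := by
  classical
  obtain ⟨c, h1, h2⟩ := h
  have hne : ∀ a ∈ A, a ≠ y := fun a ha h => hy (h ▸ ha)
  refine ⟨fun z => if z = y then j else c z, ?_, ?_⟩
  · rw [sum_insert hy]
    beta_reduce
    rw [if_pos rfl]
    have : ∑ a ∈ A, |if a = y then j else c a| = ∑ a ∈ A, |c a| :=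
      sum_congr rfl (fun a ha => by rw [if_neg (hne a ha)])
    rw [this]
    linarith
  · rw [sum_insert hy]
    beta_reduce
    rw [if_pos rfl]
    have : ∑ a ∈ A, (if a = y then j else c a) • a = ∑ a ∈ A, c a • a :=
      sum_congr rfl (fun a ha => by rw [if_neg (hne a ha)])
    rw [this, h2, add_comm]

theorem indep_subset {n t : ℕ} {A B : Finset (ZMod n)} (hAB : A ⊆ B) (hB : Indep t B) :
    Indep t A := by
  classical
  intro c h1 h2 a ha
  have key := hB (fun z => if z ∈ A then c z else 0) (by
    have : ∑ z ∈ B, |if z ∈ A then c z else 0| = ∑ z ∈ A, |c z| := by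
      symm
      apply sum_subset_zero_on_sdiff hAB
      · intro x hx
        simp [(mem_sdiff.1 hx).2]
      · intro x hx
        simp [hx]
    rw [this]
    exact h1) (by
    have : ∑ z ∈ B, (if z ∈ A then c z else 0) • z = ∑ z ∈ A, c z • z := by
      symm
      apply sum_subset_zero_on_sdiff hAB
      · intro x hx
        simp [(mem_sdiff.1 hx).2]
      · intro x hx
        simp [hx]
    rw [this]
    exact h2) a (hAB ha)
  simpa [ha] using key

/-- In an independent set, `j y` is not a signed sum of the others of weight `≤ t - j`. -/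
theorem not_rep {n t : ℕ} {A : Finset (ZMod n)} {y : ZMod n} (hy : y ∉ A)
    (h : Indep t (insert y A)) (j : ℕ) (hj : 1 ≤ j) (hjt : j ≤ t) : ¬ Rep A (t - j) (j • y) := by
  classical
  rintro ⟨c, h1, h2⟩
  have hne : ∀ a ∈ A, a ≠ y := fun a ha h => hy (h ▸ ha)
  have key := h (fun z => if z = y then -(j : ℤ) else c z) (by
    rw [sum_insert hy, if_pos rfl]
    have : ∑ a ∈ A, |if a = y then -(j : ℤ) else c a| = ∑ a ∈ A, |c a| :=
      sum_congr rfl (fun a ha => by rw [if_neg (hne a ha)])
    rw [this, abs_neg, abs_of_nonneg (by positivity : (0 : ℤ) ≤ j)]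
    have : ((t - j : ℕ) : ℤ) = (t : ℤ) - j := by omega
    rw [this] at h1
    linarith) (by
    rw [sum_insert hy, if_pos rfl]
    have : ∑ a ∈ A, (if a = y then -(j : ℤ) else c a) • a = ∑ a ∈ A, c a • a :=
      sum_congr rfl (fun a ha => by rw [if_neg (hne a ha)])
    rw [this, h2, neg_zsmul, natCast_zsmul, neg_add_cancel]) y (mem_insert_self y A)
  simp only [if_true] at key
  omega

/-- Cyclic rotation of a mask by `s ≤ n`. -/
def rot (n m s : ℕ) : ℕ := ((m <<< s) ||| (m >>> (n - s))) &&& (2 ^ n - 1)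

/-- All set bits of `m` represent elements of `S`. -/
def Sound (n m : ℕ) (S : ZMod n → Prop) : Prop := ∀ i : ℕ, m.testBit i = true → S (i : ZMod n)

theorem sound_or {n m m' : ℕ} {S : ZMod n → Prop} (h : Sound n m S) (h' : Sound n m' S) :
    Sound n (m ||| m') S := by
  intro i hi
  rw [Nat.testBit_or, Bool.or_eq_true] at hi
  exact hi.elim (h i) (h' i)

theorem sound_rot {n m s : ℕ} (hs : s ≤ n) {S T : ZMod n → Prop} (h : Sound n m S)
    (hST : ∀ x, S x → T (x + (s : ZMod n))) : Sound n (rot n m s) T := by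
  intro i hi
  unfold rot at hi
  rw [Nat.testBit_and, Bool.and_eq_true, Nat.testBit_or, Bool.or_eq_true] at hi
  rcases hi.1 with h1 | h1
  · rw [Nat.testBit_shiftLeft, Bool.and_eq_true, decide_eq_true_eq] at h1
    have := hST _ (h _ h1.2)
    rwa [← Nat.cast_add, Nat.sub_add_cancel h1.1] at this
  · rw [Nat.testBit_shiftRight] at h1
    have := hST _ (h _ h1)
    rw [← Nat.cast_add] at this
    have e : n - s + i + s = n + i := by omega
    rw [e, Nat.cast_add, ZMod.natCast_self, zero_add] at this
    exact this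

/-- Masks of the signed sums of weight at most one, two, three. -/
structure Masks where
  d1 : ℕ
  d2 : ℕ
  d3 : ℕ

/-- The masks after adding the element `y`. -/
def Masks.add (n : ℕ) (D : Masks) (y : ℕ) : Masks where
  d1 := D.d1 ||| rot n 1 (y % n) ||| rot n 1 (n - y % n)
  d2 := D.d2 ||| rot n D.d1 (y % n) ||| rot n D.d1 (n - y % n) ||| rot n 1 (2 * y % n) |||
    rot n 1 (n - 2 * y % n)
  d3 := D.d3 ||| rot n D.d2 (y % n) ||| rot n D.d2 (n - y % n) ||| rot n D.d1 (2 * y % n) |||
    rot n D.d1 (n - 2 * y % n) ||| rot n 1 (3 * y % n) ||| rot n 1 (n - 3 * y % n)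

/-- Masks are sound for `A`. -/
def Masks.Good (n : ℕ) (D : Masks) (A : Finset (ZMod n)) : Prop :=
  Sound n D.d1 (Rep A 1) ∧ Sound n D.d2 (Rep A 2) ∧ Sound n D.d3 (Rep A 3)

theorem sound_one {n : ℕ} (A : Finset (ZMod n)) : Sound n 1 (Rep A 0) := by
  intro i hi
  rw [Nat.testBit_one_eq_true_iff_self_eq_zero] at hi
  rw [hi, Nat.cast_zero]
  exact rep_zero A 0

theorem rot_pos_sound {n : ℕ} [NeZero n] {A : Finset (ZMod n)} {y : ℕ} (hy : (y : ZMod n) ∉ A)
    {m w w' j : ℕ} (hm : Sound n m (Rep A w)) (hj : j + w ≤ w') :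
    Sound n (rot n m (j * y % n)) (Rep (insert (y : ZMod n) A) w') := by
  have hn : 0 < n := Nat.pos_of_ne_zero (NeZero.ne n)
  refine sound_rot (Nat.mod_lt _ hn).le hm ?_
  intro x hx
  have := rep_insert hy hx (j : ℤ) (w' := w') (by
    rw [abs_of_nonneg (by positivity : (0 : ℤ) ≤ j)]; exact_mod_cast hj)
  rw [natCast_zsmul, nsmul_eq_mul] at this
  rw [ZMod.natCast_mod, Nat.cast_mul]
  exact this

theorem rot_neg_sound {n : ℕ} [NeZero n] {A : Finset (ZMod n)} {y : ℕ} (hy : (y : ZMod n) ∉ A)
    {m w w' j : ℕ} (hm : Sound n m (Rep A w)) (hj : j + w ≤ w') :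
    Sound n (rot n m (n - j * y % n)) (Rep (insert (y : ZMod n) A) w') := by
  have hn : 0 < n := Nat.pos_of_ne_zero (NeZero.ne n)
  refine sound_rot (Nat.sub_le _ _) hm ?_
  intro x hx
  have := rep_insert hy hx (-(j : ℤ)) (w' := w') (by
    rw [abs_neg, abs_of_nonneg (by positivity : (0 : ℤ) ≤ j)]; exact_mod_cast hj)
  rw [neg_zsmul, natCast_zsmul, nsmul_eq_mul] at this
  rw [Nat.cast_sub (Nat.mod_lt _ hn).le, ZMod.natCast_mod, ZMod.natCast_self, zero_sub,
    Nat.cast_mul]
  exact this

theorem rep_mono {n : ℕ} {A : Finset (ZMod n)} {y : ZMod n} (hy : y ∉ A) {w : ℕ} {s : ZMod n}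
    (h : Rep A w s) : Rep (insert y A) w s := by
  have := rep_insert hy h 0 (w' := w) (by simp)
  rwa [zero_zsmul, add_zero] at this

theorem good_add {n : ℕ} [NeZero n] {D : Masks} {A : Finset (ZMod n)} (h : D.Good n A) {y : ℕ}
    (hy : (y : ZMod n) ∉ A) : (D.add n y).Good n (insert (y : ZMod n) A) := by
  obtain ⟨h1, h2, h3⟩ := h
  have h0 := sound_one A
  have e1 : y % n = 1 * y % n := by rw [one_mul]
  refine ⟨?_, ?_, ?_⟩
  · show Sound n (D.d1 ||| rot n 1 (y % n) ||| rot n 1 (n - y % n)) _
    rw [e1]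
    exact sound_or (sound_or (fun i hi => rep_mono hy (h1 i hi)) (rot_pos_sound hy h0 (by omega)))
      (rot_neg_sound hy h0 (by omega))
  · show Sound n (D.d2 ||| rot n D.d1 (y % n) ||| rot n D.d1 (n - y % n) ||| rot n 1 (2 * y % n) |||
      rot n 1 (n - 2 * y % n)) _
    rw [e1]
    exact sound_or (sound_or (sound_or (sound_or (fun i hi => rep_mono hy (h2 i hi))
      (rot_pos_sound hy h1 (by omega))) (rot_neg_sound hy h1 (by omega)))
      (rot_pos_sound hy h0 (by omega))) (rot_neg_sound hy h0 (by omega))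
  · show Sound n (D.d3 ||| rot n D.d2 (y % n) ||| rot n D.d2 (n - y % n) ||| rot n D.d1 (2 * y % n) |||
      rot n D.d1 (n - 2 * y % n) ||| rot n 1 (3 * y % n) ||| rot n 1 (n - 3 * y % n)) _
    rw [e1]
    exact sound_or (sound_or (sound_or (sound_or (sound_or (sound_or
      (fun i hi => rep_mono hy (h3 i hi))
      (rot_pos_sound hy h2 (by omega))) (rot_neg_sound hy h2 (by omega)))
      (rot_pos_sound hy h1 (by omega))) (rot_neg_sound hy h1 (by omega)))
      (rot_pos_sound hy h0 (by omega))) (rot_neg_sound hy h0 (by omega))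

/-- Can `y` be added? -/
def admissible (n : ℕ) (D : Masks) (y : ℕ) : Bool :=
  !(D.d3.testBit (y % n)) && !(D.d2.testBit (2 * y % n)) && !(D.d1.testBit (3 * y % n)) &&
    !((4 * y % n) == 0)

theorem admissible_of_indep {n : ℕ} [NeZero n] {D : Masks} {A : Finset (ZMod n)}
    (h : D.Good n A) {y : ℕ} (hy : (y : ZMod n) ∉ A) (hI : Indep 4 (insert (y : ZMod n) A)) :
    admissible n D y = true := by
  obtain ⟨h1, h2, h3⟩ := h
  have k1 := not_rep hy hI 1 (by norm_num) (by norm_num)
  have k2 := not_rep hy hI 2 (by norm_num) (by norm_num)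
  have k3 := not_rep hy hI 3 (by norm_num) (by norm_num)
  have k4 := not_rep hy hI 4 (by norm_num) (by norm_num)
  unfold admissible
  simp only [Bool.and_eq_true, Bool.not_eq_true']
  refine ⟨⟨⟨?_, ?_⟩, ?_⟩, ?_⟩
  · by_contra hcon
    rw [Bool.not_eq_false] at hcon
    have := h3 _ hcon
    rw [ZMod.natCast_mod] at this
    exact k1 (by rw [one_nsmul]; exact this)
  · by_contra hcon
    rw [Bool.not_eq_false] at hcon
    have := h2 _ hcon
    rw [ZMod.natCast_mod, Nat.cast_mul, ← nsmul_eq_mul] at this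
    exact k2 this
  · by_contra hcon
    rw [Bool.not_eq_false] at hcon
    have := h1 _ hcon
    rw [ZMod.natCast_mod, Nat.cast_mul, ← nsmul_eq_mul] at this
    exact k3 this
  · by_contra hcon
    rw [Bool.not_eq_false, beq_iff_eq] at hcon
    have h5 : ((4 * y : ℕ) : ZMod n) = 0 := by
      rw [ZMod.natCast_eq_zero_iff]
      exact Nat.dvd_of_mod_eq_zero hcon
    rw [Nat.cast_mul, ← nsmul_eq_mul] at h5
    apply k4
    rw [h5]
    exact rep_zero A 0

/-- `search n k D lo len` is `true` when there is no way to add `k` further elements from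
`lo, …, lo + len - 1` (in increasing order). -/
def search (n : ℕ) : ℕ → ℕ → Masks → ℕ → Bool
  | 0, _, _, _ => false
  | _ + 1, 0, _, _ => true
  | k + 1, len + 1, D, lo =>
    (!(admissible n D lo) || search n k len (D.add n lo) (lo + 1)) && search n (k + 1) len D (lo + 1)

theorem search_sound {n : ℕ} [NeZero n] (len : ℕ) : ∀ (k : ℕ) (D : Masks) (lo : ℕ)
    (A : Finset (ZMod n)), D.Good n A → search n k len D lo = true →
    ∀ B : Finset ℕ, B ⊆ Ico lo (lo + len) → B.card = k →
    lo + len ≤ n → (∀ b ∈ B, (b : ZMod n) ∉ A) →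
    ¬ Indep 4 (A ∪ B.image (fun b : ℕ => (b : ZMod n))) := by
  induction len with
  | zero =>
    intro k D lo A _ h B hB hcard
    cases k with
    | zero => simp [search] at h
    | succ k =>
      rw [Nat.add_zero, Ico_self, subset_empty] at hB
      rw [hB, card_empty] at hcard
      omega
  | succ len ih =>
    intro k D lo A hD hs B hB hcard hle hdisj hI
    cases k with
    | zero => simp [search] at hs
    | succ k =>
      rw [search, Bool.and_eq_true, Bool.or_eq_true, Bool.not_eq_true'] at hs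
      by_cases hlo : lo ∈ B
      · -- `lo ∈ B`
        have hloA := hdisj lo hlo
        have hsub : insert (lo : ZMod n) A ⊆ A ∪ B.image (fun b : ℕ => (b : ZMod n)) := by
          intro z hz
          rw [mem_insert] at hz
          rcases hz with rfl | hz
          · exact mem_union_right _ (mem_image_of_mem _ hlo)
          · exact mem_union_left _ hz
        have hadm := admissible_of_indep hD hloA (indep_subset hsub hI)
        have hs1 : search n k len (D.add n lo) (lo + 1) = true := by
          rcases hs.1 with h | h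
          · rw [hadm] at h; exact absurd h (by simp)
          · exact h
        refine ih k (D.add n lo) (lo + 1) (insert (lo : ZMod n) A) (good_add hD hloA) hs1
          (B.erase lo) ?_ ?_ (by omega) ?_ ?_
        · intro b hb
          rw [mem_erase] at hb
          have := hB hb.2
          rw [mem_Ico] at this ⊢
          omega
        · rw [card_erase_of_mem hlo, hcard]
          rfl
        · intro b hb hcon
          rw [mem_erase] at hb
          rw [mem_insert] at hcon
          rcases hcon with hcon | hcon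
          · have h1 := hB hb.2
            have h2 := hB hlo
            rw [mem_Ico] at h1 h2
            rw [ZMod.natCast_eq_natCast_iff', Nat.mod_eq_of_lt (by omega),
              Nat.mod_eq_of_lt (by omega)] at hcon
            exact hb.1 hcon
          · exact hdisj b hb.2 hcon
        · refine indep_subset ?_ hI
          intro z hz
          rw [mem_union, mem_insert, mem_image] at hz
          rcases hz with (rfl | hz) | ⟨b, hb, rfl⟩
          · exact mem_union_right _ (mem_image_of_mem _ hlo)
          · exact mem_union_left _ hz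
          · exact mem_union_right _ (mem_image_of_mem _ (mem_of_mem_erase hb))
      · refine ih (k + 1) D (lo + 1) A hD hs.2 B ?_ hcard (by omega) hdisj hI
        intro b hb
        have h1 := hB hb
        rw [mem_Ico] at h1 ⊢
        have : b ≠ lo := fun h => hlo (h ▸ hb)
        omega

/-- Transport of independence along `x ↦ ± u x` with `u` a unit. -/
theorem indep_image {n t : ℕ} {A : Finset (ZMod n)} (hA : Indep t A) (u : ZMod n) (hu : IsUnit u)
    (φ : ZMod n → ZMod n) (ε : ZMod n → ℤ) (hε : ∀ x ∈ A, |ε x| = 1)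
    (hφ : ∀ x ∈ A, φ x = ε x • (u * x)) (hinj : Set.InjOn φ (A : Set (ZMod n))) :
    Indep t (A.image φ) := by
  classical
  intro c h1 h2 y hy
  obtain ⟨x, hx, rfl⟩ := mem_image.1 hy
  rw [sum_image hinj] at h1 h2
  have key := hA (fun z => c (φ z) * ε z) (by
    have : ∑ a ∈ A, |c (φ a) * ε a| = ∑ a ∈ A, |c (φ a)| :=
      sum_congr rfl (fun a ha => by rw [abs_mul, hε a ha, mul_one])
    rw [this]
    exact h1) (by
    have h3 : u * ∑ a ∈ A, (c (φ a) * ε a) • a = 0 := by
      rw [mul_sum, ← h2]
      apply sum_congr rfl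
      intro a ha
      rw [hφ a ha, zsmul_eq_mul, zsmul_eq_mul, zsmul_eq_mul]
      push_cast
      ring
    exact (hu.mul_right_eq_zero).1 h3) x hx
  have hεx : ε x ≠ 0 := by
    intro h
    have := hε x hx
    rw [h, abs_zero] at this
    exact zero_ne_one this
  exact (mul_eq_zero.1 key).resolve_right hεx

/-- No `4`-independent set of size `k + 1` modulo a prime `p` if the search from `{1}` fails. -/
theorem no_indep {p : ℕ} [Fact p.Prime] (hp2 : p ≠ 2) (k : ℕ)
    (hs : search p k ((p - 3) / 2 + 1) ((⟨1, 1, 1⟩ : Masks).add p 1) 2 = true)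
    (A : Finset (ZMod p)) (hA : Indep 4 A) : A.card ≤ k := by
  classical
  have hpp : p.Prime := Fact.out
  have hp3 : 3 ≤ p := by
    have := hpp.two_le
    omega
  have hodd : p % 2 = 1 := (hpp.eq_two_or_odd).resolve_left hp2
  by_contra hcon
  push Not at hcon
  obtain ⟨A', hA'A, hA'card⟩ := exists_subset_card_eq (show k + 1 ≤ A.card by omega)
  have hA' : Indep 4 A' := indep_subset hA'A hA
  obtain ⟨a, ha⟩ : A'.Nonempty := by rw [← card_pos]; omega
  have h0 : (0 : ZMod p) ∉ A' := by
    intro h0
    have key := hA' (fun z => if z = 0 then 1 else 0) (by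
      have : ∑ z ∈ A', |if z = 0 then (1 : ℤ) else 0| = ∑ z ∈ A', if z = 0 then (1 : ℤ) else 0 :=
        sum_congr rfl (fun z _ => by split_ifs <;> simp)
      rw [this, sum_ite_eq' A' 0, if_pos h0]
      norm_num) (by
      apply sum_eq_zero
      intro z _
      split_ifs with h
      · rw [h, smul_zero]
      · exact zero_zsmul z) 0 h0
    simp at key
  have ha0 : a ≠ 0 := fun h => h0 (h ▸ ha)
  set u : ZMod p := a⁻¹ with hu
  have hunit : IsUnit u := (IsUnit.mk0 a ha0).inv
  -- absolute values
  set N : ZMod p → ℕ := fun x => (u * x).valMinAbs.natAbs with hN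
  set φ : ZMod p → ZMod p := fun x => ((N x : ℕ) : ZMod p) with hφdef
  set ε : ZMod p → ℤ := fun x => if 0 ≤ (u * x).valMinAbs then 1 else -1 with hεdef
  have hφ : ∀ x : ZMod p, φ x = ε x • (u * x) := by
    intro x
    have h1 : (((u * x).valMinAbs : ℤ) : ZMod p) = u * x := ZMod.coe_valMinAbs _
    simp only [hφdef, hN, hεdef]
    split_ifs with h
    · rw [one_zsmul, ← h1]
      have : (((u * x).valMinAbs.natAbs : ℕ) : ℤ) = (u * x).valMinAbs := Int.natAbs_of_nonneg h
      conv_rhs => rw [← this]
      rw [ZMod.coe_valMinAbs]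
      simp
    · push Not at h
      have : (((u * x).valMinAbs.natAbs : ℕ) : ℤ) = -(u * x).valMinAbs := by omega
      rw [neg_one_zsmul]
      nth_rw 2 [← h1]
      rw [← Int.cast_neg, ← this]
      simp
  have hε : ∀ x : ZMod p, |ε x| = 1 := by
    intro x
    simp only [hεdef]
    split_ifs <;> simp
  have hNlt : ∀ x : ZMod p, N x ≤ p / 2 := fun x => ZMod.natAbs_valMinAbs_le _
  -- injectivity on `A'`
  have hNinj : Set.InjOn N (A' : Set (ZMod p)) := by
    intro x hx y hy hxy
    by_contra hne
    have hfe : φ x = φ y := by simp only [hφdef]; rw [hxy]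
    rw [hφ, hφ] at hfe
    have hrel : ε x • x + (-ε y) • y = 0 := by
      have h3 : u * (ε x • x + (-ε y) • y) = 0 := by
        have : u * (ε x • x + (-ε y) • y) = ε x • (u * x) - ε y • (u * y) := by
          simp only [zsmul_eq_mul]
          push_cast
          ring
        rw [this, hfe, sub_self]
      exact (hunit.mul_right_eq_zero).1 h3
    have hx' : x ∈ A' := mem_coe.1 hx
    have hy' : y ∈ A' := mem_coe.1 hy
    have e1 : ∀ z ∈ A', |(if z = x then ε x else 0) + (if z = y then -ε y else 0)| =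
        (if z = x then 1 else 0) + (if z = y then 1 else 0) := by
      intro z _
      by_cases hz : z = x
      · have hzy : z ≠ y := fun h => hne (hz.symm.trans h)
        rw [if_pos hz, if_pos hz, if_neg hzy, if_neg hzy, add_zero, add_zero, hε]
      · rw [if_neg hz, if_neg hz, zero_add, zero_add]
        by_cases hzy : z = y
        · rw [if_pos hzy, if_pos hzy, abs_neg, hε]
        · rw [if_neg hzy, if_neg hzy, abs_zero]
    have e2 : ∀ z ∈ A', ((if z = x then ε x else 0) + (if z = y then -ε y else 0)) • z =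
        (if z = x then ε x • z else 0) + (if z = y then (-ε y) • z else 0) := by
      intro z _
      rw [add_zsmul]
      split_ifs <;> simp
    have key := hA' (fun z => (if z = x then ε x else 0) + (if z = y then -ε y else 0)) (by
      rw [sum_congr rfl e1, sum_add_distrib, sum_ite_eq' A' x, sum_ite_eq' A' y, if_pos hx',
        if_pos hy']
      norm_num) (by
      rw [sum_congr rfl e2, sum_add_distrib, sum_ite_eq' A' x, sum_ite_eq' A' y, if_pos hx',
        if_pos hy']
      exact hrel) x hx'
    simp only [if_true, if_neg hne, add_zero] at key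
    have := hε x
    rw [key, abs_zero] at this
    exact zero_ne_one this
  have hφinj : Set.InjOn φ (A' : Set (ZMod p)) := by
    intro x hx y hy hxy
    apply hNinj hx hy
    simp only [hφdef] at hxy
    have h1 := hNlt x
    have h2 := hNlt y
    rw [ZMod.natCast_eq_natCast_iff', Nat.mod_eq_of_lt (by omega), Nat.mod_eq_of_lt (by omega)]
      at hxy
    exact hxy
  have hI := indep_image hA' u hunit φ ε (fun x _ => hε x) (fun x _ => hφ x) hφinj
  -- the set of absolute values
  set B := A'.image N with hB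
  have hBcard : B.card = k + 1 := by rw [hB, card_image_of_injOn hNinj, hA'card]
  have hNa : N a = 1 := by
    have h1 : u * a = 1 := inv_mul_cancel₀ ha0
    simp only [hN, h1]
    have : Fact (1 < p) := ⟨by omega⟩
    have h2 : (1 : ZMod p).valMinAbs = 1 := by
      have := ZMod.valMinAbs_natCast_of_le_half (n := p) (a := 1) (by omega)
      rwa [Nat.cast_one, Nat.cast_one] at this
    rw [h2]
    rfl
  have h1B : 1 ∈ B := by rw [hB, ← hNa]; exact mem_image_of_mem N ha
  have hNpos : ∀ x ∈ A', 1 ≤ N x := by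
    intro x hx
    by_contra hlt
    have h1 : N x = 0 := by omega
    simp only [hN] at h1
    rw [Int.natAbs_eq_zero, ZMod.valMinAbs_eq_zero] at h1
    have h2 : x = 0 := (hunit.mul_right_eq_zero).1 h1
    exact h0 (h2 ▸ hx)
  have hgood : ((⟨1, 1, 1⟩ : Masks).add p 1).Good p ({((1 : ℕ) : ZMod p)} : Finset (ZMod p)) := by
    have hbase : (⟨1, 1, 1⟩ : Masks).Good p (∅ : Finset (ZMod p)) := by
      have h1 : ∀ w, Sound p 1 (Rep (∅ : Finset (ZMod p)) w) := by
        intro w i hi
        rw [Nat.testBit_one_eq_true_iff_self_eq_zero] at hi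
        rw [hi, Nat.cast_zero]
        exact rep_zero _ w
      exact ⟨h1 1, h1 2, h1 3⟩
    have := good_add hbase (y := 1) (notMem_empty _)
    rwa [insert_empty_eq] at this
  refine search_sound ((p - 3) / 2 + 1) k _ 2 _ hgood hs (B.erase 1) ?_ ?_ (by omega) ?_ ?_
  · intro b hb
    rw [mem_erase, hB, mem_image] at hb
    obtain ⟨hb1, x, hx, rfl⟩ := hb
    have h1 := hNpos x hx
    have h2 := hNlt x
    rw [mem_Ico]
    omega
  · rw [card_erase_of_mem h1B, hBcard]
    rfl
  · intro b hb hcon
    rw [mem_erase, hB, mem_image] at hb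
    obtain ⟨hb1, x, hx, rfl⟩ := hb
    have h2 := hNlt x
    rw [mem_singleton, ZMod.natCast_eq_natCast_iff', Nat.mod_eq_of_lt (by omega),
      Nat.mod_eq_of_lt (by omega)] at hcon
    exact hb1 hcon
  · refine indep_subset ?_ hI
    intro z hz
    rw [mem_union, mem_singleton, mem_image] at hz
    rcases hz with rfl | ⟨b, hb, rfl⟩
    · rw [mem_image]
      exact ⟨a, ha, by simp only [hφdef]; rw [hNa]⟩
    · rw [mem_erase, hB, mem_image] at hb
      obtain ⟨_, x, hx, rfl⟩ := hb
      exact mem_image_of_mem φ hx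

end Pool.Agent.X7.IndepSearch
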