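import Mathlib
open Finset

namespace Pool.Agent.X7.CDP

lemma pairs_eq_twice {W : Type*} [Fintype W] [DecidableEq W] (H : SimpleGraph W) [DecidableRel H.Adj] :
    #(univ.filter (fun p : W × W => H.Adj p.1 p.2)) = 2 * #H.edgeFinset := by
  rw [← H.sum_degrees_eq_twice_card_edges, Finset.card_filter, Fintype.sum_prod_type]
  refine Finset.sum_congr rfl fun x _ => ?_
  rw [← SimpleGraph.card_neighborFinset_eq_degree, SimpleGraph.neighborFinset_eq_filter,
    Finset.card_filter]

lemma turan_pairs {N m : ℕ} (hm : 1 ≤ m) (H : SimpleGraph (Fin N)) [DecidableRel H.Adj]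
    (hind : ∀ X : Finset (Fin N), #X = m + 1 → ∃ x ∈ X, ∃ y ∈ X, H.Adj x y) :
    N ^ 2 ≤ m * (#(univ.filter (fun p : Fin N × Fin N => H.Adj p.1 p.2)) + N) := by
  have cf : Hᶜ.CliqueFree (m + 1) := by
    intro X hX
    obtain ⟨x, hx, y, hy, hxy⟩ := hind X hX.card_eq
    have h1 := hX.isClique hx hy hxy.ne
    exact ((SimpleGraph.compl_adj _ _ _).1 h1).2 hxy
  have h1 := cf.card_edgeFinset_le
  simp only [Fintype.card_fin] at h1
  rw [← SimpleGraph.card_edgeFinset_turanGraph] at h1
  have h2 := SimpleGraph.mul_card_edgeFinset_turanGraph_le (n := N) (r := m)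
  have h3 : 2 * m * #Hᶜ.edgeFinset ≤ (m - 1) * N ^ 2 := le_trans (by gcongr) h2
  have h4 : #(univ.filter (fun p : Fin N × Fin N => H.Adj p.1 p.2))
      + #(univ.filter (fun p : Fin N × Fin N => Hᶜ.Adj p.1 p.2)) + N = N ^ 2 := by
    have e1 : (univ : Finset (Fin N × Fin N)) =
        (univ.filter (fun p : Fin N × Fin N => H.Adj p.1 p.2)) ∪
        (univ.filter (fun p : Fin N × Fin N => Hᶜ.Adj p.1 p.2)) ∪
        (univ.filter (fun p : Fin N × Fin N => p.1 = p.2)) := by
      ext p
      simp only [mem_univ, mem_union, mem_filter, true_and, SimpleGraph.compl_adj, true_iff]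
      by_cases h : p.1 = p.2
      · exact Or.inr h
      · by_cases h' : H.Adj p.1 p.2
        · exact Or.inl (Or.inl h')
        · exact Or.inl (Or.inr ⟨h, h'⟩)
    have e2 : #(univ : Finset (Fin N × Fin N)) = N ^ 2 := by
      simp [sq]
    have e3 : #(univ.filter (fun p : Fin N × Fin N => p.1 = p.2)) = N := by
      have : (univ.filter (fun p : Fin N × Fin N => p.1 = p.2)) = univ.image (fun i : Fin N => (i, i)) := by
        ext p
        simp only [mem_filter, mem_univ, true_and, mem_image]
        constructor
        · intro h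
          exact ⟨p.1, Prod.ext rfl h⟩
        · rintro ⟨i, rfl⟩
          rfl
      rw [this, Finset.card_image_of_injective _ (fun a b h => (Prod.mk.inj h).1)]
      simp
    have d1 : Disjoint (univ.filter (fun p : Fin N × Fin N => H.Adj p.1 p.2))
        (univ.filter (fun p : Fin N × Fin N => Hᶜ.Adj p.1 p.2)) := by
      rw [Finset.disjoint_left]
      intro p hp hq
      simp only [mem_filter, mem_univ, true_and, SimpleGraph.compl_adj] at hp hq
      exact hq.2 hp
    have d2 : Disjoint ((univ.filter (fun p : Fin N × Fin N => H.Adj p.1 p.2)) ∪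
        (univ.filter (fun p : Fin N × Fin N => Hᶜ.Adj p.1 p.2)))
        (univ.filter (fun p : Fin N × Fin N => p.1 = p.2)) := by
      rw [Finset.disjoint_left]
      intro p hp hq
      simp only [mem_union, mem_filter, mem_univ, true_and, SimpleGraph.compl_adj] at hp hq
      rcases hp with hp | hp
      · exact hp.ne hq
      · exact hp.1 hq
    have e4 := congrArg Finset.card e1
    rw [card_union_of_disjoint d2, card_union_of_disjoint d1, e3, e2] at e4
    exact e4.symm
  have h5 := pairs_eq_twice Hᶜ
  obtain ⟨m', rfl⟩ : ∃ m', m = m' + 1 := ⟨m - 1, by omega⟩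
  simp only [Nat.add_sub_cancel] at h3
  nlinarith

lemma chain {n k : ℕ} (d : Fin n → ℕ) (Y : Finset (Fin n)) :
    (∀ x ∈ Y, ∀ y ∈ Y, x < y → d y + k ≤ d x) → ∀ hne : Y.Nonempty,
    d (Y.max' hne) + (#Y - 1) * k ≤ d (Y.min' hne) := by
  induction Y using Finset.induction_on_max with
  | empty => intro _ hne; exact absurd hne (by simp)
  | insert a s ha ih =>
    intro hY hne
    rcases s.eq_empty_or_nonempty with rfl | hs
    · simp
    · have hnot : a ∉ s := fun h => lt_irrefl _ (ha a h)
      have ih' := ih (fun x hx y hy => hY x (mem_insert_of_mem hx) y (mem_insert_of_mem hy)) hs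
      have hmax : (insert a s).max' hne = a := by
        apply le_antisymm
        · apply Finset.max'_le
          intro y hy
          rcases mem_insert.1 hy with rfl | hy
          · exact le_rfl
          · exact (ha y hy).le
        · exact Finset.le_max' _ _ (mem_insert_self _ _)
      have hmin : (insert a s).min' hne = s.min' hs := by
        apply le_antisymm
        · exact Finset.min'_le _ _ (mem_insert_of_mem (s.min'_mem hs))
        · apply Finset.le_min'
          intro y hy
          rcases mem_insert.1 hy with rfl | hy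
          · exact (ha _ (s.min'_mem hs)).le
          · exact Finset.min'_le _ _ hy
      rw [hmax, hmin, card_insert_of_notMem hnot]
      have h1 := hY (s.max' hs) (mem_insert_of_mem (s.max'_mem hs)) a (mem_insert_self _ _)
        (ha _ (s.max'_mem hs))
      have hc : 1 ≤ #s := hs.card_pos
      obtain ⟨c, hc'⟩ : ∃ c, #s = c + 1 := ⟨#s - 1, by omega⟩
      rw [hc'] at ih' ⊢
      simp only [Nat.add_sub_cancel] at ih' ⊢
      nlinarith

/-- distinct indices whose values differ by less than `k` -/
def near {n : ℕ} (d : Fin n → ℕ) (k : ℕ) (i j : Fin n) : Prop :=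
  i ≠ j ∧ |(d i : ℤ) - d j| < k

lemma near_symm {n : ℕ} {d : Fin n → ℕ} {k : ℕ} {i j : Fin n} (h : near d k i j) : near d k j i :=
  ⟨h.1.symm, by rw [abs_sub_comm]; exact h.2⟩

lemma far_of_not_near {n : ℕ} {d : Fin n → ℕ} {k : ℕ} {i j : Fin n} (hd : d j ≤ d i) (hij : i ≠ j)
    (h : ¬ near d k i j) : d j + k ≤ d i := by
  by_contra hc
  apply h
  refine ⟨hij, ?_⟩
  rw [abs_lt]
  constructor <;> omega

lemma card_initial {n a : ℕ} (ha : a ≤ n) :
    #(univ.filter (fun i : Fin n => i.val < a)) = a := by
  have : (univ.filter (fun i : Fin n => i.val < a)) = univ.image (Fin.castLE ha) := by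
    ext i
    simp only [mem_filter, mem_univ, true_and, mem_image]
    constructor
    · intro h
      exact ⟨⟨i.val, h⟩, Fin.ext rfl⟩
    · rintro ⟨j, rfl⟩
      exact j.2
  rw [this, card_image_of_injective _ (Fin.castLE_injective ha)]
  simp

open Classical in
/-- splitting off a clique on the first `a` indices -/
lemma split_count {n a k : ℕ} (ha : a ≤ n) (d : Fin n → ℕ)
    (hT : ∀ i j : Fin n, i.val < a → j.val < a → i ≠ j → near d k i j) :
    a * a - a + #(univ.filter (fun p : Fin n × Fin n => near d k p.1 p.2 ∧ ¬(p.1.val < a ∧ p.2.val < a)))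
      ≤ #(univ.filter (fun p : Fin n × Fin n => near d k p.1 p.2)) := by
  have h1 : (univ.filter (fun i : Fin n => i.val < a)).offDiag ∪
      (univ.filter (fun p : Fin n × Fin n => near d k p.1 p.2 ∧ ¬(p.1.val < a ∧ p.2.val < a))) ⊆
      (univ.filter (fun p : Fin n × Fin n => near d k p.1 p.2)) := by
    intro p hp
    simp only [mem_union, mem_offDiag, mem_filter, mem_univ, true_and] at hp ⊢
    rcases hp with ⟨h1, h2, h3⟩ | ⟨h1, _⟩
    · exact hT _ _ h1 h2 h3
    · exact h1
  have h2 : Disjoint ((univ.filter (fun i : Fin n => i.val < a)).offDiag)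
      (univ.filter (fun p : Fin n × Fin n => near d k p.1 p.2 ∧ ¬(p.1.val < a ∧ p.2.val < a))) := by
    rw [Finset.disjoint_left]
    intro p hp hq
    simp only [mem_offDiag, mem_filter, mem_univ, true_and] at hp hq
    exact hq.2 ⟨hp.1, hp.2.1⟩
  have h3 := card_le_card h1
  rw [card_union_of_disjoint h2, offDiag_card, card_initial ha] at h3
  exact h3

open Classical in
theorem core {n k m t : ℕ} (hk : 1 ≤ k) (ht1 : 1 ≤ t) (htk : t ≤ k) (hm : 1 ≤ m)
    (hn : n = m * k + t) (d : Fin n → ℕ) (hd : Antitone d)
    (ha : ∀ i j, d i < d j + (m + 1) * k)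
    (hb : ∀ i j : Fin n, i.val = t - 1 → j.val = n - t → d i < d j + m * k) :
    (t - 1) * (t - 1) - (t - 1) + m * (k * (k - 1)) + 2 * k ≤
      #(univ.filter (fun p : Fin n × Fin n => near d k p.1 p.2)) := by
  have hmk : k ≤ m * k := Nat.le_mul_of_pos_left k hm
  have hn2 : 2 * t ≤ n := by omega
  by_cases hT : ∀ i j : Fin n, i.val < t - 1 → j.val < t - 1 → i ≠ j → near d k i j
  · -- clique case
    have hs := split_count (a := t - 1) (by omega) d hT
    set N := m * k + 1 with hN
    let e : Fin N → Fin n := fun i => ⟨i.val + (t - 1), by have := i.2; omega⟩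
    let φ : Fin n → Fin N := fun x =>
      if h : x.val < t - 1 then ⟨(n - 1 - x.val) - (t - 1), by omega⟩ else ⟨x.val - (t - 1), by have := x.2; omega⟩
    have hφe : ∀ i, φ (e i) = i := by
      intro i
      have : ¬ ((e i).val < t - 1) := by simp [e]
      simp only [φ, this, dif_neg, not_false_eq_true]
      apply Fin.ext
      simp [e]
    let H : SimpleGraph (Fin N) :=
      { Adj := fun i j => i ≠ j ∧ ∃ x y, near d k x y ∧ ¬(x.val < t - 1 ∧ y.val < t - 1) ∧ φ x = i ∧ φ y = j
        symm := ⟨by
          rintro i j ⟨h, x, y, h1, h2, h3, h4⟩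
          exact ⟨h.symm, y, x, near_symm h1, fun h => h2 ⟨h.2, h.1⟩, h4, h3⟩⟩
        loopless := ⟨fun i h => h.1 rfl⟩ }
    have hcount : #(univ.filter (fun p : Fin N × Fin N => H.Adj p.1 p.2)) ≤
        #(univ.filter (fun p : Fin n × Fin n => near d k p.1 p.2 ∧ ¬(p.1.val < t - 1 ∧ p.2.val < t - 1))) := by
      have : (univ.filter (fun p : Fin N × Fin N => H.Adj p.1 p.2)) ⊆
          (univ.filter (fun p : Fin n × Fin n => near d k p.1 p.2 ∧ ¬(p.1.val < t - 1 ∧ p.2.val < t - 1))).image
            (fun p => (φ p.1, φ p.2)) := by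
        intro p hp
        simp only [mem_filter, mem_univ, true_and] at hp
        obtain ⟨_, x, y, h1, h2, h3, h4⟩ := hp
        simp only [mem_image, mem_filter, mem_univ, true_and]
        exact ⟨(x, y), ⟨h1, h2⟩, Prod.ext h3 h4⟩
      exact le_trans (card_le_card this) card_image_le
    have hind : ∀ X : Finset (Fin N), #X = m + 1 → ∃ x ∈ X, ∃ y ∈ X, H.Adj x y := by
      intro X hX
      by_contra hcon
      push Not at hcon
      have hfar : ∀ x ∈ X, ∀ y ∈ X, x < y → (d ∘ e) y + k ≤ (d ∘ e) x := by
        intro x hx y hy hxy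
        have hlt : e x < e y := by
          rw [Fin.lt_def] at hxy ⊢
          simp only [e]
          omega
        refine far_of_not_near (d := d) (i := e x) (j := e y) (hd hlt.le) hlt.ne ?_
        intro hnear
        refine hcon x hx y hy ⟨hxy.ne, e x, e y, hnear, ?_, hφe x, hφe y⟩
        rintro ⟨h1, _⟩
        simp [e] at h1
      have hne : X.Nonempty := by
        rw [← card_pos]; omega
      have hch := chain (k := k) (d ∘ e) X hfar hne
      rw [hX] at hch
      simp only [Nat.add_sub_cancel, Function.comp] at hch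
      set z := X.max' hne with hz
      set w := X.min' hne with hw
      have hwz : w < z := by
        apply Finset.min'_lt_max'_of_card
        omega
      by_cases hcase : (e z).val ≤ n - t
      · have h1 := hb ⟨t - 1, by omega⟩ ⟨n - t, by omega⟩ rfl rfl
        have h2 : d (e w) ≤ d ⟨t - 1, by omega⟩ := hd (by rw [Fin.le_def]; simp [e])
        have h3 : d ⟨n - t, by omega⟩ ≤ d (e z) := hd (by rw [Fin.le_def]; exact hcase)
        omega
      · have hza : n - 1 - (e z).val < t - 1 := by omega
        set a : Fin n := ⟨n - 1 - (e z).val, by omega⟩ with haa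
        have hφa : φ a = z := by
          have : a.val < t - 1 := hza
          simp only [φ, this, dif_pos]
          apply Fin.ext
          simp only [haa]
          have h1 : (e z).val = z.val + (t - 1) := rfl
          have h2 := (e z).2
          omega
        have haw : ¬ near d k a (e w) := by
          intro hnear
          refine hcon z (X.max'_mem hne) w (X.min'_mem hne) ⟨hwz.ne', a, e w, hnear, ?_, hφa, hφe w⟩
          rintro ⟨_, h1⟩
          simp [e] at h1
        have hlt : a < e w := by
          rw [Fin.lt_def]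
          have h1 : (e w).val = w.val + (t - 1) := rfl
          have h2 : a.val < t - 1 := hza
          omega
        have h4 := far_of_not_near (hd hlt.le) hlt.ne haw
        have h5 := ha a (e z)
        have h6 : (m + 1) * k = m * k + k := by ring
        omega
    have hT2 := turan_pairs hm H hind
    have hfin : m * (k * (k - 1)) + 2 * k ≤ #(univ.filter (fun p : Fin N × Fin N => H.Adj p.1 p.2)) := by
      obtain ⟨k', rfl⟩ : ∃ k', k = k' + 1 := ⟨k - 1, by omega⟩
      simp only [Nat.add_sub_cancel]
      by_contra hlt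
      push Not at hlt
      have h7 : #(univ.filter (fun p : Fin N × Fin N => H.Adj p.1 p.2)) + 1 ≤
        m * ((k' + 1) * k') + 2 * (k' + 1) := hlt
      have h8 : m * (#(univ.filter (fun p : Fin N × Fin N => H.Adj p.1 p.2)) + 1 + N) ≤
        m * (m * ((k' + 1) * k') + 2 * (k' + 1) + N) := by gcongr
      generalize #(univ.filter (fun p : Fin N × Fin N => H.Adj p.1 p.2)) = Q at h8 hT2
      rw [hN] at h8 hT2
      linarith
    omega
  · -- non-clique case
    push Not at hT
    obtain ⟨i, j, hi, hj, hij, hnot⟩ := hT
    have hn0 : 0 < n := by omega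
    set z0 : Fin n := ⟨0, hn0⟩ with hz0
    have hex : ∃ a, ∃ h : a < n, d ⟨a, h⟩ + k ≤ d z0 := by
      rcases lt_or_gt_of_ne hij with h | h
      · refine ⟨j.val, j.2, ?_⟩
        have h1 := far_of_not_near (hd h.le) hij hnot
        have h2 : d i ≤ d z0 := hd (by rw [Fin.le_def]; simp [hz0])
        simp only [Fin.eta]
        omega
      · refine ⟨i.val, i.2, ?_⟩
        have h1 := far_of_not_near (hd h.le) hij.symm (fun hh => hnot (near_symm hh))
        have h2 : d j ≤ d z0 := hd (by rw [Fin.le_def]; simp [hz0])
        simp only [Fin.eta]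
        omega
    obtain ⟨a, ha1, ha2, hamin, hat⟩ : ∃ a, ∃ h : a < n, d ⟨a, h⟩ + k ≤ d z0 ∧
        (∀ b, b < a → ∀ h : b < n, d z0 < d ⟨b, h⟩ + k) ∧ a < t - 1 := by
      obtain ⟨ha1, ha2⟩ := Nat.find_spec hex
      refine ⟨Nat.find hex, ha1, ha2, ?_, ?_⟩
      · intro b hb' h
        have := Nat.find_min hex hb'
        push Not at this
        exact this h
      · rcases lt_or_gt_of_ne hij with h | h
        · refine lt_of_le_of_lt (Nat.find_min' hex ⟨j.2, ?_⟩) hj
          have h1 := far_of_not_near (hd h.le) hij hnot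
          have h2 : d i ≤ d z0 := hd (by rw [Fin.le_def]; simp [hz0])
          simp only [Fin.eta]
          omega
        · refine lt_of_le_of_lt (Nat.find_min' hex ⟨i.2, ?_⟩) hi
          have h1 := far_of_not_near (hd h.le) hij.symm (fun hh => hnot (near_symm hh))
          have h2 : d j ≤ d z0 := hd (by rw [Fin.le_def]; simp [hz0])
          simp only [Fin.eta]
          omega
    have hcl : ∀ i j : Fin n, i.val < a → j.val < a → i ≠ j → near d k i j := by
      intro i j hi hj hij
      refine ⟨hij, ?_⟩
      have h1 := hamin i.val hi i.2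
      have h2 := hamin j.val hj j.2
      have h3 : d i ≤ d z0 := hd (by rw [Fin.le_def]; simp [hz0])
      have h4 : d j ≤ d z0 := hd (by rw [Fin.le_def]; simp [hz0])
      simp only [Fin.eta] at h1 h2
      rw [abs_lt]
      constructor <;> omega
    have hs := split_count (a := a) (by omega) d hcl
    set N := n - a with hN
    let e : Fin N → Fin n := fun i => ⟨i.val + a, by have := i.2; omega⟩
    have heinj : Function.Injective e := by
      intro x y hxy
      have := congrArg Fin.val hxy
      simp only [e] at this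
      exact Fin.ext (by omega)
    let H : SimpleGraph (Fin N) :=
      { Adj := fun i j => near d k (e i) (e j)
        symm := ⟨fun i j h => near_symm h⟩
        loopless := ⟨fun i h => h.1 rfl⟩ }
    have hcount : #(univ.filter (fun p : Fin N × Fin N => H.Adj p.1 p.2)) ≤
        #(univ.filter (fun p : Fin n × Fin n => near d k p.1 p.2 ∧ ¬(p.1.val < a ∧ p.2.val < a))) := by
      refine card_le_card_of_injOn (fun p => (e p.1, e p.2)) ?_ ?_
      · intro p hp
        simp only [coe_filter, mem_univ, true_and, Set.mem_ofPred_eq] at hp ⊢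
        refine ⟨hp, ?_⟩
        rintro ⟨h1, _⟩
        simp [e] at h1
      · intro p _ q _ h
        simp only [Prod.mk.injEq] at h
        exact Prod.ext (heinj h.1) (heinj h.2)
    have hind : ∀ X : Finset (Fin N), #X = m + 1 → ∃ x ∈ X, ∃ y ∈ X, H.Adj x y := by
      intro X hX
      by_contra hcon
      push Not at hcon
      have hfar : ∀ x ∈ X, ∀ y ∈ X, x < y → (d ∘ e) y + k ≤ (d ∘ e) x := by
        intro x hx y hy hxy
        have hlt : e x < e y := by
          rw [Fin.lt_def] at hxy ⊢
          simp only [e]
          omega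
        exact far_of_not_near (d := d) (i := e x) (j := e y) (hd hlt.le) hlt.ne (hcon x hx y hy)
      have hne : X.Nonempty := by
        rw [← card_pos]; omega
      have hch := chain (k := k) (d ∘ e) X hfar hne
      rw [hX] at hch
      simp only [Nat.add_sub_cancel, Function.comp] at hch
      set z := X.max' hne with hz
      set w := X.min' hne with hw
      have h1 : d (e w) ≤ d ⟨a, ha1⟩ := hd (by rw [Fin.le_def]; simp [e])
      have h5 := ha z0 (e z)
      have h6 : (m + 1) * k = m * k + k := by ring
      omega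
    have hT2 := turan_pairs hm H hind
    -- arithmetic
    set P := #(univ.filter (fun p : Fin N × Fin N => H.Adj p.1 p.2)) with hP
    obtain ⟨c, hc⟩ : ∃ c, t - 1 = a + c := ⟨t - 1 - a, by omega⟩
    obtain ⟨g, hg⟩ : ∃ g, k = a + c + 1 + g := ⟨k - (a + c + 1), by omega⟩
    have hNN : N = m * k + 1 + c := by omega
    have key : (a + c) * (a + c) - (a + c) + m * (k * (k - 1)) + 2 * k ≤ a * a - a + P := by
      have e1 : a * a - a = a * (a - 1) := by rw [Nat.mul_sub, mul_one]
      have ha0 : 1 ≤ a := by
        by_contra hcon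
        have : a = 0 := by omega
        have h9 : d (⟨a, ha1⟩ : Fin n) = d z0 := by
          congr 1
          exact Fin.ext this
        rw [h9] at ha2
        omega
      obtain ⟨a', ha'⟩ : ∃ a', a = a' + 1 := ⟨a - 1, by omega⟩
      have e2 : (a + c) * (a + c) - (a + c) = (a' + 1 + c) * (a' + c) := by
        rw [ha']
        have : (a' + 1 + c) * (a' + 1 + c) = (a' + 1 + c) * (a' + c) + (a' + 1 + c) := by ring
        omega
      have e3 : a * a - a = (a' + 1) * a' := by
        rw [ha']
        have : (a' + 1) * (a' + 1) = (a' + 1) * a' + (a' + 1) := by ring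
        omega
      have e4 : k - 1 = a' + 1 + c + g := by omega
      rw [e2, e3, e4]
      by_contra hlt
      push Not at hlt
      have h7 : (a' + 1) * a' + P + 1 ≤ (a' + 1 + c) * (a' + c) + m * (k * (a' + 1 + c + g)) + 2 * k := hlt
      have h8 : m * ((a' + 1) * a' + P + 1) ≤
        m * ((a' + 1 + c) * (a' + c) + m * (k * (a' + 1 + c + g)) + 2 * k) := by gcongr
      have hk' : k = a' + 1 + c + 1 + g := by omega
      generalize P = Q at h8 hT2
      generalize N = M at hT2 hNN
      subst hNN
      subst hk'
      linarith [Nat.zero_le (m * c * c), Nat.zero_le (m * c), Nat.zero_le (m * c * g), Nat.zero_le (c * c)]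
    rw [hc]
    omega

end Pool.Agent.X7.CDP
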