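import Mathlib
import Pool.Agent.Helper591.CyclicZero
import Pool.Agent.X7.KneserTools

/-!
Tools for sumsets in cyclic groups: intervals, run counting, reduction modulo the stabilizer.
-/

set_option autoImplicit false
set_option linter.unusedSectionVars false

open Finset
open scoped Pointwise

namespace Pool.Agent.X7.CyclicTools

open Pool.Agent.Helper591.Kneser Pool.Agent.X7.KneserTools

section general

variable {G : Type*} [AddCommGroup G] [Fintype G] [DecidableEq G]

theorem stab_le_left {X Y : Finset G} (h : stab (X + Y) = ⊥) : stab X = ⊥ := by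
  rw [← le_bot_iff, ← h]
  exact stab_le_stab_add X Y

theorem stab_le_right {X Y : Finset G} (h : stab (X + Y) = ⊥) : stab Y = ⊥ := by
  rw [add_comm] at h
  exact stab_le_left h

theorem stab_neg (X : Finset G) : stab (-X) = stab X := by
  have key : ∀ X : Finset G, stab X ≤ stab (-X) := by
    intro X g hg
    apply mem_stab_of_forall
    intro x hx
    rw [mem_neg'] at hx ⊢
    have h1 : -(g + x) = -g + -x := by abel
    rw [h1]
    exact (((stab X).neg_mem hg) (-x)).2 hx
  apply le_antisymm _ (key X)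
  have := key (-X)
  rwa [neg_neg] at this

theorem kneser_aper {X Y : Finset G} (hX : X.Nonempty) (hY : Y.Nonempty) (h : stab (X + Y) = ⊥) :
    X.card + Y.card ≤ (X + Y).card + 1 := by
  have := kneser hX hY
  rwa [h, card_els_bot] at this

theorem sm_add_distrib (j : ℕ) (X Y : Finset G) : sm j (X + Y) = sm j X + sm j Y := by
  induction j with
  | zero => rw [sm_zero, sm_zero, sm_zero, singleton_add_singleton, add_zero]
  | succ j ih => rw [sm_succ, sm_succ, sm_succ, ih, add_add_add_comm]

theorem stab_sm_bot {j : ℕ} {X : Finset G} (hj : 1 ≤ j) (h : stab (sm j X) = ⊥) : stab X = ⊥ := by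
  rw [← le_bot_iff, ← h]
  have := stab_sm_mono hj X
  rwa [sm_one] at this

/-- lower bound for `jX` when aperiodic, also for `j = 0`. -/
theorem sm_card_lower {X : Finset G} (hX : X.Nonempty) (j : ℕ) (h : stab (sm j X) = ⊥) :
    j * X.card + 1 ≤ (sm j X).card + j := by
  rcases Nat.eq_zero_or_pos j with rfl | hj
  · rw [sm_zero, card_singleton]; omega
  · exact kneser_sm hX j hj h

end general

section cyclic

/-- The interval `{x, x+1, …, x+len-1}` in `ℤ/n`. -/
def iv {n : ℕ} (x : ZMod n) (len : ℕ) : Finset (ZMod n) :=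
  (range len).image (fun i : ℕ => x + (i : ZMod n))

theorem mem_iv {n : ℕ} {x : ZMod n} {len : ℕ} {y : ZMod n} :
    y ∈ iv x len ↔ ∃ i : ℕ, i < len ∧ x + (i : ZMod n) = y := by
  unfold iv
  simp only [mem_image, mem_range]

theorem iv_nonempty {n : ℕ} (x : ZMod n) {len : ℕ} (h : 1 ≤ len) : (iv x len).Nonempty :=
  ⟨x, mem_iv.2 ⟨0, by omega, by simp⟩⟩

theorem iv_add {n : ℕ} (x y : ZMod n) (p q : ℕ) :
    iv x (p + 1) + iv y (q + 1) = iv (x + y) (p + q + 1) := by
  ext z
  rw [mem_add, mem_iv]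
  constructor
  · rintro ⟨a, ha, b, hb, rfl⟩
    obtain ⟨i, hi, rfl⟩ := mem_iv.1 ha
    obtain ⟨j, hj, rfl⟩ := mem_iv.1 hb
    exact ⟨i + j, by omega, by push_cast; ring⟩
  · rintro ⟨i, hi, rfl⟩
    rcases Nat.lt_or_ge i (p + 1) with h | h
    · exact ⟨x + i, mem_iv.2 ⟨i, h, rfl⟩, y + 0, mem_iv.2 ⟨0, by omega, by simp⟩, by ring⟩
    · refine ⟨x + p, mem_iv.2 ⟨p, by omega, rfl⟩, y + (i - p : ℕ), mem_iv.2 ⟨i - p, by omega, rfl⟩, ?_⟩
      have : (i : ZMod n) = ((p + (i - p) : ℕ) : ZMod n) := by congr 1; omega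
      rw [this]
      push_cast
      ring

theorem sm_iv {n : ℕ} [NeZero n] (x : ZMod n) (p j : ℕ) :
    sm j (iv x (p + 1)) = iv (j • x) (j * p + 1) := by
  induction j with
  | zero =>
    rw [sm_zero]
    ext z
    rw [mem_singleton, mem_iv]
    constructor
    · rintro rfl
      exact ⟨0, by omega, by simp⟩
    · rintro ⟨i, hi, rfl⟩
      have : i = 0 := by omega
      subst this
      simp
  | succ j ih =>
    rw [sm_succ, ih, iv_add, succ_nsmul]
    congr 1
    ring

theorem iv_card_le {n : ℕ} (x : ZMod n) (len : ℕ) : (iv x len).card ≤ len := by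
  unfold iv
  exact card_image_le.trans (card_range len).le

theorem iv_card {n : ℕ} (x : ZMod n) (len : ℕ) (h : len ≤ n) : (iv x len).card = len := by
  unfold iv
  rw [card_image_of_injOn, card_range]
  intro i hi j hj hij
  rw [mem_coe, mem_range] at hi hj
  have h1 : (i : ZMod n) = (j : ZMod n) := add_left_cancel hij
  rw [ZMod.natCast_eq_natCast_iff'] at h1
  rwa [Nat.mod_eq_of_lt (by omega), Nat.mod_eq_of_lt (by omega)] at h1

theorem iv_univ {n : ℕ} [NeZero n] (x : ZMod n) (len : ℕ) (h : n ≤ len) : iv x len = univ := by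
  ext y
  simp only [mem_univ, iff_true]
  rw [mem_iv]
  refine ⟨(y - x).val, lt_of_lt_of_le (ZMod.val_lt _) h, ?_⟩
  rw [ZMod.natCast_zmod_val]
  ring

/-- If only one element of `A + 1` lies outside `A`, then `A` is an interval. -/
theorem interval_of_one_exit {n : ℕ} [NeZero n] (A : Finset (ZMod n)) (b : ZMod n)
    (hbA : b ∉ A) (hexit : ∀ x ∈ A, x + 1 ∉ A → x + 1 = b) :
    ∃ x : ZMod n, A = iv x A.card := by
  have hn : 0 < n := Nat.pos_of_ne_zero (NeZero.ne n)
  -- walking up from `b - i ∈ A`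
  have walk : ∀ i : ℕ, i < n → b - (i : ZMod n) ∈ A → ∀ j : ℕ, 1 ≤ j → j ≤ i →
      b - (j : ZMod n) ∈ A := by
    intro i
    induction i with
    | zero => intro _ _ j h1 h2; omega
    | succ i ih =>
      intro hi hmem j h1 h2
      rcases Nat.lt_or_ge i j with h | h
      · have : j = i + 1 := by omega
        subst this
        exact hmem
      · have hmem' : b - (i : ZMod n) ∈ A := by
          by_contra hcon
          have e1 : b - ((i + 1 : ℕ) : ZMod n) + 1 = b - (i : ZMod n) := by push_cast; ring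
          have h3 := hexit _ hmem (by rw [e1]; exact hcon)
          rw [e1] at h3
          have h4 : (i : ZMod n) = 0 := by
            have := congrArg (fun z => b - z) h3
            simpa using this
          rw [ZMod.natCast_eq_zero_iff] at h4
          have := Nat.le_of_dvd (by omega) h4
          omega
        exact ih (by omega) hmem' j h1 h
  -- `m'` = least `j ≥ 1` with `b - j ∉ A`
  have hex : ∃ j : ℕ, 1 ≤ j ∧ b - (j : ZMod n) ∉ A := by
    refine ⟨n, hn, ?_⟩
    rw [ZMod.natCast_self, sub_zero]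
    exact hbA
  classical
  set m := Nat.find hex with hm
  have hmspec := Nat.find_spec hex
  rw [← hm] at hmspec
  have hmmin : ∀ j, 1 ≤ j → j < m → b - (j : ZMod n) ∈ A := by
    intro j h1 h2
    by_contra hcon
    exact Nat.find_min hex h2 ⟨h1, hcon⟩
  have hmn : m ≤ n := Nat.find_min' hex ⟨hn, by rw [ZMod.natCast_self, sub_zero]; exact hbA⟩
  have hA : A = iv (b - ((m - 1 : ℕ) : ZMod n)) (m - 1) := by
    ext y
    rw [mem_iv]
    constructor
    · intro hy
      -- `y = b - i` with `1 ≤ i < n`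
      set i := (b - y).val with hi
      have hyi : y = b - (i : ZMod n) := by rw [hi, ZMod.natCast_zmod_val]; ring
      have hin : i < n := ZMod.val_lt _
      have hi1 : 1 ≤ i := by
        rcases Nat.eq_zero_or_pos i with h | h
        · exfalso
          apply hbA
          rw [h, Nat.cast_zero, sub_zero] at hyi
          rwa [← hyi]
        · exact h
      have him : i < m := by
        by_contra hcon
        push Not at hcon
        exact hmspec.2 (walk i hin (hyi ▸ hy) m hmspec.1 hcon)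
      refine ⟨m - 1 - i, by omega, ?_⟩
      rw [hyi]
      have : ((m - 1 : ℕ) : ZMod n) = ((m - 1 - i : ℕ) : ZMod n) + (i : ZMod n) := by
        rw [← Nat.cast_add]; congr 1; omega
      rw [this]
      ring
    · rintro ⟨i, hi, rfl⟩
      have : ((m - 1 : ℕ) : ZMod n) = ((m - 1 - i : ℕ) : ZMod n) + (i : ZMod n) := by
        rw [← Nat.cast_add]; congr 1; omega
      have e : b - ((m - 1 : ℕ) : ZMod n) + (i : ZMod n) = b - ((m - 1 - i : ℕ) : ZMod n) := by
        rw [this]; ring
      rw [e]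
      exact hmmin _ (by omega) (by omega)
  have hcard : A.card = m - 1 := by
    rw [hA, iv_card _ _ (by omega)]
  refine ⟨b - ((m - 1 : ℕ) : ZMod n), ?_⟩
  rw [hcard]
  exact hA

theorem iv_zero_two {n : ℕ} (A : Finset (ZMod n)) :
    A + iv 0 2 = A ∪ A.image (fun x => x + 1) := by
  ext z
  rw [mem_add, mem_union, mem_image]
  constructor
  · rintro ⟨a, ha, b, hb, rfl⟩
    obtain ⟨i, hi, rfl⟩ := mem_iv.1 hb
    rcases (by omega : i = 0 ∨ i = 1) with rfl | rfl
    · left; simpa using ha
    · right; exact ⟨a, ha, by simp⟩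
  · rintro (h | ⟨a, ha, rfl⟩)
    · exact ⟨z, h, 0, mem_iv.2 ⟨0, by omega, by simp⟩, by simp⟩
    · exact ⟨a, ha, 1, mem_iv.2 ⟨1, by omega, by simp⟩, rfl⟩

/-- one step -/
theorem add_two_card_one {n : ℕ} [NeZero n] {A : Finset (ZMod n)} (hne : A.Nonempty)
    (hA : A + iv 0 2 ≠ univ) : A.card + 1 ≤ (A + iv 0 2).card := by
  by_contra hcon
  push Not at hcon
  rw [iv_zero_two] at hcon hA
  have hsub : A ⊆ A ∪ A.image (fun x => x + 1) := subset_union_left
  have heq : A = A ∪ A.image (fun x => x + 1) := eq_of_subset_of_card_le hsub (by omega)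
  have hstep : ∀ x ∈ A, x + 1 ∈ A := by
    intro x hx
    rw [heq]
    exact mem_union_right _ (mem_image_of_mem _ hx)
  apply hA
  rw [← heq]
  obtain ⟨a, ha⟩ := hne
  have : ∀ i : ℕ, a + (i : ZMod n) ∈ A := by
    intro i
    induction i with
    | zero => simpa using ha
    | succ i ih =>
      have := hstep _ ih
      rwa [add_assoc, ← Nat.cast_succ] at this
  ext y
  simp only [mem_univ, iff_true]
  have h1 := this (y - a).val
  rw [ZMod.natCast_zmod_val] at h1
  have h2 : a + (y - a) = y := by ring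
  rwa [h2] at h1

theorem add_two_card_two {n : ℕ} [NeZero n] {A : Finset (ZMod n)} (hne : A.Nonempty)
    (hA : A + iv 0 2 ≠ univ) (hint : ¬ ∃ x : ZMod n, A = iv x A.card) :
    A.card + 2 ≤ (A + iv 0 2).card := by
  by_contra hcon
  push Not at hcon
  have h1 := add_two_card_one hne hA
  rw [iv_zero_two] at hcon h1
  apply hint
  have hc : ((A.image (fun x => x + 1)) \ A).card = 1 := by
    have h2 := card_sdiff_add_card (A.image (fun x => x + 1)) A
    have h3 : A.image (fun x => x + 1) ∪ A = A ∪ A.image (fun x => x + 1) := union_comm _ _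
    rw [h3] at h2
    omega
  rw [card_eq_one] at hc
  obtain ⟨b, hb⟩ := hc
  have hb' : b ∈ (A.image (fun x => x + 1)) \ A := by rw [hb]; exact mem_singleton_self b
  refine interval_of_one_exit A b (mem_sdiff.1 hb').2 ?_
  intro x hx hx1
  have : x + 1 ∈ (A.image (fun x => x + 1)) \ A := mem_sdiff.2 ⟨mem_image_of_mem _ hx, hx1⟩
  rwa [hb, mem_singleton] at this

/-- If `A` is a nonempty non-interval and `A + {0,…,c-1} ≠ ℤ/n` (`c ≥ 2`), then
`|A + {0,…,c-1}| ≥ |A| + c`. -/
theorem add_iv_card {n : ℕ} [NeZero n] {A : Finset (ZMod n)} (hne : A.Nonempty)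
    (hint : ¬ ∃ x : ZMod n, A = iv x A.card) (c : ℕ) (hc : 2 ≤ c) (hA : A + iv 0 c ≠ univ) :
    A.card + c ≤ (A + iv 0 c).card := by
  induction c, hc using Nat.le_induction with
  | base => exact add_two_card_two hne hA hint
  | succ c hc ih =>
    have e : A + iv 0 (c + 1) = (A + iv 0 c) + iv 0 2 := by
      obtain ⟨p, rfl⟩ : ∃ p, c = p + 1 := ⟨c - 1, by omega⟩
      have h2 : iv (0 : ZMod n) (p + 1) + iv 0 2 = iv 0 (p + 1 + 1) := by
        have := iv_add (0 : ZMod n) 0 p 1
        rwa [add_zero] at this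
      rw [add_assoc A (iv 0 (p + 1)) (iv 0 2), h2]
    have hne2 : A + iv 0 c ≠ univ := by
      intro h
      apply hA
      rw [e, h]
      ext z
      simp only [mem_univ, iff_true]
      exact mem_add.2 ⟨z, mem_univ z, 0, mem_iv.2 ⟨0, by omega, by simp⟩, add_zero z⟩
    have h1 := ih hne2
    have h2 := add_two_card_one (A := A + iv 0 c) (hne.add (iv_nonempty 0 (by omega)))
      (by rw [← e]; exact hA)
    rw [← e] at h2
    omega

/-- Reduction modulo the stabilizer: if `stab S ≠ ⊥` there is a proper divisor `d` of `n` such that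
the kernel of `ℤ/n → ℤ/d` stabilizes `S`. -/
theorem exists_quotient {n : ℕ} [NeZero n] (S : Finset (ZMod n)) (hst : stab S ≠ ⊥) :
    ∃ d e : ℕ, ∃ h : n = d * e, 1 ≤ d ∧ 2 ≤ e ∧ ∀ x : ZMod n,
      ZMod.castHom (Dvd.intro e h.symm) (ZMod d) x = 0 → x ∈ stab S := by
  classical
  have hn : 0 < n := Nat.pos_of_ne_zero (NeZero.ne n)
  obtain ⟨t, ht, ht0⟩ : ∃ t : ZMod n, t ∈ stab S ∧ t ≠ 0 := by
    obtain ⟨t, h⟩ := AddSubgroup.ne_bot_iff_exists_ne_zero.mp hst
    exact ⟨t.1, t.2, fun h0 => h (Subtype.ext h0)⟩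
  set d := Nat.gcd t.val n with hd
  have hdpos : 0 < d := Nat.gcd_pos_of_pos_right _ hn
  have hdn : d ∣ n := Nat.gcd_dvd_right _ _
  have htv : 0 < t.val := by
    rcases Nat.eq_zero_or_pos t.val with h0 | h0
    · exact absurd ((ZMod.val_eq_zero t).mp h0) ht0
    · exact h0
  have hdlt : d < n := lt_of_le_of_lt (Nat.gcd_le_left n htv) (ZMod.val_lt t)
  have hdstab : ((d : ℕ) : ZMod n) ∈ stab S := by
    have h1 : ((d : ℕ) : ZMod n) = (Nat.gcdA t.val n) • t := by
      have hbez := Nat.gcd_eq_gcd_ab t.val n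
      have h2 : (((Nat.gcd t.val n : ℕ) : ℤ) : ZMod n)
          = ((t.val * Nat.gcdA t.val n + n * Nat.gcdB t.val n : ℤ) : ZMod n) := by rw [hbez]
      rw [zsmul_eq_mul]
      push_cast at h2
      rw [ZMod.natCast_zmod_val, ZMod.natCast_self, zero_mul, add_zero] at h2
      rw [hd, h2, mul_comm]
    rw [h1]
    exact AddSubgroup.zsmul_mem _ ht _
  obtain ⟨e, he⟩ := hdn
  refine ⟨d, e, he, hdpos, ?_, ?_⟩
  · rcases (by omega : e = 0 ∨ e = 1 ∨ 2 ≤ e) with h | h | h
    · rw [h] at he; omega
    · rw [h] at he; omega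
    · exact h
  · intro x hx
    have hdvd : d ∣ x.val := by
      rw [ZMod.castHom_apply, ← ZMod.natCast_val] at hx
      rwa [ZMod.natCast_eq_zero_iff] at hx
    obtain ⟨k, hk⟩ := hdvd
    have : x = k • ((d : ℕ) : ZMod n) := by
      rw [nsmul_eq_mul, ← Nat.cast_mul, mul_comm, ← hk, ZMod.natCast_zmod_val]
    rw [this]
    exact AddSubgroup.nsmul_mem _ hdstab k

end cyclic

end Pool.Agent.X7.CyclicTools
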