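import Mathlib

/-!
# Two-element signed spanning sets in rank-two groups

Complete classification of the groups `Z_d × Z_{dk}` (`d ≥ 2`) that have a two-element
`s`-spanning set.
-/

open Finset

namespace Pool.Agent.X7.SignedSpan

/-! ### Integer statements -/

/-- every point of the grid is within `ℓ¹`-distance `s` of `d • L`,
`L = {(x,y) : k ∣ α x + β y}` -/
def Cv (d s k α β : ℤ) : Prop :=
  ∀ z1 z2 : ℤ, ∃ x y : ℤ, k ∣ α * x + β * y ∧ |z1 - d * x| + |z2 - d * y| ≤ s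

/-- the lattice `L` in the coordinates `u = x + y`, `v = x - y` -/
def M (k α β u v : ℤ) : Prop := ∃ x y : ℤ, k ∣ α * x + β * y ∧ u = x + y ∧ v = x - y

/-- the box `A × B` covers -/
def Cov (k α β A B : ℤ) : Prop :=
  ∀ u v : ℤ, ∃ i j : ℤ, 0 ≤ i ∧ i < A ∧ 0 ≤ j ∧ j < B ∧ M k α β (u - i) (v - j)

lemma M.sub {k α β u v u' v' : ℤ} (h : M k α β u v) (h' : M k α β u' v') :
    M k α β (u - u') (v - v') := by
  obtain ⟨x, y, h1, h2, h3⟩ := h
  obtain ⟨x', y', h1', h2', h3'⟩ := h'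
  refine ⟨x - x', y - y', ?_, by rw [h2, h2']; ring, by rw [h3, h3']; ring⟩
  have : α * (x - x') + β * (y - y') = (α * x + β * y) - (α * x' + β * y') := by ring
  rw [this]
  exact dvd_sub h1 h1'

lemma M.swap {k α β u v : ℤ} (h : M k α β u v) : M k α (-β) v u := by
  obtain ⟨x, y, h1, h2, h3⟩ := h
  refine ⟨x, -y, ?_, by rw [h3]; ring, by rw [h2]; ring⟩
  have : α * x + -β * -y = α * x + β * y := by ring
  rw [this]; exact h1

lemma Cov.swap {k α β A B : ℤ} (h : Cov k α β A B) : Cov k α (-β) B A := by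
  intro u v
  obtain ⟨i, j, h1, h2, h3, h4, h5⟩ := h v u
  exact ⟨j, i, h3, h4, h1, h2, h5.swap⟩

lemma l1_of_linf {p q s : ℤ} (h1 : |p + q| ≤ s) (h2 : |p - q| ≤ s) : |p| + |q| ≤ s := by
  rw [abs_le] at h1 h2
  rcases abs_cases p with ⟨hp, _⟩ | ⟨hp, _⟩ <;> rcases abs_cases q with ⟨hq, _⟩ | ⟨hq, _⟩ <;>
    rw [hp, hq] <;> linarith [h1.1, h1.2, h2.1, h2.2]

lemma linf_of_l1 {p q s : ℤ} (h : |p| + |q| ≤ s) : |p + q| ≤ s ∧ |p - q| ≤ s := by
  constructor
  · exact (abs_add_le p q).trans h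
  · exact (abs_sub p q).trans h

/-- From the `ℓ¹` covering to the box covering. -/
lemma cov_of_cv {d s k α β w : ℤ} (hd : 2 ≤ d) (hw : 2 * s + 1 < d * (w + 1))
    (hodd : d % 2 = 1 → 2 * s + 2 ≠ d * (w + 1)) (h : Cv d s k α β) : Cov k α β w w := by
  intro u v
  rcases Int.even_or_odd (d * (u - v)) with he | ho
  · obtain ⟨e, he⟩ := he
    obtain ⟨x, y, h1, h2⟩ := h (d * (v - w) + s + 1 + e) e
    obtain ⟨h3, h4⟩ := linf_of_l1 h2
    rw [abs_le] at h3 h4
    have e1 : d * (u - v) = 2 * e := by rw [he]; ring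
    refine ⟨u - (x + y), v - (x - y), ?_, ?_, ?_, ?_, ?_⟩
    · have : d * (x + y) < d * (u + 1) := by nlinarith [h3.1]
      have := lt_of_mul_lt_mul_left this (by omega)
      omega
    · have : d * (u - w) < d * (x + y) := by nlinarith [h3.2]
      have := lt_of_mul_lt_mul_left this (by omega)
      omega
    · have : d * (x - y) < d * (v + 1) := by nlinarith [h4.1]
      have := lt_of_mul_lt_mul_left this (by omega)
      omega
    · have : d * (v - w) < d * (x - y) := by nlinarith [h4.2]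
      have := lt_of_mul_lt_mul_left this (by omega)
      omega
    · exact ⟨x, y, h1, by ring, by ring⟩
  · obtain ⟨e, he⟩ := ho
    have hdo : d % 2 = 1 := by
      have h5 : Odd (d * (u - v)) := ⟨e, he⟩
      have := (Int.odd_mul.mp h5).1
      exact Int.odd_iff.mp this
    have hne := hodd hdo
    obtain ⟨x, y, h1, h2⟩ := h (d * (v - w) + s + 1 + (e + 1)) (e + 1)
    obtain ⟨h3, h4⟩ := linf_of_l1 h2
    rw [abs_le] at h3 h4
    refine ⟨u - (x + y), v - (x - y), ?_, ?_, ?_, ?_, ?_⟩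
    · have : d * (x + y) < d * (u + 1) := by
        have : 2 * s + 2 < d * (w + 1) := by omega
        nlinarith [h3.1]
      have := lt_of_mul_lt_mul_left this (by omega)
      omega
    · have : d * (u - w) < d * (x + y) := by nlinarith [h3.2]
      have := lt_of_mul_lt_mul_left this (by omega)
      omega
    · have : d * (x - y) < d * (v + 1) := by nlinarith [h4.1]
      have := lt_of_mul_lt_mul_left this (by omega)
      omega
    · have : d * (v - w) < d * (x - y) := by nlinarith [h4.2]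
      have := lt_of_mul_lt_mul_left this (by omega)
      omega
    · exact ⟨x, y, h1, by ring, by ring⟩

/-- counting -/
lemma count {k : ℕ} (hk : 1 ≤ k) {α β : ℤ} (hU : ∃ x0 y0 : ℤ, (k : ℤ) ∣ α * x0 + β * y0 - 1)
    {A B : ℕ} (h : Cov k α β A B) : 2 * k ≤ A * B := by
  have : NeZero k := ⟨by omega⟩
  have hsurj : Function.Surjective (fun x : Fin A × Fin B =>
      (((α * ((((x.1 : ℕ) : ℤ) + ((x.2 : ℕ) : ℤ)) / 2)
        + β * ((((x.1 : ℕ) : ℤ) - ((x.2 : ℕ) : ℤ)) / 2) : ℤ) : ZMod k),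
        ((((x.1 : ℕ) : ℤ) + ((x.2 : ℕ) : ℤ) : ℤ) : ZMod 2))) := by
    rintro ⟨κ, ε⟩
    obtain ⟨x0, y0, hU⟩ := hU
    obtain ⟨c, rfl⟩ := ZMod.intCast_surjective κ
    have hε : ∃ ε' : ℤ, (ε' = 0 ∨ ε' = 1) ∧ (ε' : ZMod 2) = ε := by
      fin_cases ε
      · exact ⟨0, Or.inl rfl, rfl⟩
      · exact ⟨1, Or.inr rfl, rfl⟩
    obtain ⟨ε', hε1, hε2⟩ := hε
    obtain ⟨i, j, h1, h2, h3, h4, x, y, h5, h6, h7⟩ := h (c * x0 + c * y0 + ε') (c * x0 - c * y0)
    have hi : ((⟨i.toNat, by omega⟩ : Fin A) : ℕ) = i.toNat := rfl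
    refine ⟨(⟨i.toNat, by omega⟩, ⟨j.toNat, by omega⟩), ?_⟩
    have e1 : ((i.toNat : ℕ) : ℤ) = i := Int.toNat_of_nonneg h1
    have e2 : ((j.toNat : ℕ) : ℤ) = j := Int.toNat_of_nonneg h3
    simp only [e1, e2]
    have e3 : (i + j) / 2 = c * x0 - x := by
      rcases hε1 with rfl | rfl <;> omega
    have e4 : (i - j) / 2 = c * y0 - y := by
      rcases hε1 with rfl | rfl <;> omega
    rw [Prod.mk.injEq]
    constructor
    · rw [e3, e4]
      rw [ZMod.intCast_eq_intCast_iff_dvd_sub]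
      have : c - (α * (c * x0 - x) + β * (c * y0 - y))
          = (α * x + β * y) - c * (α * x0 + β * y0 - 1) := by ring
      rw [this]
      exact dvd_sub h5 (Dvd.dvd.mul_left hU c)
    · rw [← hε2, ZMod.intCast_eq_intCast_iff_dvd_sub]
      exact ⟨-(c * x0 - x), by push_cast; omega⟩
  have hle := Fintype.card_le_of_surjective _ hsurj
  rw [Fintype.card_prod, Fintype.card_prod, ZMod.card, ZMod.card, Fintype.card_fin,
    Fintype.card_fin] at hle
  omega

/-- a lattice vector with first coordinate exactly `w` -/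
lemma exists_row {k : ℕ} (hk : 1 ≤ k) {α β : ℤ}
    (hU : ∃ x0 y0 : ℤ, (k : ℤ) ∣ α * x0 + β * y0 - 1) {w : ℕ} (hw : 1 ≤ w)
    (h : Cov k α β w w) (hbig : w * (w - 1) < 2 * k) :
    ∃ q : ℤ, |q| < w ∧ M k α β w q := by
  by_contra hcon
  push Not at hcon
  have hcov : Cov k α β ((w - 1 : ℕ) : ℤ) w := by
    intro u v
    obtain ⟨i', j', a1, a2, a3, a4, a5⟩ := h (u + 1) v
    rcases eq_or_lt_of_le a1 with hi | hi
    · obtain ⟨i, j, b1, b2, b3, b4, b5⟩ := h u v
      by_cases hi2 : i < ((w - 1 : ℕ) : ℤ)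
      · exact ⟨i, j, b1, hi2, b3, b4, b5⟩
      · exfalso
        have hiw : i = w - 1 := by omega
        have h1 := a5.sub b5
        rw [← hi, hiw] at h1
        apply hcon (v - j' - (v - j))
        · rw [abs_lt]; constructor <;> omega
        · have e1 : u + 1 - 0 - (u - ((w : ℤ) - 1)) = w := by ring
          rw [e1] at h1
          exact h1
    · refine ⟨i' - 1, j', by omega, by omega, a3, a4, ?_⟩
      have e1 : u - (i' - 1) = u + 1 - i' := by ring
      rw [e1]; exact a5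
  have h2 := count hk hU hcov
  have h3 : (w - 1) * w = w * (w - 1) := mul_comm _ _
  omega

lemma det_dvd {k α β : ℤ} (hU : ∃ x0 y0 : ℤ, k ∣ α * x0 + β * y0 - 1) {u1 v1 u2 v2 : ℤ}
    (h1 : M k α β u1 v1) (h2 : M k α β u2 v2) : 2 * k ∣ u1 * v2 - u2 * v1 := by
  obtain ⟨x0, y0, c0, h0⟩ := hU
  obtain ⟨x1, y1, ⟨c1, a1⟩, a2, a3⟩ := h1
  obtain ⟨x2, y2, ⟨c2, b1⟩, b2, b3⟩ := h2
  refine ⟨(c2 * y1 - c1 * y2) * x0 + (c1 * x2 - c2 * x1) * y0 - c0 * (x2 * y1 - x1 * y2), ?_⟩
  have e1 : α * (x2 * y1 - x1 * y2) = k * (c2 * y1 - c1 * y2) := by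
    linear_combination y1 * b1 - y2 * a1
  have e2 : β * (x2 * y1 - x1 * y2) = k * (c1 * x2 - c2 * x1) := by
    linear_combination x2 * a1 - x1 * b1
  rw [a2, a3, b2, b3]
  linear_combination 2 * x0 * e1 + 2 * y0 * e2 - 2 * (x2 * y1 - x1 * y2) * h0

/-- the exceptional sizes -/
lemma exceptional {k : ℕ} (hk : 1 ≤ k) {α β : ℤ}
    (hU : ∃ x0 y0 : ℤ, (k : ℤ) ∣ α * x0 + β * y0 - 1) {t : ℕ} (ht : 1 ≤ t)
    (h : Cov k α β ((2 * t : ℕ) : ℤ) ((2 * t : ℕ) : ℤ)) (hbig : 2 * t ^ 2 < k + t) :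
    (t % 2 = 0 ∧ k % 2 = 0) ∨ (t % 2 = 1 ∧ k % 4 = 2) := by
  have hw : 2 * t * (2 * t - 1) < 2 * k := by
    obtain ⟨t', rfl⟩ : ∃ t', t = t' + 1 := ⟨t - 1, by omega⟩
    have : 2 * (t' + 1) - 1 = 2 * t' + 1 := by omega
    rw [this]
    nlinarith
  obtain ⟨q, hq1, hq2⟩ := exists_row hk hU (by omega) h hw
  have hU' : ∃ x0 y0 : ℤ, (k : ℤ) ∣ α * x0 + (-β) * y0 - 1 := by
    obtain ⟨x0, y0, h0⟩ := hU
    exact ⟨x0, -y0, by simpa using h0⟩
  obtain ⟨p, hp1, hp2⟩ := exists_row hk hU' (by omega) h.swap hw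
  have hp3 : M k α β p ((2 * t : ℕ) : ℤ) := by
    have := hp2.swap
    rwa [neg_neg] at this
  push_cast at hq1 hp1 hq2 hp3
  -- parities
  obtain ⟨q', rfl⟩ : ∃ q', q = 2 * q' := by
    obtain ⟨x, y, _, h2, h3⟩ := hq2
    exact ⟨x - t, by omega⟩
  obtain ⟨p', rfl⟩ : ∃ p', p = 2 * p' := by
    obtain ⟨x, y, _, h2, h3⟩ := hp3
    exact ⟨x - t, by omega⟩
  have hdet := det_dvd hU hq2 hp3
  obtain ⟨c, hc⟩ := hdet
  rw [abs_lt] at hq1 hp1
  have hqa : -(t : ℤ) + 1 ≤ q' ∧ q' ≤ t - 1 := by constructor <;> omega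
  have hpa : -(t : ℤ) + 1 ≤ p' ∧ p' ≤ t - 1 := by constructor <;> omega
  have hk' : (0 : ℤ) < k := by exact_mod_cast hk
  have ht' : (1 : ℤ) ≤ t := by exact_mod_cast ht
  have hbig' : 2 * (t : ℤ) ^ 2 < k + t := by exact_mod_cast hbig
  have hpq1 : p' * q' ≤ ((t : ℤ) - 1) ^ 2 := by nlinarith
  have hpq2 : -((t : ℤ) - 1) ^ 2 ≤ p' * q' := by nlinarith
  have hc1 : c = 1 := by
    have h1 : 0 < c := by
      by_contra hneg
      have : (k : ℤ) * c ≤ 0 := by nlinarith
      nlinarith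
    have h2 : c < 2 := by
      by_contra hge
      push Not at hge
      have : (k : ℤ) * 2 ≤ k * c := mul_le_mul_of_nonneg_left hge hk'.le
      nlinarith
    omega
  rw [hc1] at hc
  have hkk : (k : ℤ) = 2 * ((t : ℤ) ^ 2 - p' * q') := by
    have : 2 * (k : ℤ) = 2 * (2 * ((t : ℤ) ^ 2 - p' * q')) := by linear_combination -hc
    linarith
  rcases Nat.mod_two_eq_zero_or_one t with ht2 | ht2
  · left
    refine ⟨ht2, ?_⟩
    omega
  · right
    refine ⟨ht2, ?_⟩
    -- suffices `p' q'` even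
    rcases Int.even_or_odd (p' * q') with he | ho
    · obtain ⟨e, he⟩ := he
      obtain ⟨τ, hτ⟩ : ∃ τ : ℕ, t = 2 * τ + 1 := ⟨t / 2, by omega⟩
      have : (k : ℤ) = 4 * (2 * τ ^ 2 + 2 * τ - e) + 2 := by
        rw [hkk, he, hτ]; push_cast; ring
      omega
    · exfalso
      obtain ⟨hpo, hqo⟩ := Int.odd_mul.mp ho
      obtain ⟨p'', hp''⟩ := hpo
      obtain ⟨q'', hq''⟩ := hqo
      obtain ⟨τ, hτ⟩ : ∃ τ : ℕ, t = 2 * τ + 1 := ⟨t / 2, by omega⟩
      have hτ' : (t : ℤ) = 2 * τ + 1 := by exact_mod_cast hτ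
      -- the two halved vectors
      obtain ⟨x1, y1, ⟨c1, a1⟩, a2, a3⟩ := id hq2
      obtain ⟨x2, y2, ⟨c2, b1⟩, b2, b3⟩ := id hp3
      set κ : ℤ := (t : ℤ) ^ 2 - p' * q' with hκ
      obtain ⟨X1, hX1⟩ : ∃ X1, x1 = 2 * X1 := ⟨τ + q'' + 1, by omega⟩
      obtain ⟨Y1, hY1⟩ : ∃ Y1, y1 = 2 * Y1 := ⟨τ - q'', by omega⟩
      obtain ⟨X2, hX2⟩ : ∃ X2, x2 = 2 * X2 := ⟨τ + p'' + 1, by omega⟩
      obtain ⟨Y2, hY2⟩ : ∃ Y2, y2 = 2 * Y2 := ⟨p'' - τ, by omega⟩
      have hh1 : α * X1 + β * Y1 = κ * c1 := by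
        have : 2 * (α * X1 + β * Y1) = 2 * (κ * c1) := by
          rw [hkk, hX1, hY1] at a1
          linear_combination a1
        linarith
      have hh2 : α * X2 + β * Y2 = κ * c2 := by
        have : 2 * (α * X2 + β * Y2) = 2 * (κ * c2) := by
          rw [hkk, hX2, hY2] at b1
          linear_combination b1
        linarith
      have hM1 : c1 % 2 = 0 → M k α β (X1 + Y1) (X1 - Y1) := by
        intro hc1
        refine ⟨X1, Y1, ⟨c1 / 2, ?_⟩, rfl, rfl⟩
        rw [hh1, hkk]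
        have : c1 = 2 * (c1 / 2) := by omega
        conv_lhs => rw [this]
        ring
      have hM2 : c2 % 2 = 0 → M k α β (X2 + Y2) (X2 - Y2) := by
        intro hc2
        refine ⟨X2, Y2, ⟨c2 / 2, ?_⟩, rfl, rfl⟩
        rw [hh2, hkk]
        have : c2 = 2 * (c2 / 2) := by omega
        conv_lhs => rw [this]
        ring
      have hM3 : (c1 + c2) % 2 = 0 → M k α β ((X1 + X2) + (Y1 + Y2)) ((X1 + X2) - (Y1 + Y2)) := by
        intro hc3
        refine ⟨X1 + X2, Y1 + Y2, ⟨(c1 + c2) / 2, ?_⟩, rfl, rfl⟩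
        have h12 : α * (X1 + X2) + β * (Y1 + Y2) = κ * (c1 + c2) := by
          linear_combination hh1 + hh2
        rw [h12, hkk]
        have : c1 + c2 = 2 * ((c1 + c2) / 2) := by omega
        conv_lhs => rw [this]
        ring
      have s1 : X1 + Y1 = t := by omega
      have s2 : X1 - Y1 = q' := by omega
      have s3 : X2 + Y2 = p' := by omega
      have s4 : X2 - Y2 = t := by omega
      have hcontra : ∀ z : ℤ, (2 * (k : ℤ)) ∣ z → (z = k ∨ z = -k) → False := by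
        rintro z ⟨m, hm⟩ (hz | hz)
        · rw [hz] at hm
          have : (k : ℤ) * (2 * m - 1) = 0 := by linear_combination -hm
          rcases mul_eq_zero.mp this with h0 | h0 <;> omega
        · rw [hz] at hm
          have : (k : ℤ) * (2 * m + 1) = 0 := by linear_combination -hm
          rcases mul_eq_zero.mp this with h0 | h0 <;> omega
      rcases Int.emod_two_eq_zero_or_one c1 with hc1 | hc1
      · have := det_dvd hU (hM1 hc1) hp3
        refine hcontra _ this (Or.inl ?_)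
        rw [s1, s2, hkk]; ring
      · rcases Int.emod_two_eq_zero_or_one c2 with hc2 | hc2
        · have := det_dvd hU hq2 (hM2 hc2)
          refine hcontra _ this (Or.inl ?_)
          rw [s3, s4, hkk]; ring
        · have := det_dvd hU hq2 (hM3 (by omega))
          refine hcontra _ this (Or.inl ?_)
          have e1 : X1 + X2 + (Y1 + Y2) = t + p' := by omega
          have e2 : X1 + X2 - (Y1 + Y2) = q' + t := by omega
          rw [e1, e2, hkk]; ring


/-- the ball of radius `t` covers, hence the trivial bound -/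
lemma ball_bound {k : ℕ} (hk : 1 ≤ k) {d s t : ℕ} (hs : s < d * (t + 1)) {α β : ℤ}
    (hU : ∃ x0 y0 : ℤ, (k : ℤ) ∣ α * x0 + β * y0 - 1) (h : Cv d s k α β) :
    k ≤ 2 * t ^ 2 + 2 * t + 1 := by
  have : NeZero k := ⟨by omega⟩
  have hsurj : Function.Surjective
      (Sum.elim
        (fun x : Fin (t+1) × Fin (t+1) =>
          ((α * (-(t : ℤ) + ((x.1 : ℕ) : ℤ) + ((x.2 : ℕ) : ℤ))
            + β * (((x.1 : ℕ) : ℤ) - ((x.2 : ℕ) : ℤ)) : ℤ) : ZMod k))
        (fun x : Fin t × Fin t =>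
          ((α * (-(t : ℤ) + 1 + ((x.1 : ℕ) : ℤ) + ((x.2 : ℕ) : ℤ))
            + β * (((x.1 : ℕ) : ℤ) - ((x.2 : ℕ) : ℤ)) : ℤ) : ZMod k))) := by
    intro κ
    obtain ⟨x0, y0, hU⟩ := hU
    obtain ⟨c, rfl⟩ := ZMod.intCast_surjective κ
    obtain ⟨x, y, h1, h2⟩ := h (d * (c * x0)) (d * (c * y0))
    have h3 : |c * x0 - x| + |c * y0 - y| ≤ t := by
      have e1 : |(d : ℤ) * (c * x0) - d * x| = d * |c * x0 - x| := by
        rw [← mul_sub, abs_mul, Nat.abs_cast]
      have e2 : |(d : ℤ) * (c * y0) - d * y| = d * |c * y0 - y| := by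
        rw [← mul_sub, abs_mul, Nat.abs_cast]
      rw [e1, e2, ← mul_add] at h2
      have hs' : (s : ℤ) < d * (t + 1) := by exact_mod_cast hs
      have h4 : (d : ℤ) * (|c * x0 - x| + |c * y0 - y|) < d * (t + 1) := lt_of_le_of_lt h2 hs'
      have := lt_of_mul_lt_mul_left h4 (by positivity)
      omega
    have hval : ∀ A B : ℤ, A = c * x0 - x → B = c * y0 - y →
        ((α * A + β * B : ℤ) : ZMod k) = c := by
      intro A B hA hB
      rw [ZMod.intCast_eq_intCast_iff_dvd_sub, hA, hB]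
      have : c - (α * (c * x0 - x) + β * (c * y0 - y))
          = (α * x + β * y) - c * (α * x0 + β * y0 - 1) := by ring
      rw [this]
      exact dvd_sub h1 (Dvd.dvd.mul_left hU c)
    obtain ⟨h4, h5⟩ := linf_of_l1 h3
    set A := c * x0 - x with hA
    set B := c * y0 - y with hB
    rw [abs_le] at h4 h5
    rcases Int.even_or_odd (A + B + t) with he | ho
    · obtain ⟨P, hP⟩ := he
      have hQ : A - B + t = (P - B) + (P - B) := by omega
      refine ⟨Sum.inl (⟨P.toNat, by omega⟩, ⟨(P - B).toNat, by omega⟩), ?_⟩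
      have e1 : ((P.toNat : ℕ) : ℤ) = P := Int.toNat_of_nonneg (by omega)
      have e2 : (((P - B).toNat : ℕ) : ℤ) = P - B := Int.toNat_of_nonneg (by omega)
      simp only [Sum.elim_inl, e1, e2]
      exact hval _ _ (by omega) (by omega)
    · obtain ⟨P, hP⟩ := ho
      refine ⟨Sum.inr (⟨P.toNat, by omega⟩, ⟨(P - B).toNat, by omega⟩), ?_⟩
      have e1 : ((P.toNat : ℕ) : ℤ) = P := Int.toNat_of_nonneg (by omega)
      have e2 : (((P - B).toNat : ℕ) : ℤ) = P - B := Int.toNat_of_nonneg (by omega)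
      simp only [Sum.elim_inr, e1, e2]
      exact hval _ _ (by omega) (by omega)
  have hle := Fintype.card_le_of_surjective _ hsurj
  rw [Fintype.card_sum, Fintype.card_prod, Fintype.card_prod, ZMod.card, Fintype.card_fin,
    Fintype.card_fin] at hle
  nlinarith

/-- The admissibility condition: with `t = ⌊s/d⌋` and `e = s mod d`. -/
def Adm (d s k : ℕ) : Prop :=
  (d % 2 = 1 ∧ s % d = d - 1 ∧ k ≤ 2 * (s / d) ^ 2 + 2 * (s / d) + 1) ∨
  (d ≤ 2 * (s % d) + 1 ∧ k ≤ 2 * (s / d) ^ 2 + 2 * (s / d)) ∨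
  (k + s / d ≤ 2 * (s / d) ^ 2) ∨
  (k ≤ 2 * (s / d) ^ 2 ∧
    (((s / d) % 2 = 0 ∧ k % 2 = 0) ∨ ((s / d) % 2 = 1 ∧ k % 4 = 2)))

lemma adm_of_cv {d k s : ℕ} (hd : 2 ≤ d) (hk : 1 ≤ k) {α β : ℤ}
    (hU : ∃ x0 y0 : ℤ, (k : ℤ) ∣ α * x0 + β * y0 - 1) (h : Cv d s k α β) : Adm d s k := by
  unfold Adm
  have hdiv := Nat.div_add_mod s d
  have hmod := Nat.mod_lt s (show d > 0 by omega)
  generalize s / d = t at hdiv ⊢
  generalize s % d = e at hdiv hmod ⊢
  have hs' : (s : ℤ) = d * t + e := by exact_mod_cast hdiv.symm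
  by_cases h1 : d % 2 = 1 ∧ e = d - 1
  · left
    refine ⟨h1.1, h1.2, ?_⟩
    exact ball_bound hk (by nlinarith) hU h
  · right
    by_cases h2 : d ≤ 2 * e + 1
    · left
      refine ⟨h2, ?_⟩
      have hcov : Cov k α β ((2 * t + 1 : ℕ) : ℤ) ((2 * t + 1 : ℕ) : ℤ) := by
        refine cov_of_cv (by exact_mod_cast hd) ?_ ?_ h
        · push_cast
          have : (d : ℤ) * (2 * t + 1 + 1) = 2 * (d * t) + 2 * d := by ring
          rw [this, hs']
          have h3 : (e : ℤ) < d := by exact_mod_cast hmod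
          linarith
        · intro hodd heq
          push_cast at heq
          have : (d : ℤ) * (2 * t + 1 + 1) = 2 * (d * t) + 2 * d := by ring
          rw [this, hs'] at heq
          apply h1
          constructor
          · omega
          · have : (e : ℤ) + 1 = d := by linarith
            omega
      have := count hk hU hcov
      nlinarith
    · right
      have hcov : Cov k α β ((2 * t : ℕ) : ℤ) ((2 * t : ℕ) : ℤ) := by
        refine cov_of_cv (by exact_mod_cast hd) ?_ ?_ h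
        · push_cast
          have : (d : ℤ) * (2 * t + 1) = 2 * (d * t) + d := by ring
          rw [this, hs']
          have h3 : 2 * (e : ℤ) + 1 < d := by
            have : 2 * e + 1 < d := by omega
            exact_mod_cast this
          linarith
        · intro hodd heq
          push_cast at heq
          have : (d : ℤ) * (2 * t + 1) = 2 * (d * t) + d := by ring
          rw [this, hs'] at heq
          have : 2 * (e : ℤ) + 2 = d := by linarith
          omega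
      have hle := count hk hU hcov
      by_cases h3 : k + t ≤ 2 * t ^ 2
      · left; exact h3
      · right
        refine ⟨by nlinarith, ?_⟩
        have ht1 : 1 ≤ t := by
          by_contra h0
          have : t = 0 := by omega
          rw [this] at hle
          omega
        exact exceptional hk hU ht1 hcov (by omega)

/-! ### Constructions -/

lemma cv_of_cov {d s k α β w : ℤ} (hd : 1 ≤ d) (hw : d * w ≤ 2 * s + 1)
    (h : Cov k α β w w) : Cv d s k α β := by
  intro z1 z2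
  obtain ⟨i, j, h1, h2, h3, h4, x, y, h5, h6, h7⟩ := h ((z1 + z2 + s) / d) ((z1 - z2 + s) / d)
  refine ⟨x, y, h5, ?_⟩
  have a1 := Int.emod_add_mul_ediv (z1 + z2 + s) d
  have a2 := Int.emod_nonneg (z1 + z2 + s) (show d ≠ 0 by omega)
  have a3 := Int.emod_lt_of_pos (z1 + z2 + s) (show 0 < d by omega)
  have b1 := Int.emod_add_mul_ediv (z1 - z2 + s) d
  have b2 := Int.emod_nonneg (z1 - z2 + s) (show d ≠ 0 by omega)
  have b3 := Int.emod_lt_of_pos (z1 - z2 + s) (show 0 < d by omega)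
  set u := (z1 + z2 + s) / d
  set v := (z1 - z2 + s) / d
  set r := (z1 + z2 + s) % d
  set r' := (z1 - z2 + s) % d
  have e1 : z1 - d * x + (z2 - d * y) = d * i + r - s := by
    have : d * u = d * (x + y) + d * i := by rw [← h6]; ring
    linear_combination -a1 + this
  have e2 : z1 - d * x - (z2 - d * y) = d * j + r' - s := by
    have : d * v = d * (x - y) + d * j := by rw [← h7]; ring
    linear_combination -b1 + this
  have hi : d * i ≤ d * (w - 1) := mul_le_mul_of_nonneg_left (by omega) (by omega)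
  have hj : d * j ≤ d * (w - 1) := mul_le_mul_of_nonneg_left (by omega) (by omega)
  have hi0 : 0 ≤ d * i := mul_nonneg (by omega) h1
  have hj0 : 0 ≤ d * j := mul_nonneg (by omega) h3
  have hw' : d * (w - 1) = d * w - d := by ring
  apply l1_of_linf
  · rw [e1, abs_le]; constructor <;> linarith
  · rw [e2, abs_le]; constructor <;> linarith

lemma cov_cons {k c w : ℤ} (hk : 0 < k) (hc : 0 ≤ c) (hcw : 2 * c + 1 ≤ w)
    (hsize : 2 * k ≤ (2 * c + 1) * w) : Cov k (c + 1) c w w := by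
  intro u v
  have a1 := Int.emod_add_mul_ediv ((2 * c + 1) * u + v) (2 * k)
  have a2 := Int.emod_nonneg ((2 * c + 1) * u + v) (show 2 * k ≠ 0 by omega)
  have a3 := Int.emod_lt_of_pos ((2 * c + 1) * u + v) (show 0 < 2 * k by omega)
  set r := ((2 * c + 1) * u + v) % (2 * k)
  set Q := ((2 * c + 1) * u + v) / (2 * k)
  have b1 := Int.emod_add_mul_ediv r (2 * c + 1)
  have b2 := Int.emod_nonneg r (show 2 * c + 1 ≠ 0 by omega)
  have b3 := Int.emod_lt_of_pos r (show 0 < 2 * c + 1 by omega)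
  set j := r % (2 * c + 1)
  set i := r / (2 * c + 1)
  have hi0 : 0 ≤ i := Int.ediv_nonneg a2 (by omega)
  have hiw : i < w := by
    have h1 : (2 * c + 1) * i < (2 * c + 1) * w := by linarith
    exact lt_of_mul_lt_mul_left h1 (by omega)
  refine ⟨i, j, hi0, hiw, b2, by omega, k * Q - c * (u - i), (u - i) - (k * Q - c * (u - i)), ?_,
    by ring, ?_⟩
  · exact ⟨Q, by ring⟩
  · linear_combination -a1 - b1

lemma cov_odd {κ τ t m : ℤ} (hκ : 0 < κ) (ht : 0 < t) (hτ : 2 * τ = t + κ * m)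
    (hsize : κ ≤ t ^ 2) : Cov (2 * κ) (2 * τ + 1) (2 * τ - 1) (2 * t) (2 * t) := by
  intro u v
  have a1 := Int.emod_add_mul_ediv (t * (u / 2) + v / 2) κ
  have a2 := Int.emod_nonneg (t * (u / 2) + v / 2) (show κ ≠ 0 by omega)
  have a3 := Int.emod_lt_of_pos (t * (u / 2) + v / 2) hκ
  set r := (t * (u / 2) + v / 2) % κ
  set Q := (t * (u / 2) + v / 2) / κ
  have b1 := Int.emod_add_mul_ediv r t
  have b2 := Int.emod_nonneg r (show t ≠ 0 by omega)
  have b3 := Int.emod_lt_of_pos r ht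
  set j := r % t
  set i := r / t
  have hi0 : 0 ≤ i := Int.ediv_nonneg a2 (by omega)
  have hiw : i < t := by
    have h1 : t * i < t * t := by nlinarith
    exact lt_of_mul_lt_mul_left h1 (by omega)
  refine ⟨u - 2 * (u / 2 - i), v - 2 * (v / 2 - j), by omega, by omega, by omega, by omega,
    (u / 2 - i) + (v / 2 - j), (u / 2 - i) - (v / 2 - j), ?_, by ring, by ring⟩
  refine ⟨Q + m * (u / 2 - i), ?_⟩
  have e1 : t * (u / 2 - i) + (v / 2 - j) = κ * Q := by linear_combination -a1 - b1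
  linear_combination 2 * e1 + 2 * (u / 2 - i) * hτ

lemma cv_special {k h t s : ℤ} (hk : 0 < k) (ht : 0 ≤ t) (hh : 0 ≤ h)
    (hkt : k ≤ 2 * t ^ 2 + 2 * t + 1) (hs : (2 * h + 1) * t + 2 * h ≤ s) :
    Cv (2 * h + 1) s k (t + 1) t := by
  intro z1 z2
  have a1 := Int.emod_add_mul_ediv (z1 + h) (2 * h + 1)
  have a2 := Int.emod_nonneg (z1 + h) (show 2 * h + 1 ≠ 0 by omega)
  have a3 := Int.emod_lt_of_pos (z1 + h) (show 0 < 2 * h + 1 by omega)
  have b1 := Int.emod_add_mul_ediv (z2 + h) (2 * h + 1)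
  have b2 := Int.emod_nonneg (z2 + h) (show 2 * h + 1 ≠ 0 by omega)
  have b3 := Int.emod_lt_of_pos (z2 + h) (show 0 < 2 * h + 1 by omega)
  set y1 := (z1 + h) / (2 * h + 1)
  set y2 := (z2 + h) / (2 * h + 1)
  set r1 := (z1 + h) % (2 * h + 1)
  set r2 := (z2 + h) % (2 * h + 1)
  have c1 := Int.emod_add_mul_ediv ((t + 1) * y1 + t * y2 + (t ^ 2 + t)) k
  have c2 := Int.emod_nonneg ((t + 1) * y1 + t * y2 + (t ^ 2 + t)) (show k ≠ 0 by omega)
  have c3 := Int.emod_lt_of_pos ((t + 1) * y1 + t * y2 + (t ^ 2 + t)) hk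
  set ρ := ((t + 1) * y1 + t * y2 + (t ^ 2 + t)) % k
  set Q := ((t + 1) * y1 + t * y2 + (t ^ 2 + t)) / k
  obtain ⟨r, hr⟩ : ∃ r, r = ρ - (t ^ 2 + t) := ⟨_, rfl⟩
  have d1 := Int.emod_add_mul_ediv (2 * r + t) (2 * t + 1)
  have d2 := Int.emod_nonneg (2 * r + t) (show 2 * t + 1 ≠ 0 by omega)
  have d3 := Int.emod_lt_of_pos (2 * r + t) (show 0 < 2 * t + 1 by omega)
  set m := (2 * r + t) / (2 * t + 1)
  set n' := (2 * r + t) % (2 * t + 1)
  have hm1 : m ≤ t := by
    have : (2 * t + 1) * m < (2 * t + 1) * (t + 1) := by nlinarith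
    have := lt_of_mul_lt_mul_left this (by omega)
    omega
  have hm2 : -t ≤ m := by
    have : (2 * t + 1) * (-t - 1) < (2 * t + 1) * m := by nlinarith
    have := lt_of_mul_lt_mul_left this (by omega)
    omega
  -- `λ = r - t m`, `μ = m - λ`
  have hl1 : |r - t * m| + |m - (r - t * m)| ≤ t := by
    apply l1_of_linf
    · have : r - t * m + (m - (r - t * m)) = m := by ring
      rw [this, abs_le]; exact ⟨hm2, hm1⟩
    · have : r - t * m - (m - (r - t * m)) = n' - t := by linear_combination -d1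
      rw [this, abs_le]; constructor <;> linarith
  refine ⟨y1 - (r - t * m), y2 - (m - (r - t * m)), ⟨Q, ?_⟩, ?_⟩
  · linear_combination -c1 - hr
  · have e1 : z1 - (2 * h + 1) * (y1 - (r - t * m)) = (r1 - h) + (2 * h + 1) * (r - t * m) := by
      linear_combination -a1
    have e2 : z2 - (2 * h + 1) * (y2 - (m - (r - t * m)))
        = (r2 - h) + (2 * h + 1) * (m - (r - t * m)) := by
      linear_combination -b1
    rw [e1, e2]
    have f1 : |r1 - h| ≤ h := by rw [abs_le]; constructor <;> linarith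
    have f2 : |r2 - h| ≤ h := by rw [abs_le]; constructor <;> linarith
    have g1 := abs_add_le (r1 - h) ((2 * h + 1) * (r - t * m))
    have g2 := abs_add_le (r2 - h) ((2 * h + 1) * (m - (r - t * m)))
    rw [abs_mul, abs_of_nonneg (show (0 : ℤ) ≤ 2 * h + 1 by omega)] at g1 g2
    have hmul : (2 * h + 1) * (|r - t * m| + |m - (r - t * m)|) ≤ (2 * h + 1) * t :=
      mul_le_mul_of_nonneg_left hl1 (by omega)
    nlinarith

lemma cv_of_adm {d k s : ℕ} (hd : 2 ≤ d) (hk : 1 ≤ k) (h : Adm d s k) :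
    ∃ α β γ δ : ℤ, γ * β - δ * α = -1 ∧ Cv d s k α β := by
  unfold Adm at h
  have hdiv := Nat.div_add_mod s d
  have hmod := Nat.mod_lt s (show d > 0 by omega)
  generalize s / d = t at hdiv h
  generalize s % d = e at hdiv hmod h
  have hs' : (s : ℤ) = d * t + e := by exact_mod_cast hdiv.symm
  have hk' : (0 : ℤ) < k := by exact_mod_cast hk
  rcases h with ⟨h1, h2, h3⟩ | ⟨h1, h2⟩ | h1 | ⟨h1, h2⟩
  · obtain ⟨η, hη⟩ : ∃ η : ℕ, d = 2 * η + 1 := ⟨d / 2, by omega⟩
    refine ⟨t + 1, t, 1, 1, by ring, ?_⟩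
    have hd' : (d : ℤ) = 2 * η + 1 := by exact_mod_cast hη
    rw [hd']
    refine cv_special hk' (by positivity) (by positivity) (by exact_mod_cast h3) ?_
    rw [hs', hd']
    have : (e : ℤ) = 2 * η := by omega
    rw [this]
  · refine ⟨t + 1, t, 1, 1, by ring, ?_⟩
    refine cv_of_cov (w := 2 * t + 1) (by exact_mod_cast (by omega : 1 ≤ d)) ?_ ?_
    · have h3 : (d : ℤ) ≤ 2 * e + 1 := by exact_mod_cast h1
      rw [hs']
      have : (d : ℤ) * (2 * t + 1) = 2 * (d * t) + d := by ring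
      rw [this]; linarith
    · refine cov_cons hk' (by positivity) le_rfl ?_
      have h3 : (k : ℤ) ≤ 2 * t ^ 2 + 2 * t := by exact_mod_cast h2
      nlinarith
  · have ht1 : 1 ≤ t := by
      by_contra h0
      have : t = 0 := by omega
      rw [this] at h1
      omega
    obtain ⟨t', ht'⟩ : ∃ t', t = t' + 1 := ⟨t - 1, by omega⟩
    have ht'' : (t : ℤ) = t' + 1 := by exact_mod_cast ht'
    refine ⟨t' + 1, t', 1, 1, by ring, ?_⟩
    refine cv_of_cov (w := 2 * t) (by exact_mod_cast (by omega : 1 ≤ d)) ?_ ?_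
    · rw [hs']
      have : (d : ℤ) * (2 * t) = 2 * (d * t) := by ring
      rw [this]
      have : (0 : ℤ) ≤ e := by positivity
      linarith
    · refine cov_cons hk' (by positivity) (by rw [ht'']; linarith) ?_
      have h3 : (k : ℤ) + t ≤ 2 * t ^ 2 := by exact_mod_cast h1
      rw [ht''] at h3 ⊢
      nlinarith
  · have ht1 : 1 ≤ t := by
      by_contra h0
      have : t = 0 := by omega
      rw [this] at h1
      omega
    obtain ⟨κ, hκ⟩ : ∃ κ : ℕ, k = 2 * κ := ⟨k / 2, by omega⟩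
    have hκ' : (k : ℤ) = 2 * κ := by exact_mod_cast hκ
    obtain ⟨τ, m, hτ⟩ : ∃ τ m : ℤ, 2 * τ = t + κ * m := by
      rcases h2 with ⟨h3, h4⟩ | ⟨h3, h4⟩
      · exact ⟨(t / 2 : ℕ), 0, by push_cast; omega⟩
      · exact ⟨((t + κ) / 2 : ℕ), 1, by push_cast; omega⟩
    refine ⟨2 * τ + 1, 2 * τ - 1, τ + 1, τ, by ring, ?_⟩
    refine cv_of_cov (w := 2 * t) (by exact_mod_cast (by omega : 1 ≤ d)) ?_ ?_
    · rw [hs']
      have : (d : ℤ) * (2 * t) = 2 * (d * t) := by ring
      rw [this]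
      have : (0 : ℤ) ≤ e := by positivity
      linarith
    · rw [hκ']
      refine cov_odd (m := m) (by exact_mod_cast (by omega : 0 < κ))
        (by exact_mod_cast ht1) hτ ?_
      have h3 : (k : ℤ) ≤ 2 * t ^ 2 := by exact_mod_cast h1
      linarith


/-! ### Groups -/

/-- `[0,s]_± A = G` -/
def Spans {G : Type*} [AddCommGroup G] (A : Finset G) (s : ℕ) : Prop :=
  ∀ g : G, ∃ c : G → ℤ, ∑ a ∈ A, |c a| ≤ (s : ℤ) ∧ ∑ a ∈ A, c a • a = g

/-- `φ_±(G,[0,s])`, the least size of an `s`-spanning set -/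
noncomputable def phi (G : Type*) [AddCommGroup G] (s : ℕ) : ℕ :=
  sInf {m : ℕ | ∃ A : Finset G, A.card = m ∧ Spans A s}

/-- two elements (possibly equal) span -/
def PairSpans {G : Type*} [AddCommGroup G] (a b : G) (s : ℕ) : Prop :=
  ∀ g : G, ∃ x y : ℤ, |x| + |y| ≤ (s : ℤ) ∧ x • a + y • b = g

lemma fst_comb {m n : ℕ} (x y : ℤ) (a b : ZMod m × ZMod n) :
    (x • a + y • b).1 = (x : ZMod m) * a.1 + (y : ZMod m) * b.1 := by
  rw [Prod.fst_add, Prod.smul_fst, Prod.smul_fst, zsmul_eq_mul, zsmul_eq_mul]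

lemma snd_comb {m n : ℕ} (x y : ℤ) (a b : ZMod m × ZMod n) :
    (x • a + y • b).2 = (x : ZMod n) * a.2 + (y : ZMod n) * b.2 := by
  rw [Prod.snd_add, Prod.smul_snd, Prod.smul_snd, zsmul_eq_mul, zsmul_eq_mul]

lemma pair_of_adm {d k s : ℕ} (hd : 2 ≤ d) (hk : 1 ≤ k) (h : Adm d s k) :
    ∃ a b : ZMod d × ZMod (d * k), PairSpans a b s := by
  obtain ⟨α, β, γ, δ, hdet, hcv⟩ := cv_of_adm hd hk h
  refine ⟨((γ : ZMod d), (α : ZMod (d*k))), ((δ : ZMod d), (β : ZMod (d*k))), ?_⟩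
  rintro ⟨g1, g2⟩
  obtain ⟨p, rfl⟩ := ZMod.intCast_surjective g1
  obtain ⟨q, rfl⟩ := ZMod.intCast_surjective g2
  obtain ⟨x, y, ⟨c, h1⟩, h2⟩ := hcv (-(β * p - δ * q)) (-(γ * q - α * p))
  refine ⟨-(β * p - δ * q) - d * x, -(γ * q - α * p) - d * y, h2, ?_⟩
  rw [Prod.ext_iff]
  constructor
  · rw [fst_comb]
    simp only
    have e1 : (-(β * p - δ * q) - d * x) * γ + (-(γ * q - α * p) - d * y) * δ
        = p - d * (x * γ + y * δ) := by linear_combination -p * hdet
    have e2 := congrArg (Int.cast : ℤ → ZMod d) e1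
    push_cast at e2 ⊢
    rw [e2]; simp
  · rw [snd_comb]
    simp only
    have e1 : (-(β * p - δ * q) - d * x) * α + (-(γ * q - α * p) - d * y) * β
        = q - (d * k) * c := by linear_combination -q * hdet - (d : ℤ) * h1
    have e2 := congrArg (Int.cast : ℤ → ZMod (d*k)) e1
    have e3 : ((d : ZMod (d*k)) * (k : ZMod (d*k))) = 0 := by
      rw [← Nat.cast_mul]; exact ZMod.natCast_self _
    push_cast at e2 ⊢
    rw [e2, e3]; simp

lemma adm_of_pair {d k s : ℕ} (hd : 2 ≤ d) (hk : 1 ≤ k) {a b : ZMod d × ZMod (d * k)}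
    (h : PairSpans a b s) : Adm d s k := by
  have : NeZero d := ⟨by omega⟩
  have : NeZero (d * k) := ⟨by positivity⟩
  obtain ⟨α, hα⟩ := ZMod.intCast_surjective a.2
  obtain ⟨β, hβ⟩ := ZMod.intCast_surjective b.2
  have hdk : (0 : ℤ) < d := by exact_mod_cast (by omega : 0 < d)
  have key : ∀ z : ℤ, ((d * k : ℕ) : ℤ) ∣ d * z → (k : ℤ) ∣ z := by
    intro z hz
    push_cast at hz
    exact (mul_dvd_mul_iff_left hdk.ne').mp hz
  have hU : ∃ x0 y0 : ℤ, (k : ℤ) ∣ α * x0 + β * y0 - 1 := by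
    obtain ⟨x, y, -, hxy⟩ := h (0, 1)
    have h2 := congrArg Prod.snd hxy
    rw [snd_comb, ← hα, ← hβ] at h2
    simp only at h2
    refine ⟨x, y, ?_⟩
    have h3 : ((α * x + β * y - 1 : ℤ) : ZMod (d*k)) = 0 := by
      push_cast
      rw [← h2]; ring
    rw [ZMod.intCast_zmod_eq_zero_iff_dvd] at h3
    refine dvd_trans ?_ h3
    push_cast
    exact Dvd.intro_left _ rfl
  refine adm_of_cv hd hk hU ?_
  -- the kernel
  set π := ZMod.castHom (dvd_mul_right d k) (ZMod d) with hπ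
  have hsurj : Function.Surjective (fun x : ZMod d × ZMod d =>
      ((x.1 * a.1 + x.2 * b.1, x.1 * π a.2 + x.2 * π b.2) : ZMod d × ZMod d)) := by
    rintro ⟨p, q⟩
    obtain ⟨x, y, -, hxy⟩ := h (p, ((q.val : ℕ) : ZMod (d*k)))
    refine ⟨((x : ZMod d), (y : ZMod d)), ?_⟩
    have h1 := congrArg Prod.fst hxy
    have h2 := congrArg Prod.snd hxy
    rw [fst_comb] at h1
    rw [snd_comb] at h2
    have h3 := congrArg π h2
    rw [map_add, map_mul, map_mul, map_intCast, map_intCast, map_natCast,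
      ZMod.natCast_zmod_val] at h3
    simp only [h1, h3]
  have hinj := Finite.injective_iff_surjective.mpr hsurj
  have hker : ∀ x y : ℤ, x • a + y • b = 0 → (d : ℤ) ∣ x ∧ (d : ℤ) ∣ y := by
    intro x y hxy
    have h1 := congrArg Prod.fst hxy
    have h2 := congrArg Prod.snd hxy
    rw [fst_comb, Prod.fst_zero] at h1
    rw [snd_comb, Prod.snd_zero] at h2
    have h3 := congrArg π h2
    rw [map_add, map_mul, map_mul, map_intCast, map_intCast, map_zero] at h3
    have h4 := @hinj ((x : ZMod d), (y : ZMod d)) (0, 0) (by simp [h1, h3])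
    rw [Prod.mk.injEq] at h4
    exact ⟨(ZMod.intCast_zmod_eq_zero_iff_dvd _ _).mp h4.1,
      (ZMod.intCast_zmod_eq_zero_iff_dvd _ _).mp h4.2⟩
  intro z1 z2
  obtain ⟨x, y, h1, h2⟩ := h (z1 • a + z2 • b)
  have h3 : (z1 - x) • a + (z2 - y) • b = 0 := by
    rw [sub_smul, sub_smul]
    have : z1 • a - x • a + (z2 • b - y • b) = (z1 • a + z2 • b) - (x • a + y • b) := by abel
    rw [this, h2, sub_self]
  obtain ⟨⟨X, hX⟩, ⟨Y, hY⟩⟩ := hker _ _ h3
  refine ⟨X, Y, ?_, ?_⟩
  · apply key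
    have h4 := congrArg Prod.snd h3
    rw [snd_comb, Prod.snd_zero, ← hα, ← hβ, hX, hY] at h4
    rw [← ZMod.intCast_zmod_eq_zero_iff_dvd]
    rw [← h4]
    push_cast
    ring
  · rw [← hX, ← hY]
    simpa using h1

lemma no_single {d k : ℕ} (hd : 2 ≤ d) (a : ZMod d × ZMod (d * k)) :
    ¬ ∀ g : ZMod d × ZMod (d * k), ∃ x : ℤ, x • a = g := by
  intro h
  obtain ⟨x, hx⟩ := h (1, 0)
  obtain ⟨y, hy⟩ := h (0, 1)
  set π := ZMod.castHom (dvd_mul_right d k) (ZMod d) with hπ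
  have h1 := congrArg Prod.fst hx
  have h2 := congrArg Prod.fst hy
  have h3 := congrArg Prod.snd hy
  rw [Prod.smul_fst, zsmul_eq_mul] at h1 h2
  rw [Prod.smul_snd, zsmul_eq_mul] at h3
  have h4 := congrArg π h3
  rw [map_mul, map_intCast, map_one] at h4
  have h5 : (y : ZMod d) = 0 := by
    calc (y : ZMod d) = y * (x * a.1) := by rw [h1, mul_one]
      _ = x * (y * a.1) := by ring
      _ = 0 := by rw [h2, mul_zero]
  rw [h5, zero_mul] at h4
  have : Fact (1 < d) := ⟨by omega⟩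
  exact zero_ne_one h4

lemma two_le_of_spans {d k s : ℕ} (hd : 2 ≤ d) {A : Finset (ZMod d × ZMod (d * k))}
    (h : Spans A s) : 2 ≤ A.card := by
  by_contra hlt
  have h1 : A.card ≤ 1 := by omega
  obtain ⟨a, ha⟩ : ∃ a, A ⊆ {a} := Finset.card_le_one_iff_subset_singleton.mp h1
  apply no_single hd a
  intro g
  obtain ⟨c, -, hc⟩ := h g
  rcases Finset.subset_singleton_iff.mp ha with rfl | rfl
  · rw [Finset.sum_empty] at hc
    exact ⟨0, by rw [zero_smul, hc]⟩
  · rw [Finset.sum_singleton] at hc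
    exact ⟨c a, hc⟩

/-- **Classification.** `φ_±(Z_d × Z_{dk}, [0,s]) = 2` iff `(d, s, k)` is admissible. -/
theorem classification {d k : ℕ} (hd : 2 ≤ d) (hk : 1 ≤ k) (s : ℕ) :
    phi (ZMod d × ZMod (d * k)) s = 2 ↔ Adm d s k := by
  classical
  constructor
  · intro h
    have hne : {m : ℕ | ∃ A : Finset (ZMod d × ZMod (d * k)), A.card = m ∧ Spans A s}.Nonempty := by
      by_contra hemp
      rw [Set.not_nonempty_iff_eq_empty] at hemp
      unfold phi at h
      rw [hemp, Nat.sInf_empty] at h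
      omega
    have hmem := Nat.sInf_mem hne
    unfold phi at h
    rw [h] at hmem
    obtain ⟨A, hA, hspan⟩ := hmem
    obtain ⟨a, b, hab, rfl⟩ := Finset.card_eq_two.mp hA
    refine adm_of_pair (a := a) (b := b) hd hk ?_
    intro g
    obtain ⟨c, h1, h2⟩ := hspan g
    rw [Finset.sum_pair hab] at h1 h2
    exact ⟨c a, c b, h1, h2⟩
  · intro h
    obtain ⟨a, b, hspan⟩ := pair_of_adm hd hk h
    have hab : a ≠ b := by
      rintro rfl
      apply no_single hd a
      intro g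
      obtain ⟨x, y, -, hxy⟩ := hspan g
      exact ⟨x + y, by rw [add_smul, hxy]⟩
    have hS : Spans ({a, b} : Finset (ZMod d × ZMod (d * k))) s := by
      intro g
      obtain ⟨x, y, h1, h2⟩ := hspan g
      refine ⟨fun z => if z = a then x else y, ?_, ?_⟩
      · rw [Finset.sum_pair hab]; simp only [if_true, if_neg hab.symm]; exact h1
      · rw [Finset.sum_pair hab]; simp only [if_true, if_neg hab.symm]; exact h2
    apply le_antisymm
    · exact Nat.sInf_le ⟨{a, b}, Finset.card_pair hab, hS⟩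
    · refine le_csInf ⟨2, {a, b}, Finset.card_pair hab, hS⟩ ?_
      rintro m ⟨A, rfl, hA⟩
      exact two_le_of_spans hd hA

/-- `φ_±` is an isomorphism invariant -/
lemma spans_map {G H : Type*} [AddCommGroup G] [AddCommGroup H] (f : G ≃+ H) {A : Finset G}
    {s : ℕ} (h : Spans A s) : Spans (A.map f.toEquiv.toEmbedding) s := by
  intro g
  obtain ⟨c, h1, h2⟩ := h (f.symm g)
  refine ⟨fun z => c (f.symm z), ?_, ?_⟩
  · rw [Finset.sum_map]
    simpa using h1
  · rw [Finset.sum_map]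
    have h3 := congrArg f h2
    rw [map_sum] at h3
    simpa using h3

lemma phi_congr {G H : Type*} [AddCommGroup G] [AddCommGroup H] (f : G ≃+ H) (s : ℕ) :
    phi G s = phi H s := by
  unfold phi
  congr 1
  ext m
  constructor
  · rintro ⟨A, rfl, hA⟩
    exact ⟨A.map f.toEquiv.toEmbedding, Finset.card_map _, spans_map f hA⟩
  · rintro ⟨A, rfl, hA⟩
    exact ⟨A.map f.symm.toEquiv.toEmbedding, Finset.card_map _, spans_map f.symm hA⟩

end Pool.Agent.X7.SignedSpan
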