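import Mathlib

set_option autoImplicit false
set_option maxHeartbeats 4000000

namespace Pool.Agent.X7.CPM

open Finset

/-- `x ∈ P(a,b,c,d)` for a natural number `x`. -/
def inP (a b c d x : ℕ) : Prop := (a * x) % b + d ≤ c * x

instance (a b c d x : ℕ) : Decidable (inP a b c d x) := by unfold inP; infer_instance

/-- thresholds -/
noncomputable def T (M : ℕ) : Finset ℚ :=
  insert (-(M : ℚ) - 1) ((Icc (-(M : ℤ)) M ×ˢ Icc (1 : ℤ) M).image (fun p => (p.1 : ℚ) / p.2))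

lemma mem_T {M : ℕ} {A B : ℤ} (hA : 0 < A) (hA' : A ≤ M) (hB : |B| ≤ M) : (B : ℚ) / A ∈ T M := by
  unfold T
  apply mem_insert_of_mem
  rw [mem_image]
  refine ⟨(B, A), ?_, rfl⟩
  rw [mem_product, mem_Icc, mem_Icc]
  rw [abs_le] at hB
  exact ⟨⟨hB.1, hB.2⟩, by omega, hA'⟩

lemma T_int {M : ℕ} {s : ℚ} (hs : s ∈ T M) : ∃ z : ℤ, s * (M.factorial : ℚ) = z := by
  unfold T at hs
  rw [mem_insert, mem_image] at hs
  rcases hs with rfl | ⟨⟨B, A⟩, h, rfl⟩
  · exact ⟨(-(M : ℤ) - 1) * M.factorial, by push_cast; ring⟩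
  · rw [mem_product, mem_Icc, mem_Icc] at h
    simp only at h ⊢
    obtain ⟨-, hA1, hA2⟩ := h
    lift A to ℕ using by omega
    have hA1' : 0 < A := by omega
    have hdvd : A ∣ M.factorial := Nat.dvd_factorial hA1' (by exact_mod_cast hA2)
    obtain ⟨k, hk⟩ := hdvd
    refine ⟨B * k, ?_⟩
    rw [hk]
    have : (A : ℚ) ≠ 0 := by positivity
    push_cast
    field_simp

lemma T_lower {M : ℕ} {s : ℚ} (hs : s ∈ T M) : -(M : ℚ) - 1 ≤ s := by
  unfold T at hs
  rw [mem_insert, mem_image] at hs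
  rcases hs with rfl | ⟨⟨B, A⟩, h, rfl⟩
  · exact le_rfl
  · rw [mem_product, mem_Icc, mem_Icc] at h
    simp only at h ⊢
    obtain ⟨⟨hB1, hB2⟩, hA1, hA2⟩ := h
    have h1 : (1 : ℚ) ≤ A := by exact_mod_cast hA1
    have h2 : -(M : ℚ) ≤ B := by exact_mod_cast hB1
    have h3 : -(M : ℚ) ≤ (B : ℚ) / A := by
      rw [le_div_iff₀ (by linarith)]
      have : (0 : ℚ) ≤ M := by positivity
      nlinarith
    linarith

lemma cell (S : Finset ℚ) (t : ℚ) (hlo : ∃ s ∈ S, s ≤ t) (hhi : ∃ s ∈ S, t ≤ s) :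
    ∃ u ∈ S, ∃ v ∈ S, u ≤ t ∧ t ≤ v ∧ (∀ s ∈ S, s ≤ t → s ≤ u) ∧ (∀ s ∈ S, t ≤ s → v ≤ s) := by
  obtain ⟨s1, h1, h1'⟩ := hlo
  obtain ⟨s2, h2, h2'⟩ := hhi
  obtain ⟨u, hu, hu'⟩ := (S.filter (fun s => s ≤ t)).exists_max_image id
    ⟨s1, by rw [mem_filter]; exact ⟨h1, h1'⟩⟩
  obtain ⟨v, hv, hv'⟩ := (S.filter (fun s => t ≤ s)).exists_min_image id
    ⟨s2, by rw [mem_filter]; exact ⟨h2, h2'⟩⟩
  rw [mem_filter] at hu hv
  exact ⟨u, hu.1, v, hv.1, hu.2, hv.2, fun s hs hst => hu' s (by rw [mem_filter]; exact ⟨hs, hst⟩),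
    fun s hs hst => hv' s (by rw [mem_filter]; exact ⟨hs, hst⟩)⟩

/-- same comparisons with all elements of `S` -/
def Same (S : Finset ℚ) (t t' : ℚ) : Prop := ∀ s ∈ S, (s ≤ t ↔ s ≤ t') ∧ (t ≤ s ↔ t' ≤ s)

lemma same_of_cell {S : Finset ℚ} {t u v th : ℚ} (hut : u ≤ t) (htv : t ≤ v)
    (hu : ∀ s ∈ S, s ≤ t → s ≤ u) (hv : ∀ s ∈ S, t ≤ s → v ≤ s) (h0 : 0 < th) (h1 : th < 1) :
    Same S t ((1 - th) * u + th * v) := by
  intro s hs
  have huv : u ≤ v := hut.trans htv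
  constructor
  · constructor
    · intro h
      have := hu s hs h
      nlinarith
    · intro h
      by_contra hc
      push Not at hc
      have h2 := hv s hs hc.le
      have h3 : (1 - th) * u + th * v ≤ v := by nlinarith
      have h4 : v ≤ (1 - th) * u + th * v := h2.trans h
      have h5 : v ≤ u := by nlinarith
      linarith
  · constructor
    · intro h
      have := hv s hs h
      nlinarith
    · intro h
      by_contra hc
      push Not at hc
      have h2 := hu s hs hc.le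
      have h6 : u ≤ (1 - th) * u + th * v := by nlinarith
      have h5 : v ≤ u := by nlinarith
      linarith

lemma pres {M : ℕ} {t t' : ℚ} (h : Same (T M) t t') {A B : ℤ} (hA : |A| ≤ M) (hB : |B| ≤ M) :
    (A : ℚ) * t ≤ B ↔ (A : ℚ) * t' ≤ B := by
  rcases lt_trichotomy A 0 with hA0 | hA0 | hA0
  · have hm := mem_T (M := M) (A := -A) (B := -B) (by omega)
      (by rw [abs_of_neg hA0] at hA; exact hA) (by rwa [abs_neg])
    have h1 := (h _ hm).1
    have hpos : (0 : ℚ) < -(A : ℚ) := by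
      have : (A : ℚ) < 0 := by exact_mod_cast hA0
      linarith
    push_cast at h1
    rw [div_le_iff₀ hpos, div_le_iff₀ hpos] at h1
    constructor
    · intro h2
      have := h1.1 (by linarith)
      linarith
    · intro h2
      have := h1.2 (by linarith)
      linarith
  · subst hA0
    simp
  · have hm := mem_T (M := M) (A := A) (B := B) hA0
      (by rw [abs_of_pos hA0] at hA; exact hA) hB
    have h1 := (h _ hm).2
    have hpos : (0 : ℚ) < (A : ℚ) := by exact_mod_cast hA0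
    rw [le_div_iff₀ hpos, le_div_iff₀ hpos] at h1
    constructor
    · intro h2
      have := h1.1 (by linarith)
      linarith
    · intro h2
      have := h1.2 (by linarith)
      linarith

lemma pres_lt {M : ℕ} {t t' : ℚ} (h : Same (T M) t t') {A B : ℤ} (hA : |A| ≤ M) (hB : |B| ≤ M) :
    (B : ℚ) < (A : ℚ) * t ↔ (B : ℚ) < (A : ℚ) * t' := by
  rw [← not_le, ← not_le, pres h hA hB]

/-- The rational description of membership. -/
lemma inP_iff {a b c d x : ℕ} (hb : 0 < b) :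
    inP a b c d x ↔ ((a : ℚ) - c) / b * x + (d : ℚ) / b ≤ (((a * x) / b : ℕ) : ℚ) := by
  unfold inP
  have h1 := Nat.mod_add_div (a * x) b
  have hb' : (0 : ℚ) < b := by exact_mod_cast hb
  have h2 : (((a * x) % b : ℕ) : ℚ) + b * (((a * x) / b : ℕ) : ℚ) = a * x := by exact_mod_cast h1
  have h3 : ((a : ℚ) - c) / b * x + (d : ℚ) / b = ((a * x - c * x + d) : ℚ) / b := by
    field_simp
  rw [h3, div_le_iff₀ hb']
  constructor
  · intro h
    have h4 : (((a * x) % b : ℕ) : ℚ) + d ≤ c * x := by exact_mod_cast h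
    nlinarith
  · intro h
    have h4 : (((a * x) % b : ℕ) : ℚ) + d ≤ c * x := by nlinarith
    exact_mod_cast h4

lemma inP_mod {a b c d x : ℕ} : inP a b c d x ↔ inP (a % b) b c d x := by
  unfold inP
  rw [Nat.mod_mul_mod]

/-- Main bound -/
theorem bound (M : ℕ) (X Y : Set ℕ) (hX : ∀ x ∈ X, 1 ≤ x ∧ x ≤ M) (hXne : X.Nonempty)
    (hY : ∀ y ∈ Y, 1 ≤ y ∧ y ≤ M)
    (h : ∃ a b c d : ℕ, b ≠ 0 ∧ c ≠ 0 ∧ (∀ x ∈ X, inP a b c d x) ∧ (∀ y ∈ Y, ¬ inP a b c d y)) :
    ∃ a b c d : ℕ, b ≠ 0 ∧ c ≠ 0 ∧ (∀ x ∈ X, inP a b c d x) ∧ (∀ y ∈ Y, ¬ inP a b c d y) ∧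
      a ≤ 4 * M.factorial * (M + 2) ^ 2 ∧ b ≤ 4 * M.factorial * (M + 2) ^ 2 ∧
      c ≤ 4 * M.factorial * (M + 2) ^ 2 ∧ d ≤ 4 * M.factorial * (M + 2) ^ 2 := by
  classical
  obtain ⟨a0, b, c, d, hb, hc, hXP, hYP⟩ := h
  -- reduce a
  obtain ⟨a, ha⟩ : ∃ a, a = a0 % b := ⟨_, rfl⟩
  have hbpos : 0 < b := Nat.pos_of_ne_zero hb
  have hab : a < b := by rw [ha]; exact Nat.mod_lt _ hbpos
  have hXP' : ∀ x ∈ X, inP a b c d x := fun x hx => by rw [ha, ← inP_mod]; exact hXP x hx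
  have hYP' : ∀ y ∈ Y, ¬ inP a b c d y := fun y hy => by rw [ha, ← inP_mod]; exact hYP y hy
  have hb' : (0 : ℚ) < b := by exact_mod_cast hbpos
  have hc' : (0 : ℚ) < c := by exact_mod_cast Nat.pos_of_ne_zero hc
  set al : ℚ := (a : ℚ) / b with hal
  set be : ℚ := ((a : ℚ) - c) / b with hbe
  set de : ℚ := (d : ℚ) / b with hde
  set n : ℕ → ℕ := fun x => (a * x) / b with hn
  have hal0 : 0 ≤ al := by positivity
  have hal1 : al < 1 := by
    rw [hal, div_lt_one hb']; exact_mod_cast hab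
  have hbal : be < al := by
    rw [hal, hbe]
    exact (div_lt_div_iff_of_pos_right hb').2 (by linarith)
  have hde0 : 0 ≤ de := by positivity
  have hn1 : ∀ x, ((n x : ℕ) : ℚ) ≤ al * x := by
    intro x
    have h1 := Nat.div_mul_le_self (a * x) b
    have h2 : ((n x : ℕ) : ℚ) * b ≤ a * x := by exact_mod_cast h1
    rw [hal, div_mul_eq_mul_div, le_div_iff₀ hb']
    exact h2
  have hn2 : ∀ x, al * x < ((n x : ℕ) : ℚ) + 1 := by
    intro x
    have h1 := Nat.lt_div_mul_add hbpos (a := a * x)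
    have h2 : (a : ℚ) * x < (n x : ℕ) * b + b := by exact_mod_cast h1
    rw [hal, div_mul_eq_mul_div, div_lt_iff₀ hb']
    linarith
  have hnx : ∀ x, 1 ≤ x → n x + 1 ≤ x := by
    intro x hx
    have h1 := hn1 x
    have h2 : al * x < x := by
      have : (1 : ℚ) ≤ x := by exact_mod_cast hx
      nlinarith
    have h3 : ((n x : ℕ) : ℚ) < x := by linarith
    have h4 : n x < x := by exact_mod_cast h3
    omega
  have hXfin : X.Finite := (Set.finite_Icc 1 M).subset fun x hx => ⟨(hX x hx).1, (hX x hx).2⟩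
  -- the minimising generator
  obtain ⟨x0, hx0, hx0min⟩ := Set.exists_min_image X (fun x => ((n x : ℕ) : ℚ) - be * x) hXfin hXne
  have hx0M := hX x0 hx0
  have hM1 : 1 ≤ M := hx0M.1.trans hx0M.2
  have hgen : ∀ x ∈ X, be * x + de ≤ n x := fun x hx => (inP_iff hbpos).1 (hXP' x hx)
  have hgap : ∀ y ∈ Y, (n y : ℚ) < be * y + de := fun y hy => by
    have := mt (inP_iff hbpos).2 (hYP' y hy)
    push Not at this
    exact this
  -- constraints on `be` only
  have hpos0 : ((x0 : ℤ) : ℚ) * be ≤ ((n x0 : ℤ) : ℚ) := by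
    have := hgen x0 hx0
    push_cast
    linarith
  have hgen0 : ∀ x ∈ X, (((x : ℤ) - x0 : ℤ) : ℚ) * be ≤ (((n x : ℤ) - n x0 : ℤ) : ℚ) := by
    intro x hx
    have := hx0min x hx
    push_cast
    linarith
  have hgap0 : ∀ y ∈ Y, (((n y : ℤ) - n x0 : ℤ) : ℚ) < (((y : ℤ) - x0 : ℤ) : ℚ) * be := by
    intro y hy
    have h1 := hgap y hy
    have h2 := hgen x0 hx0
    push_cast
    linarith
  -- clamp
  obtain ⟨be1, hbe1lo, hbe1al, hbe1⟩ : ∃ be1 : ℚ, -(M : ℚ) - 1 ≤ be1 ∧ be1 < al ∧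
      ∀ A B : ℤ, |A| ≤ M → |B| ≤ M → ((A : ℚ) * be ≤ B ↔ (A : ℚ) * be1 ≤ B) := by
    by_cases hcl : -(M : ℚ) - 1 ≤ be
    · exact ⟨be, hcl, hbal, fun _ _ _ _ => Iff.rfl⟩
    · push Not at hcl
      have hMq : (0 : ℚ) ≤ M := by positivity
      refine ⟨-(M : ℚ) - 1, le_rfl, by linarith, ?_⟩
      intro A B hA hB
      rw [abs_le] at hA hB
      have hB1 : -(M : ℚ) ≤ B := by exact_mod_cast hB.1
      have hB2 : (B : ℚ) ≤ M := by exact_mod_cast hB.2
      rcases lt_trichotomy A 0 with hA0 | hA0 | hA0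
      · have h1 : (A : ℚ) ≤ -1 := by
          have : A ≤ -1 := by omega
          exact_mod_cast this
        constructor
        · intro h; exfalso; nlinarith
        · intro h; exfalso; nlinarith
      · subst hA0; simp
      · have h1 : (1 : ℚ) ≤ A := by
          have : 1 ≤ A := by omega
          exact_mod_cast this
        constructor
        · intro h; nlinarith
        · intro h; nlinarith
  have hMq : (1 : ℚ) ≤ M := by exact_mod_cast hM1
  have hT0 : (0 : ℚ) ∈ T M := by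
    have := mem_T (M := M) (A := 1) (B := 0) one_pos (by exact_mod_cast hM1) (by simp)
    simpa using this
  have hT1 : (1 : ℚ) ∈ T M := by
    have := mem_T (M := M) (A := 1) (B := 1) one_pos (by exact_mod_cast hM1) (by simpa using hM1)
    simpa using this
  have hTm : (-(M : ℚ) - 1) ∈ T M := by unfold T; exact mem_insert_self _ _
  obtain ⟨u1, hu1, v1, hv1, hu1t, hv1t, hu1m, hv1m⟩ := cell (T M) be1 ⟨_, hTm, hbe1lo⟩
    ⟨1, hT1, by linarith⟩
  obtain ⟨u2, hu2, v2, hv2, hu2t, hv2t, hu2m, hv2m⟩ := cell (T M) al ⟨0, hT0, hal0⟩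
    ⟨1, hT1, hal1.le⟩
  have hs1 := same_of_cell hu1t hv1t hu1m hv1m (th := 1 / 2) (by norm_num) (by norm_num)
  have hs2 := same_of_cell hu2t hv2t hu2m hv2m (th := 3 / 4) (by norm_num) (by norm_num)
  set be' : ℚ := (1 - 1 / 2) * u1 + 1 / 2 * v1 with hbe'
  set al' : ℚ := (1 - 3 / 4) * u2 + 3 / 4 * v2 with hal'
  have hbal' : be' < al' := by
    by_cases h1 : v1 ≤ u2
    · by_contra hcon
      push Not at hcon
      have e1 : u1 ≤ v1 := hu1t.trans hv1t
      have e2 : u2 ≤ v2 := hu2t.trans hv2t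
      have e3 : v1 ≤ u1 := by linarith
      have e4 : v2 ≤ u2 := by linarith
      linarith
    · push Not at h1
      have e1 : u2 < be1 := by
        by_contra hcon
        push Not at hcon
        exact absurd (hv1m u2 hu2 hcon) (by linarith)
      have e2 : u2 ≤ u1 := hu1m u2 hu2 e1.le
      have e3 : u1 ≤ u2 := hu2m u1 hu1 (by linarith)
      have e4 : al < v1 := by
        by_contra hcon
        push Not at hcon
        exact absurd (hu2m v1 hv1 hcon) (by linarith)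
      have e5 : v2 ≤ v1 := hv2m v1 hv1 e4.le
      have e6 : v1 ≤ v2 := hv1m v2 hv2 (by linarith)
      linarith
  have hal'0 : 0 ≤ al' := ((hs2 0 hT0).1).1 hal0
  have hal'1 : al' < 1 := by
    have := ((hs2 1 hT1).1).not.1 (by linarith)
    linarith
  -- integrality
  obtain ⟨z1, hz1⟩ := T_int hu1
  obtain ⟨z2, hz2⟩ := T_int hv1
  obtain ⟨z3, hz3⟩ := T_int hu2
  obtain ⟨z4, hz4⟩ := T_int hv2
  obtain ⟨F, hF⟩ : ∃ F : ℕ, F = M.factorial := ⟨_, rfl⟩
  have hFpos : 0 < F := by rw [hF]; exact Nat.factorial_pos M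
  rw [← hF] at hz1 hz2 hz3 hz4
  have hFq : (0 : ℚ) < F := by exact_mod_cast hFpos
  set b' : ℕ := 4 * F with hb'def
  have hb'pos : 0 < b' := by omega
  have hb'q : (b' : ℚ) = 4 * F := by rw [hb'def]; push_cast; ring
  have hb'qpos : (0 : ℚ) < b' := by exact_mod_cast hb'pos
  have e1 : al' * b' = ((z3 + 3 * z4 : ℤ) : ℚ) := by
    rw [hb'q, hal']; push_cast; rw [← hz3, ← hz4]; ring
  have e2 : be' * b' = ((2 * (z1 + z2) : ℤ) : ℚ) := by
    rw [hb'q, hbe']; push_cast; rw [← hz1, ← hz2]; ring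
  obtain ⟨a', ha'⟩ : ∃ a' : ℕ, (a' : ℤ) = z3 + 3 * z4 := by
    have h1 : (0 : ℚ) ≤ ((z3 + 3 * z4 : ℤ) : ℚ) := by rw [← e1]; positivity
    have h2 : 0 ≤ z3 + 3 * z4 := by exact_mod_cast h1
    exact ⟨(z3 + 3 * z4).toNat, Int.toNat_of_nonneg h2⟩
  have ha'q : al' * b' = a' := by rw [e1, ← ha']; push_cast; rfl
  obtain ⟨c', hc'1⟩ : ∃ c' : ℕ, (c' : ℤ) = z3 + 3 * z4 - 2 * (z1 + z2) := by
    have h1 : (0 : ℚ) ≤ ((z3 + 3 * z4 - 2 * (z1 + z2) : ℤ) : ℚ) := by
      rw [Int.cast_sub, ← e1, ← e2, ← sub_mul]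
      have : 0 ≤ al' - be' := by linarith
      positivity
    have h2 : 0 ≤ z3 + 3 * z4 - 2 * (z1 + z2) := by exact_mod_cast h1
    exact ⟨_, Int.toNat_of_nonneg h2⟩
  have hc'q : (al' - be') * b' = c' := by
    have : ((c' : ℤ) : ℚ) = ((z3 + 3 * z4 - 2 * (z1 + z2) : ℤ) : ℚ) := by rw [hc'1]
    rw [Int.cast_sub, ← e1, ← e2] at this
    push_cast at this
    rw [this]; ring
  have hc'pos : c' ≠ 0 := by
    intro h0
    rw [h0] at hc'q
    have : 0 < (al' - be') * b' := mul_pos (by linarith) hb'qpos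
    rw [hc'q] at this
    simp at this
  -- same comparisons for be
  have hpresb : ∀ A B : ℤ, |A| ≤ M → |B| ≤ M → ((A : ℚ) * be ≤ B ↔ (A : ℚ) * be' ≤ B) :=
    fun A B hA hB => (hbe1 A B hA hB).trans (pres hs1 hA hB)
  have hnxM : ∀ x, 1 ≤ x → x ≤ M → n x ≤ M := fun x h1 h2 => by have := hnx x h1; omega
  have hpos1 : ((x0 : ℤ) : ℚ) * be' ≤ ((n x0 : ℤ) : ℚ) := by
    refine (hpresb _ _ ?_ ?_).1 hpos0
    · rw [abs_of_nonneg (by positivity)]; exact_mod_cast hx0M.2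
    · rw [abs_of_nonneg (by positivity)]; exact_mod_cast hnxM x0 hx0M.1 hx0M.2
  have hgen1 : ∀ x ∈ X, (((x : ℤ) - x0 : ℤ) : ℚ) * be' ≤ (((n x : ℤ) - n x0 : ℤ) : ℚ) := by
    intro x hx
    have h1 := hX x hx
    have h2 := hnxM x h1.1 h1.2
    have h3 := hnxM x0 hx0M.1 hx0M.2
    refine (hpresb _ _ ?_ ?_).1 (hgen0 x hx)
    · rw [abs_le]; omega
    · rw [abs_le]; omega
  have hgap1 : ∀ y ∈ Y, (((n y : ℤ) - n x0 : ℤ) : ℚ) < (((y : ℤ) - x0 : ℤ) : ℚ) * be' := by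
    intro y hy
    have h1 := hY y hy
    have h2 := hnxM y h1.1 h1.2
    have h3 := hnxM x0 hx0M.1 hx0M.2
    rw [← not_le, ← hpresb, not_le]
    · exact hgap0 y hy
    · rw [abs_le]; omega
    · rw [abs_le]; omega
  -- d'
  obtain ⟨d', hd'⟩ : ∃ d' : ℕ, (d' : ℤ) = n x0 * b' - x0 * (2 * (z1 + z2)) := by
    have h1 : (0 : ℚ) ≤ ((n x0 * b' - x0 * (2 * (z1 + z2)) : ℤ) : ℚ) := by
      have h2 : ((n x0 * b' - x0 * (2 * (z1 + z2)) : ℤ) : ℚ) = ((n x0 : ℤ) : ℚ) * b' -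
          ((x0 : ℤ) : ℚ) * ((2 * (z1 + z2) : ℤ) : ℚ) := by push_cast; ring
      rw [h2, ← e2]
      nlinarith
    have h2 : 0 ≤ (n x0 * b' - x0 * (2 * (z1 + z2)) : ℤ) := by exact_mod_cast h1
    exact ⟨_, Int.toNat_of_nonneg h2⟩
  have hd'q : ((n x0 : ℚ) - x0 * be') * b' = d' := by
    have h1 : ((d' : ℤ) : ℚ) = ((n x0 * b' - x0 * (2 * (z1 + z2)) : ℤ) : ℚ) := by rw [hd']
    have h2 : ((n x0 * b' - x0 * (2 * (z1 + z2)) : ℤ) : ℚ) = ((n x0 : ℤ) : ℚ) * b' -
          ((x0 : ℤ) : ℚ) * ((2 * (z1 + z2) : ℤ) : ℚ) := by push_cast; ring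
    rw [h2, ← e2] at h1
    push_cast at h1
    rw [h1]; ring
  -- floors agree
  have hfl : ∀ x, 1 ≤ x → x ≤ M → (a' * x) / b' = n x := by
    intro x h1 h2
    have h3 := hnx x h1
    have hxq : (1 : ℚ) ≤ x := by exact_mod_cast h1
    have k1 : ((n x : ℕ) : ℚ) ≤ al' * x := by
      have := (pres (M := M) hs2 (A := -(x : ℤ)) (B := -(n x : ℤ)) (by rw [abs_neg]; simpa using h2)
        (by rw [abs_neg]; simp; omega)).1 (by
          push_cast
          have := hn1 x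
          linarith)
      push_cast at this
      linarith
    have k2 : al' * x < ((n x : ℕ) : ℚ) + 1 := by
      have := (pres_lt (M := M) hs2 (A := -(x : ℤ)) (B := -((n x : ℤ) + 1))
        (by rw [abs_neg]; simpa using h2)
        (by rw [abs_neg, abs_of_nonneg (by positivity)]; omega)).1 (by
          push_cast
          have := hn2 x
          linarith)
      push_cast at this
      linarith
    have k3 : (n x : ℚ) * b' ≤ a' * x := by
      rw [← ha'q]; nlinarith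
    have k4 : (a' : ℚ) * x < (n x + 1) * b' := by
      rw [← ha'q]; nlinarith
    have k3' : n x * b' ≤ a' * x := by exact_mod_cast k3
    have k4' : a' * x < (n x + 1) * b' := by exact_mod_cast k4
    apply Nat.div_eq_of_lt_le
    · exact k3'
    · exact k4'
  have hinP : ∀ x, 1 ≤ x → x ≤ M → (inP a' b' c' d' x ↔
      (((x : ℤ) - x0 : ℤ) : ℚ) * be' ≤ (((n x : ℤ) - n x0 : ℤ) : ℚ)) := by
    intro x h1 h2
    rw [inP_iff hb'pos, hfl x h1 h2]
    have h3 : ((a' : ℚ) - c') / b' = be' := by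
      rw [← ha'q, ← hc'q]
      field_simp
      ring
    have h4 : (d' : ℚ) / b' = (n x0 : ℚ) - x0 * be' := by
      rw [← hd'q]; field_simp
    rw [h3, h4]
    push_cast
    constructor
    · intro h; linarith
    · intro h; linarith
  have hbelo : -(M : ℚ) - 1 ≤ be' := by
    have g1 := T_lower hu1
    have g2 := T_lower hv1
    rw [hbe']; linarith
  have hK : (F : ℚ) * 4 * (M + 2) ^ 2 = ((4 * F * (M + 2) ^ 2 : ℕ) : ℚ) := by push_cast; ring
  refine ⟨a', b', c', d', by omega, hc'pos, ?_, ?_, ?_, ?_, ?_, ?_⟩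
  · intro x hx
    rw [hinP x (hX x hx).1 (hX x hx).2]
    exact hgen1 x hx
  · intro y hy
    rw [hinP y (hY y hy).1 (hY y hy).2, not_le]
    exact hgap1 y hy
  · rw [← hF]
    have h1 : (a' : ℚ) ≤ ((4 * F * (M + 2) ^ 2 : ℕ) : ℚ) := by
      rw [← ha'q, ← hK, hb'q]
      have g0 : al' * (4 * F) ≤ 4 * F := by nlinarith
      have g1 : (1 : ℚ) ≤ (M + 2 : ℚ) ^ 2 := by nlinarith
      have g2 : (4 * F : ℚ) * 1 ≤ (4 * F) * (M + 2) ^ 2 := mul_le_mul_of_nonneg_left g1 (by positivity)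
      linarith
    exact_mod_cast h1
  · rw [← hF, hb'def]
    have : 1 ≤ (M + 2) ^ 2 := Nat.one_le_pow _ _ (by omega)
    nlinarith
  · rw [← hF]
    have h1 : (c' : ℚ) ≤ ((4 * F * (M + 2) ^ 2 : ℕ) : ℚ) := by
      rw [← hc'q, ← hK, hb'q]
      have g0 : al' - be' ≤ M + 2 := by linarith
      have g1 : (M + 2 : ℚ) ≤ (M + 2 : ℚ) ^ 2 := by nlinarith
      have g2 : (al' - be') * (4 * F) ≤ (M + 2) ^ 2 * (4 * F) :=
        mul_le_mul_of_nonneg_right (by linarith) (by positivity)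
      linarith
    exact_mod_cast h1
  · rw [← hF]
    have h1 : (d' : ℚ) ≤ ((4 * F * (M + 2) ^ 2 : ℕ) : ℚ) := by
      rw [← hd'q, ← hK, hb'q]
      have g0 : (n x0 : ℚ) ≤ M := by exact_mod_cast hnxM x0 hx0M.1 hx0M.2
      have g3 : (x0 : ℚ) ≤ M := by exact_mod_cast hx0M.2
      have g4 : (0 : ℚ) ≤ x0 := by positivity
      have g5 : -(x0 * be') ≤ (M : ℚ) * (M + 1) := by
        have g6 : (x0 : ℚ) * (-(M : ℚ) - 1) ≤ x0 * be' := mul_le_mul_of_nonneg_left hbelo g4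
        have g7 : (x0 : ℚ) * (M + 1) ≤ M * (M + 1) := mul_le_mul_of_nonneg_right g3 (by positivity)
        linarith
      have g1 : (n x0 : ℚ) - x0 * be' ≤ (M + 2 : ℚ) ^ 2 := by
        have g8 : (M + 2 : ℚ) ^ 2 = M * (M + 1) + 3 * M + 4 := by ring
        rw [g8]; linarith
      have g2 : ((n x0 : ℚ) - x0 * be') * (4 * F) ≤ (M + 2) ^ 2 * (4 * F) :=
        mul_le_mul_of_nonneg_right g1 (by positivity)
      linarith
    exact_mod_cast h1

end Pool.Agent.X7.CPM
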