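import Mathlib

/-!
# Half-integrality for laminar families of triangles

`x e`, `y e` are the two faces at the edge `e`; the boundary of a set `A` of faces is `cutF A`.
-/

set_option autoImplicit false
set_option maxHeartbeats 4000000
set_option linter.unusedSectionVars false

namespace Pool.Agent.X7.TriHalf

open Finset

variable {E K : Type} [DecidableEq E]

/-- being an integer -/
def I (q : ℚ) : Prop := ∃ z : ℤ, q = z

lemma I.add {a b : ℚ} (ha : I a) (hb : I b) : I (a + b) := by
  obtain ⟨z, rfl⟩ := ha; obtain ⟨w, rfl⟩ := hb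
  exact ⟨z + w, by push_cast; rfl⟩

lemma I.neg {a : ℚ} (ha : I a) : I (-a) := by
  obtain ⟨z, rfl⟩ := ha
  exact ⟨-z, by push_cast; rfl⟩

lemma I.sub {a b : ℚ} (ha : I a) (hb : I b) : I (a - b) := by
  rw [sub_eq_add_neg]; exact ha.add hb.neg

lemma I.zero : I 0 := ⟨0, by simp⟩

lemma I.sum {ι : Type*} (s : Finset ι) (f : ι → ℚ) (h : ∀ i ∈ s, I (f i)) : I (∑ i ∈ s, f i) := by
  classical
  induction s using Finset.induction_on with
  | empty => simpa using I.zero
  | insert a s ha ih =>
    rw [sum_insert ha]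
    exact (h a (mem_insert_self _ _)).add (ih fun i hi => h i (mem_insert_of_mem hi))

open Classical in
/-- the edges of `EH` with exactly one of their two faces in `A` -/
noncomputable def cutF (x y : E → K) (EH : Finset E) (A : Set K) : Finset E :=
  EH.filter (fun e => ¬ (x e ∈ A ↔ y e ∈ A))

variable {x y : E → K} {EH : Finset E} {f0 : K}

lemma mem_cutF {A : Set K} {e : E} : e ∈ cutF x y EH A ↔ e ∈ EH ∧ ¬ (x e ∈ A ↔ y e ∈ A) := by
  classical
  unfold cutF
  simp only [mem_filter]

/-- hypotheses on the face structure -/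
structure Hyp (x y : E → K) (EH : Finset E) (f0 : K) : Prop where
  three : ∀ A : Set K, (cutF x y EH A).Nonempty → 3 ≤ (cutF x y EH A).card
  uniq : ∀ A : Set K, f0 ∉ A → cutF x y EH A = ∅ → A = ∅

/-- `T` is a triangle with region `R` -/
structure Reg (x y : E → K) (EH : Finset E) (f0 : K) (T : Finset E) (R : Set K) : Prop where
  out : f0 ∉ R
  cut : cutF x y EH R = T
  card : T.card = 3

lemma Hyp.eq_of_cut (h : Hyp x y EH f0) {A B : Set K} (hA : f0 ∉ A) (hB : f0 ∉ B)
    (e : cutF x y EH A = cutF x y EH B) : A = B := by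
  have h1 : symmDiff A B = ∅ := by
    apply h.uniq
    · rw [Set.mem_symmDiff]; tauto
    · rw [eq_empty_iff_forall_notMem]
      intro e' he'
      have h2 : e' ∈ cutF x y EH A ↔ e' ∈ cutF x y EH B := by rw [e]
      rw [mem_cutF, mem_cutF] at h2
      rw [mem_cutF, Set.mem_symmDiff, Set.mem_symmDiff] at he'
      tauto
  rw [Set.symmDiff_eq_empty] at h1
  exact h1

lemma Reg.nonempty {T : Finset E} {R : Set K} (h : Reg x y EH f0 T R) : R.Nonempty := by
  by_contra hc
  rw [Set.not_nonempty_iff_eq_empty] at hc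
  have h1 := h.cut
  have h2 := h.card
  subst hc
  have : cutF x y EH (∅ : Set K) = ∅ := by
    rw [eq_empty_iff_forall_notMem]; intro e he; rw [mem_cutF] at he; simp at he
  rw [this] at h1
  rw [← h1] at h2
  simp at h2

lemma Reg.inj {T T' : Finset E} {R : Set K} (h : Reg x y EH f0 T R) (h' : Reg x y EH f0 T' R) :
    T = T' := by rw [← h.cut, ← h'.cut]

open Classical in
lemma card_cutF (A : Set K) : (cutF x y EH A).card =
    ∑ e ∈ EH, (if ¬ (x e ∈ A ↔ y e ∈ A) then 1 else 0) := by
  unfold cutF; rw [card_filter]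

/-- Two triangles do not cross. -/
lemma laminar (h : Hyp x y EH f0) {T1 T2 : Finset E} {A B : Set K} (hA : Reg x y EH f0 T1 A)
    (hB : Reg x y EH f0 T2 B) : A ∩ B = ∅ ∨ A ⊆ B ∨ B ⊆ A := by
  classical
  by_contra hcon
  push Not at hcon
  obtain ⟨h1, h2, h3⟩ := hcon
  have c3 : ∀ C : Set K, C.Nonempty → f0 ∉ C → 3 ≤ (cutF x y EH C).card := by
    intro C hC hf
    apply h.three
    rw [nonempty_iff_ne_empty]
    intro he
    have := h.uniq C hf he
    rw [this] at hC
    exact Set.not_nonempty_empty hC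
  have ha := c3 (A ∩ B) h1 (fun hf => hA.out hf.1)
  have hb := c3 (A \ B) (Set.sdiff_nonempty.2 h2) (fun hf => hA.out hf.1)
  have hc := c3 (B \ A) (Set.sdiff_nonempty.2 h3) (fun hf => hB.out hf.1)
  have hu := c3 (A ∪ B) (hA.nonempty.mono Set.subset_union_left) (fun hf => hf.elim hA.out hB.out)
  have e1 : (cutF x y EH A).card = 3 := by rw [hA.cut, hA.card]
  have e2 : (cutF x y EH B).card = 3 := by rw [hB.cut, hB.card]
  have k1 : (cutF x y EH (A ∩ B)).card + (cutF x y EH (A \ B)).card + (cutF x y EH (B \ A)).card +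
      (cutF x y EH (A ∪ B)).card ≤ 2 * (cutF x y EH A).card + 2 * (cutF x y EH B).card := by
    rw [card_cutF, card_cutF, card_cutF, card_cutF, card_cutF, card_cutF, mul_sum, mul_sum,
      ← sum_add_distrib, ← sum_add_distrib, ← sum_add_distrib, ← sum_add_distrib]
    apply sum_le_sum
    intro e _
    simp only [Set.mem_inter_iff, Set.mem_sdiff, Set.mem_union]
    by_cases a1 : x e ∈ A <;> by_cases a2 : y e ∈ A <;> by_cases b1 : x e ∈ B <;>
      by_cases b2 : y e ∈ B <;> simp [a1, a2, b1, b2]
  have k2 : Even ((cutF x y EH (A ∩ B)).card + (cutF x y EH (A \ B)).card +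
      (cutF x y EH A).card) := by
    rw [card_cutF, card_cutF, card_cutF, ← sum_add_distrib, ← sum_add_distrib]
    apply Finset.even_sum
    intro e _
    simp only [Set.mem_inter_iff, Set.mem_sdiff]
    by_cases a1 : x e ∈ A <;> by_cases a2 : y e ∈ A <;> by_cases b1 : x e ∈ B <;>
      by_cases b2 : y e ∈ B <;> simp [a1, a2, b1, b2]
  have k3 : Even ((cutF x y EH (B \ A)).card + (cutF x y EH (A ∪ B)).card +
      (cutF x y EH A).card) := by
    rw [card_cutF, card_cutF, card_cutF, ← sum_add_distrib, ← sum_add_distrib]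
    apply Finset.even_sum
    intro e _
    simp only [Set.mem_union, Set.mem_sdiff]
    by_cases a1 : x e ∈ A <;> by_cases a2 : y e ∈ A <;> by_cases b1 : x e ∈ B <;>
      by_cases b2 : y e ∈ B <;> simp [a1, a2, b1, b2]
  obtain ⟨r1, hr1⟩ := k2
  obtain ⟨r2, hr2⟩ := k3
  omega

/-- pairwise disjoint regions -/
def PD (reg : Finset E → Set K) (D : Finset (Finset E)) : Prop :=
  ∀ T ∈ D, ∀ T' ∈ D, ∀ z, z ∈ reg T → z ∈ reg T' → T = T'

section

variable {reg : Finset E → Set K} {D : Finset (Finset E)}

lemma mem_iff {T : Finset E} {R : Set K} (h : Reg x y EH f0 T R) {e : E} (he : e ∈ EH) :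
    e ∈ T ↔ ¬ (x e ∈ R ↔ y e ∈ R) := by
  rw [← h.cut, mem_cutF]; exact and_iff_right he

lemma sub_EH {T : Finset E} {R : Set K} (h : Reg x y EH f0 T R) {e : E} (he : e ∈ T) : e ∈ EH := by
  rw [← h.cut, mem_cutF] at he; exact he.1

lemma le_two (hreg : ∀ T ∈ D, Reg x y EH f0 T (reg T)) (hPD : PD reg D) {e : E} (he : e ∈ EH) :
    (D.filter (fun T => e ∈ T)).card ≤ 2 := by
  classical
  have h1 : (D.filter (fun T => x e ∈ reg T)).card ≤ 1 := by
    rw [card_le_one]
    intro a ha b hb
    rw [mem_filter] at ha hb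
    exact hPD a ha.1 b hb.1 _ ha.2 hb.2
  have h2 : (D.filter (fun T => y e ∈ reg T)).card ≤ 1 := by
    rw [card_le_one]
    intro a ha b hb
    rw [mem_filter] at ha hb
    exact hPD a ha.1 b hb.1 _ ha.2 hb.2
  have h3 : D.filter (fun T => e ∈ T) ⊆
      D.filter (fun T => x e ∈ reg T) ∪ D.filter (fun T => y e ∈ reg T) := by
    intro T hT
    rw [mem_filter] at hT
    rw [mem_union, mem_filter, mem_filter]
    have := (mem_iff (hreg T hT.1) he).1 hT.2
    tauto
  have := (card_le_card h3).trans (card_union_le _ _)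
  omega

lemma parity (hreg : ∀ T ∈ D, Reg x y EH f0 T (reg T)) (hPD : PD reg D) {e : E} (he : e ∈ EH) :
    e ∈ cutF x y EH (⋃ T ∈ D, reg T) ↔ ¬ Even (D.filter (fun T => e ∈ T)).card := by
  classical
  have hone : ∀ z : K, (D.filter (fun T => z ∈ reg T)).card =
      if z ∈ (⋃ T ∈ D, reg T) then 1 else 0 := by
    intro z
    split_ifs with hz
    · rw [Set.mem_iUnion₂] at hz
      obtain ⟨T, hT, hzT⟩ := hz
      rw [card_eq_one]
      refine ⟨T, ?_⟩
      ext T'
      rw [mem_filter, mem_singleton]
      constructor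
      · rintro ⟨h1, h2⟩
        exact hPD T' h1 T hT z h2 hzT
      · rintro rfl
        exact ⟨hT, hzT⟩
    · rw [card_eq_zero, filter_eq_empty_iff]
      intro T hT hzT
      exact hz (Set.mem_iUnion₂.2 ⟨T, hT, hzT⟩)
  have hsum : Even ((D.filter (fun T => e ∈ T)).card + (D.filter (fun T => x e ∈ reg T)).card +
      (D.filter (fun T => y e ∈ reg T)).card) := by
    rw [card_filter, card_filter, card_filter, ← sum_add_distrib, ← sum_add_distrib]
    apply Finset.even_sum
    intro T hT
    have := mem_iff (hreg T hT) he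
    by_cases a1 : x e ∈ reg T <;> by_cases a2 : y e ∈ reg T <;> simp [this, a1, a2]
  rw [hone, hone] at hsum
  rw [mem_cutF]
  rw [and_iff_right he]
  by_cases a1 : x e ∈ (⋃ T ∈ D, reg T) <;> by_cases a2 : y e ∈ (⋃ T ∈ D, reg T)
  · simp only [a1, a2, if_true] at hsum ⊢
    obtain ⟨r, hr⟩ := hsum
    have : Even (D.filter (fun T => e ∈ T)).card := ⟨r - 1, by omega⟩
    simp [this]
  · simp only [a1, a2, if_true, if_false, add_zero] at hsum ⊢
    rw [Nat.even_add_one] at hsum
    simp [hsum]
  · simp only [a1, a2, if_true, if_false, add_zero] at hsum ⊢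
    rw [Nat.even_add_one] at hsum
    simp [hsum]
  · simp only [a1, a2, if_false, add_zero] at hsum ⊢
    simp [hsum]

end

/-- linear independence of the columns -/
def Indep (EH : Finset E) (S : Finset (Finset E)) : Prop :=
  ∀ c : Finset E → ℚ, (∀ e ∈ EH, ∑ T ∈ S.filter (fun T => e ∈ T), c T = 0) → ∀ T ∈ S, c T = 0

lemma Indep.subset {S S' : Finset (Finset E)} (h : Indep EH S) (hS : S' ⊆ S) : Indep EH S' := by
  classical
  intro c hc T hT
  have := h (fun T => if T ∈ S' then c T else 0) (by
    intro e he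
    have e1 : ∑ T ∈ S.filter (fun T => e ∈ T), (if T ∈ S' then c T else 0) =
        ∑ T ∈ (S.filter (fun T => e ∈ T)).filter (fun T => T ∈ S'), c T := (sum_filter _ _).symm
    rw [e1, ← hc e he]
    apply sum_congr _ fun _ _ => rfl
    ext T'
    simp only [mem_filter]
    constructor
    · rintro ⟨⟨h1, h2⟩, h3⟩; exact ⟨h3, h2⟩
    · rintro ⟨h1, h2⟩; exact ⟨⟨hS h1, h2⟩, h1⟩) T (hS hT)
  simpa [hT] using this

/-- main theorem -/
theorem half (h : Hyp x y EH f0) (reg : Finset E → Set K) :
    ∀ (n : ℕ) (S : Finset (Finset E)), S.card = n → (∀ T ∈ S, Reg x y EH f0 T (reg T)) →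
      Indep EH S → ∀ X : Finset E → ℚ,
      (∀ e ∈ EH, I (∑ T ∈ S.filter (fun T => e ∈ T), X T)) → ∀ T ∈ S, I (2 * X T) := by
  classical
  intro n
  induction n using Nat.strong_induction_on with
  | _ n ih =>
  intro S hSn hreg hind X hX
  by_cases hnest : ∃ T0 ∈ S, ∃ T1 ∈ S, reg T1 ⊂ reg T0
  swap
  · -- no nesting: all values are integers
    have hPD : PD reg S := by
      intro T hT T' hT' z hz hz'
      rcases laminar h (hreg T hT) (hreg T' hT') with h1 | h1 | h1
      · exfalso
        have : z ∈ reg T ∩ reg T' := ⟨hz, hz'⟩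
        rw [h1] at this; exact this
      · rcases eq_or_ne (reg T) (reg T') with h2 | h2
        · have := hreg T hT
          rw [h2] at this
          exact this.inj (hreg T' hT')
        · exact absurd ⟨T', hT', T, hT, lt_of_le_of_ne h1 h2⟩ hnest
      · rcases eq_or_ne (reg T) (reg T') with h2 | h2
        · have := hreg T hT
          rw [h2] at this
          exact this.inj (hreg T' hT')
        · exact absurd ⟨T, hT, T', hT', lt_of_le_of_ne h1 h2.symm⟩ hnest
    have hall : ∀ T ∈ S, I (X T) := by
      by_contra hcon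
      push Not at hcon
      obtain ⟨T1, hT1, hT1'⟩ := hcon
      set C := S.filter (fun T => ¬ I (X T)) with hC
      have hCS : C ⊆ S := filter_subset _ _
      have hPDC : PD reg C := fun T hT T' hT' z hz hz' => hPD T (hCS hT) T' (hCS hT') z hz hz'
      have hregC : ∀ T ∈ C, Reg x y EH f0 T (reg T) := fun T hT => hreg T (hCS hT)
      have hcut : cutF x y EH (⋃ T ∈ C, reg T) = ∅ := by
        rw [eq_empty_iff_forall_notMem]
        intro e he
        have heE := (mem_cutF.1 he).1
        rw [parity hregC hPDC heE] at he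
        apply he
        have h2 := le_two hregC hPDC heE
        have hint : I (∑ T ∈ C.filter (fun T => e ∈ T), X T) := by
          have e1 : ∑ T ∈ S.filter (fun T => e ∈ T), X T = ∑ T ∈ C.filter (fun T => e ∈ T), X T +
              ∑ T ∈ (S.filter (fun T => e ∈ T)).filter (fun T => I (X T)), X T := by
            rw [hC, filter_filter, ← sum_filter_add_sum_filter_not (S.filter (fun T => e ∈ T))
              (fun T => ¬ I (X T)), filter_filter]
            congr 1
            · apply sum_congr _ fun _ _ => rfl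
              ext; simp only [mem_filter]; tauto
            · apply sum_congr _ fun _ _ => rfl
              ext; simp only [mem_filter, not_not]
          have e2 : ∑ T ∈ C.filter (fun T => e ∈ T), X T = ∑ T ∈ S.filter (fun T => e ∈ T), X T -
              ∑ T ∈ (S.filter (fun T => e ∈ T)).filter (fun T => I (X T)), X T := by linarith
          rw [e2]
          exact (hX e heE).sub (I.sum _ _ fun T hT => (mem_filter.1 hT).2)
        have hne1 : (C.filter (fun T => e ∈ T)).card ≠ 1 := by
          intro h1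
          rw [card_eq_one] at h1
          obtain ⟨T, hT⟩ := h1
          rw [hT, sum_singleton] at hint
          have : T ∈ C.filter (fun T => e ∈ T) := by rw [hT]; simp
          rw [mem_filter, hC, mem_filter] at this
          exact this.1.2 hint
        have : (C.filter (fun T => e ∈ T)).card = 0 ∨ (C.filter (fun T => e ∈ T)).card = 2 := by
          omega
        rcases this with h3 | h3 <;> rw [h3] <;> decide
      have hU := h.uniq _ (by
        rw [Set.mem_iUnion₂]
        rintro ⟨T, hT, hf⟩
        exact (hregC T hT).out hf) hcut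
      obtain ⟨z, hz⟩ := (hreg T1 hT1).nonempty
      have : z ∈ ⋃ T ∈ C, reg T := Set.mem_iUnion₂.2 ⟨T1, by rw [hC, mem_filter]; exact ⟨hT1, hT1'⟩, hz⟩
      rw [hU] at this
      exact this
    intro T hT
    rw [two_mul]
    exact (hall T hT).add (hall T hT)
  -- nested case
  obtain ⟨T0, hT0, hT0min⟩ : ∃ T0 ∈ S.filter (fun T => ∃ T1 ∈ S, reg T1 ⊂ reg T),
      ∀ T ∈ S.filter (fun T => ∃ T1 ∈ S, reg T1 ⊂ reg T),
        (S.filter (fun T' => reg T' ⊂ reg T0)).card ≤ (S.filter (fun T' => reg T' ⊂ reg T)).card := by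
    apply exists_min_image
    obtain ⟨T0, hT0, T1, hT1, h01⟩ := hnest
    exact ⟨T0, by rw [mem_filter]; exact ⟨hT0, T1, hT1, h01⟩⟩
  rw [mem_filter] at hT0
  obtain ⟨hT0S, Tz, hTz, hTz0⟩ := hT0
  set Sin := S.filter (fun T' => reg T' ⊂ reg T0) with hSin
  have hSinS : Sin ⊆ S := filter_subset _ _
  have hregI : ∀ T ∈ Sin, Reg x y EH f0 T (reg T) := fun T hT => hreg T (hSinS hT)
  have hsub : ∀ T ∈ Sin, reg T ⊂ reg T0 := fun T hT => (mem_filter.1 hT).2
  have hT0n : T0 ∉ Sin := fun hc => (hsub T0 hc).ne rfl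
  have hne : ∀ T ∈ Sin, ∀ T' ∈ Sin, ¬ reg T ⊂ reg T' := by
    intro T hT T' hT' hlt
    have h1 := hT0min T' (by rw [mem_filter]; exact ⟨hSinS hT', T, hSinS hT, hlt⟩)
    have h2 : S.filter (fun T'' => reg T'' ⊂ reg T') ⊂ Sin := by
      rw [ssubset_iff_of_subset]
      · refine ⟨T', hT', ?_⟩
        rw [mem_filter]
        rintro ⟨-, h3⟩
        exact h3.ne rfl
      · intro T'' hT''
        rw [mem_filter] at hT''
        rw [hSin, mem_filter]
        exact ⟨hT''.1, hT''.2.trans (hsub T' hT')⟩
    have := card_lt_card h2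
    omega
  have hPD : PD reg Sin := by
    intro T hT T' hT' z hz hz'
    rcases laminar h (hregI T hT) (hregI T' hT') with h1 | h1 | h1
    · exfalso
      have : z ∈ reg T ∩ reg T' := ⟨hz, hz'⟩
      rw [h1] at this; exact this
    · rcases eq_or_ne (reg T) (reg T') with h2 | h2
      · have := hregI T hT
        rw [h2] at this
        exact this.inj (hregI T' hT')
      · exact absurd (lt_of_le_of_ne h1 h2) (hne T hT T' hT')
    · rcases eq_or_ne (reg T) (reg T') with h2 | h2
      · have := hregI T hT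
        rw [h2] at this
        exact this.inj (hregI T' hT')
      · exact absurd (lt_of_le_of_ne h1 h2.symm) (hne T' hT' T hT)
  have hr0 := hreg T0 hT0S
  -- all triangles at an inner edge are inner
  have hinner : ∀ e, e ∉ T0 → (∃ T' ∈ Sin, e ∈ T') → ∀ T ∈ S, e ∈ T → T ∈ Sin := by
    rintro e he0 ⟨T', hT', heT'⟩ T hT heT
    have heE := sub_EH (hregI T' hT') heT'
    have a1 := (mem_iff (hregI T' hT') heE).1 heT'
    have a2 := (mem_iff hr0 heE).not.1 he0
    have a3 := (mem_iff (hreg T hT) heE).1 heT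
    have a4 : x e ∈ reg T0 ∧ y e ∈ reg T0 := by
      have b1 : x e ∈ reg T' → x e ∈ reg T0 := fun hh => (hsub T' hT').le hh
      have b2 : y e ∈ reg T' → y e ∈ reg T0 := fun hh => (hsub T' hT').le hh
      tauto
    rcases laminar h (hreg T hT) hr0 with h1 | h1 | h1
    · exfalso
      have b1 : x e ∉ reg T ∩ reg T0 := by rw [h1]; simp
      have b2 : y e ∉ reg T ∩ reg T0 := by rw [h1]; simp
      rw [Set.mem_inter_iff] at b1 b2
      tauto
    · rw [hSin, mem_filter]
      refine ⟨hT, lt_of_le_of_ne h1 ?_⟩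
      intro h2
      rw [h2] at a3
      tauto
    · exfalso
      have b1 := h1 a4.1
      have b2 := h1 a4.2
      tauto
  -- sums over S at an inner edge
  have hsplit : ∀ (e : E) (c : Finset E → ℚ), ∑ T ∈ S.filter (fun T => e ∈ T), c T =
      ∑ T ∈ Sin.filter (fun T => e ∈ T), c T + ∑ T ∈ (S \ Sin).filter (fun T => e ∈ T), c T := by
    intro e c
    rw [← sum_union]
    · apply sum_congr _ fun _ _ => rfl
      rw [← filter_union, union_sdiff_of_subset hSinS]
    · exact disjoint_filter_filter disjoint_sdiff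
  have hout0 : ∀ e, e ∉ T0 → (∃ T' ∈ Sin, e ∈ T') → (S \ Sin).filter (fun T => e ∈ T) = ∅ := by
    intro e he0 hex
    rw [filter_eq_empty_iff]
    intro T hT heT
    rw [mem_sdiff] at hT
    exact hT.2 (hinner e he0 hex T hT.1 heT)
  -- tile lemma
  have htile : ∀ D ⊆ Sin, D.Nonempty → (∀ T' ∈ D, ∀ e ∈ T', e ∉ T0 →
      Even (D.filter (fun T => e ∈ T)).card) → D = Sin ∧
      ∀ e ∈ T0, (Sin.filter (fun T => e ∈ T)).card = 1 := by
    intro D hD hDne hev
    have hregD : ∀ T ∈ D, Reg x y EH f0 T (reg T) := fun T hT => hregI T (hD hT)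
    have hPDD : PD reg D := fun T hT T' hT' z hz hz' => hPD T (hD hT) T' (hD hT') z hz hz'
    have hf : f0 ∉ ⋃ T ∈ D, reg T := by
      rw [Set.mem_iUnion₂]
      rintro ⟨T, hT, hf⟩
      exact (hregD T hT).out hf
    have hcs : cutF x y EH (⋃ T ∈ D, reg T) ⊆ T0 := by
      intro e he
      have heE := (mem_cutF.1 he).1
      rw [parity hregD hPDD heE] at he
      by_contra he0
      have hne' : (D.filter (fun T => e ∈ T)).Nonempty := by
        rw [nonempty_iff_ne_empty]
        intro h0; rw [h0] at he; simp at he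
      obtain ⟨T', hT'⟩ := hne'
      rw [mem_filter] at hT'
      exact he (hev T' hT'.1 e hT'.2 he0)
    have hcne : (cutF x y EH (⋃ T ∈ D, reg T)).Nonempty := by
      rw [nonempty_iff_ne_empty]
      intro h0
      have h1 := h.uniq _ hf h0
      obtain ⟨T, hT⟩ := hDne
      obtain ⟨z, hz⟩ := (hregD T hT).nonempty
      have : z ∈ ⋃ T ∈ D, reg T := Set.mem_iUnion₂.2 ⟨T, hT, hz⟩
      rw [h1] at this
      exact this
    have h3 := h.three _ hcne
    have hceq : cutF x y EH (⋃ T ∈ D, reg T) = T0 :=
      eq_of_subset_of_card_le hcs (by rw [hr0.card]; exact h3)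
    have hUeq : (⋃ T ∈ D, reg T) = reg T0 :=
      h.eq_of_cut hf hr0.out (by rw [hceq, hr0.cut])
    have hDeq : D = Sin := by
      apply Subset.antisymm hD
      intro T hT
      obtain ⟨z, hz⟩ := (hregI T hT).nonempty
      have h1 : z ∈ ⋃ T ∈ D, reg T := by rw [hUeq]; exact (hsub T hT).le hz
      rw [Set.mem_iUnion₂] at h1
      obtain ⟨T', hT', hz'⟩ := h1
      rw [hPD T hT T' (hD hT') z hz hz']
      exact hT'
    refine ⟨hDeq, ?_⟩
    intro e he
    have heE := sub_EH hr0 he
    rw [← hceq, parity hregD hPDD heE, hDeq] at he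
    have h2 := le_two hregI hPD heE
    rcases Nat.lt_or_ge (Sin.filter (fun T => e ∈ T)).card 2 with h4 | h4
    · have : (Sin.filter (fun T => e ∈ T)).card ≠ 0 := by
        intro h0; rw [h0] at he; simp at he
      omega
    · have : (Sin.filter (fun T => e ∈ T)).card = 2 := by omega
      rw [this] at he
      exact absurd (by decide) he
  have hSout : S \ Sin ⊆ S := sdiff_subset
  have hcardlt : (S \ Sin).card < n := by
    rw [← hSn]
    apply card_lt_card
    rw [ssubset_iff_of_subset hSout]
    refine ⟨Tz, hTz, ?_⟩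
    rw [mem_sdiff]
    rintro ⟨-, h1⟩
    exact h1 (by rw [hSin, mem_filter]; exact ⟨hTz, hTz0⟩)
  have hT0out : T0 ∈ S \ Sin := by rw [mem_sdiff]; exact ⟨hT0S, hT0n⟩
  have hinnerint : ∀ e, e ∉ T0 → (∃ T' ∈ Sin, e ∈ T') →
      I (∑ T ∈ Sin.filter (fun T => e ∈ T), X T) := by
    intro e he0 hex
    obtain ⟨T', hT', heT'⟩ := hex
    have heE := sub_EH (hregI T' hT') heT'
    have h1 := hX e heE
    rw [hsplit e X, hout0 e he0 ⟨T', hT', heT'⟩, sum_empty, add_zero] at h1
    exact h1
  by_cases hint : ∀ T ∈ Sin, I (X T)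
  · have h1 := ih _ hcardlt (S \ Sin) rfl (fun T hT => hreg T (hSout hT)) (hind.subset hSout) X (by
      intro e he
      have h2 := hX e he
      rw [hsplit e X] at h2
      have h3 : I (∑ T ∈ Sin.filter (fun T => e ∈ T), X T) :=
        I.sum _ _ fun T hT => hint T (mem_filter.1 hT).1
      have h4 := h2.sub h3
      rwa [add_sub_cancel_left] at h4)
    intro T hT
    by_cases hTi : T ∈ Sin
    · rw [two_mul]; exact (hint T hTi).add (hint T hTi)
    · exact h1 T (by rw [mem_sdiff]; exact ⟨hT, hTi⟩)
  -- the tiled case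
  push Not at hint
  obtain ⟨T1, hT1, hT1'⟩ := hint
  have hD1 := htile (Sin.filter (fun T => ¬ I (X T))) (filter_subset _ _)
    ⟨T1, by rw [mem_filter]; exact ⟨hT1, hT1'⟩⟩ (by
      intro T' hT' e heT' he0
      rw [mem_filter] at hT'
      have heE := sub_EH (hregI T' hT'.1) heT'
      have h2 : ((Sin.filter (fun T => ¬ I (X T))).filter (fun T => e ∈ T)).card ≤ 2 :=
        (card_le_card (filter_subset_filter _ (filter_subset _ _))).trans (le_two hregI hPD heE)
      have hpos : 0 < ((Sin.filter (fun T => ¬ I (X T))).filter (fun T => e ∈ T)).card := by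
        rw [card_pos]
        exact ⟨T', by rw [mem_filter, mem_filter]; exact ⟨hT', heT'⟩⟩
      have hint2 : I (∑ T ∈ (Sin.filter (fun T => ¬ I (X T))).filter (fun T => e ∈ T), X T) := by
        have h3 := hinnerint e he0 ⟨T', hT'.1, heT'⟩
        rw [← sum_filter_add_sum_filter_not (Sin.filter (fun T => e ∈ T)) (fun T => I (X T))] at h3
        have h4 : I (∑ T ∈ (Sin.filter (fun T => e ∈ T)).filter (fun T => I (X T)), X T) :=
          I.sum _ _ fun T hT => (mem_filter.1 hT).2
        have h5 := h3.sub h4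
        rw [add_sub_cancel_left] at h5
        have h6 : (Sin.filter (fun T => ¬ I (X T))).filter (fun T => e ∈ T) =
            (Sin.filter (fun T => e ∈ T)).filter (fun T => ¬ I (X T)) := by
          ext T; simp only [mem_filter]; tauto
        rw [h6]
        exact h5
      have hne1 : ((Sin.filter (fun T => ¬ I (X T))).filter (fun T => e ∈ T)).card ≠ 1 := by
        intro h1
        rw [card_eq_one] at h1
        obtain ⟨T, hT⟩ := h1
        rw [hT, sum_singleton] at hint2
        have : T ∈ (Sin.filter (fun T => ¬ I (X T))).filter (fun T => e ∈ T) := by rw [hT]; simp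
        rw [mem_filter, mem_filter] at this
        exact this.1.2 hint2
      have : ((Sin.filter (fun T => ¬ I (X T))).filter (fun T => e ∈ T)).card = 2 := by omega
      rw [this]; decide)
  obtain ⟨hD1eq, hone⟩ := hD1
  have hnonint : ∀ T ∈ Sin, ¬ I (X T) := by
    intro T hT
    rw [← hD1eq, mem_filter] at hT
    exact hT.2
  -- inner edges are in exactly two inner triangles
  have htwo : ∀ e, e ∉ T0 → (∃ T' ∈ Sin, e ∈ T') → ∃ a b, a ≠ b ∧
      Sin.filter (fun T => e ∈ T) = {a, b} ∧ I (X a + X b) := by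
    intro e he0 hex
    have h1 := hinnerint e he0 hex
    obtain ⟨T', hT', heT'⟩ := hex
    have heE := sub_EH (hregI T' hT') heT'
    have h2 := le_two hregI hPD heE
    have hpos : 0 < (Sin.filter (fun T => e ∈ T)).card := by
      rw [card_pos]; exact ⟨T', by rw [mem_filter]; exact ⟨hT', heT'⟩⟩
    have hne1 : (Sin.filter (fun T => e ∈ T)).card ≠ 1 := by
      intro h3
      rw [card_eq_one] at h3
      obtain ⟨T, hT⟩ := h3
      rw [hT, sum_singleton] at h1
      have : T ∈ Sin.filter (fun T => e ∈ T) := by rw [hT]; simp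
      exact hnonint T (mem_filter.1 this).1 h1
    have h3 : (Sin.filter (fun T => e ∈ T)).card = 2 := by omega
    rw [card_eq_two] at h3
    obtain ⟨a, b, hab, hf⟩ := h3
    refine ⟨a, b, hab, hf, ?_⟩
    rw [hf, sum_pair hab] at h1
    exact h1
  obtain ⟨xi, hxi⟩ : ∃ xi, xi = X T1 := ⟨_, rfl⟩
  have hD2 := htile (Sin.filter (fun T => I (X T - xi) ∨ I (X T + xi))) (filter_subset _ _)
    ⟨T1, by rw [mem_filter]; exact ⟨hT1, Or.inl (by rw [hxi, sub_self]; exact I.zero)⟩⟩ (by
      intro T' hT' e heT' he0
      rw [mem_filter] at hT'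
      obtain ⟨a, b, hab, hf, hIab⟩ := htwo e he0 ⟨T', hT'.1, heT'⟩
      have hT'm : T' ∈ Sin.filter (fun T => e ∈ T) := by rw [mem_filter]; exact ⟨hT'.1, heT'⟩
      rw [hf, mem_insert, mem_singleton] at hT'm
      have ham : a ∈ Sin.filter (fun T => e ∈ T) := by rw [hf]; simp
      have hbm : b ∈ Sin.filter (fun T => e ∈ T) := by rw [hf]; simp
      rw [mem_filter] at ham hbm
      have hboth : (I (X a - xi) ∨ I (X a + xi)) ∧ (I (X b - xi) ∨ I (X b + xi)) := by
        have s1 : X b + xi = (X a + X b) - (X a - xi) := by ring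
        have s2 : X b - xi = (X a + X b) - (X a + xi) := by ring
        have s3 : X a + xi = (X a + X b) - (X b - xi) := by ring
        have s4 : X a - xi = (X a + X b) - (X b + xi) := by ring
        rcases hT'm with e1 | e1
        · rw [e1] at hT'
          refine ⟨hT'.2, ?_⟩
          rcases hT'.2 with h5 | h5
          · right; rw [s1]; exact hIab.sub h5
          · left; rw [s2]; exact hIab.sub h5
        · rw [e1] at hT'
          refine ⟨?_, hT'.2⟩
          rcases hT'.2 with h5 | h5
          · right; rw [s3]; exact hIab.sub h5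
          · left; rw [s4]; exact hIab.sub h5
      have : (Sin.filter (fun T => I (X T - xi) ∨ I (X T + xi))).filter (fun T => e ∈ T) = {a, b} := by
        rw [← hf]
        ext T
        simp only [mem_filter]
        constructor
        · rintro ⟨⟨h6, -⟩, h7⟩; exact ⟨h6, h7⟩
        · intro h6
          have h7 : T ∈ Sin.filter (fun T => e ∈ T) := by rw [mem_filter]; exact h6
          rw [hf, mem_insert, mem_singleton] at h7
          rcases h7 with rfl | rfl
          · exact ⟨⟨h6.1, hboth.1⟩, h6.2⟩
          · exact ⟨⟨h6.1, hboth.2⟩, h6.2⟩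
      rw [this, card_pair hab]; decide)
  have hpm : ∀ T ∈ Sin, I (X T - xi) ∨ I (X T + xi) := by
    intro T hT
    rw [← hD2.1, mem_filter] at hT
    exact hT.2
  -- 2 xi is an integer
  have h2xi : I (2 * xi) := by
    by_contra hcon
    have hexcl : ∀ T, ¬ (I (X T - xi) ∧ I (X T + xi)) := by
      rintro T ⟨h1, h2⟩
      apply hcon
      have h3 := h2.sub h1
      have e1 : X T + xi - (X T - xi) = 2 * xi := by ring
      rwa [e1] at h3
    set v : Finset E → ℤ := fun T => if I (X T - xi) then 1 else -1 with hv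
    have hv1 : ∀ T, v T = 1 ∨ v T = -1 := by
      intro T; rw [hv]; simp only; split_ifs <;> simp
    have hz : ∀ e, e ∉ T0 → ∑ T ∈ Sin.filter (fun T => e ∈ T), v T = 0 := by
      intro e he0
      by_cases hex : ∃ T' ∈ Sin, e ∈ T'
      · obtain ⟨a, b, hab, hf, hIab⟩ := htwo e he0 hex
        rw [hf, sum_pair hab]
        have hbm : b ∈ Sin.filter (fun T => e ∈ T) := by rw [hf]; simp
        have ham : a ∈ Sin.filter (fun T => e ∈ T) := by rw [hf]; simp
        have pa := hpm a (mem_filter.1 ham).1
        rw [hv]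
        simp only
        have s1 : X b + xi = (X a + X b) - (X a - xi) := by ring
        have s2 : X b - xi = (X a + X b) - (X a + xi) := by ring
        rcases pa with h5 | h5
        · have h6 : I (X b + xi) := by rw [s1]; exact hIab.sub h5
          have h7 : ¬ I (X b - xi) := fun h8 => hexcl b ⟨h8, h6⟩
          simp [h5, h7]
        · have h6 : I (X b - xi) := by rw [s2]; exact hIab.sub h5
          have h7 : ¬ I (X a - xi) := fun h8 => hexcl a ⟨h8, h5⟩
          simp [h6, h7]
      · have : Sin.filter (fun T => e ∈ T) = ∅ := by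
          rw [filter_eq_empty_iff]
          intro T hT heT
          exact hex ⟨T, hT, heT⟩
        rw [this, sum_empty]
    obtain ⟨w, hw⟩ : ∃ w : E → ℤ, ∀ e, w e = ∑ T ∈ Sin.filter (fun T => e ∈ T), v T :=
      ⟨_, fun e => rfl⟩
    have hw1 : ∀ e ∈ T0, w e = 1 ∨ w e = -1 := by
      intro e he
      have h1 := hone e he
      rw [card_eq_one] at h1
      obtain ⟨T, hT⟩ := h1
      rw [hw, hT, sum_singleton]
      exact hv1 T
    have htot : ∑ e ∈ T0, w e = 3 * ∑ T ∈ Sin, v T := by
      have e1 : ∑ e ∈ T0, w e = ∑ e ∈ EH, w e := by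
        apply sum_subset (fun e he => sub_EH hr0 he)
        intro e _ he0
        rw [hw]; exact hz e he0
      rw [e1, sum_congr rfl (fun e _ => hw e)]
      have e2 : ∀ e ∈ EH, ∑ T ∈ Sin.filter (fun T => e ∈ T), v T =
          ∑ T ∈ Sin, if e ∈ T then v T else 0 := fun e _ => sum_filter _ _
      rw [sum_congr rfl e2, sum_comm, mul_sum]
      apply sum_congr rfl
      intro T hT
      rw [← sum_filter]
      have e3 : EH.filter (fun e => e ∈ T) = T := by
        ext e
        rw [mem_filter]
        exact ⟨fun h => h.2, fun h => ⟨sub_EH (hregI T hT) h, h⟩⟩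
      rw [e3, sum_const, (hregI T hT).card]
      simp
    obtain ⟨ep, hep, hepw⟩ : ∃ ep : ℤ, ep ≠ 0 ∧ ∀ e ∈ T0, w e = ep := by
      have hc := hr0.card
      rw [card_eq_three] at hc
      obtain ⟨a, b, c, hab, hac, hbc, rfl⟩ := hc
      have wa := hw1 a (by simp)
      have wb := hw1 b (by simp)
      have wc := hw1 c (by simp)
      rw [sum_insert (by simp [hab, hac]), sum_pair hbc] at htot
      refine ⟨w a, by omega, ?_⟩
      intro e he
      simp only [mem_insert, mem_singleton] at he
      rcases he with rfl | rfl | rfl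
      · rfl
      · omega
      · omega
    have hdep := hind (fun T => if T = T0 then -(ep : ℚ) else if T ∈ Sin then (v T : ℚ) else 0) (by
      intro e he
      rw [hsplit e]
      have g1 : ∑ T ∈ Sin.filter (fun T => e ∈ T),
          (if T = T0 then -(ep : ℚ) else if T ∈ Sin then (v T : ℚ) else 0) = (w e : ℚ) := by
        rw [hw, Int.cast_sum]
        apply sum_congr rfl
        intro T hT
        rw [mem_filter] at hT
        have : T ≠ T0 := fun h1 => hT0n (h1 ▸ hT.1)
        rw [if_neg this, if_pos hT.1]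
      have g2 : ∑ T ∈ (S \ Sin).filter (fun T => e ∈ T),
          (if T = T0 then -(ep : ℚ) else if T ∈ Sin then (v T : ℚ) else 0) =
          if e ∈ T0 then -(ep : ℚ) else 0 := by
        have g3 : ∀ T ∈ (S \ Sin).filter (fun T => e ∈ T),
            (if T = T0 then -(ep : ℚ) else if T ∈ Sin then (v T : ℚ) else 0) =
            if T = T0 then -(ep : ℚ) else 0 := by
          intro T hT
          rw [mem_filter, mem_sdiff] at hT
          split_ifs with h1 h2
          · rfl
          · exact absurd h2 hT.1.2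
          · rfl
        rw [sum_congr rfl g3, sum_ite_eq']
        simp only [mem_filter, hT0out, true_and]
      rw [g1, g2]
      split_ifs with h1
      · rw [hepw e h1]; ring
      · rw [hw, hz e h1]; simp) T0 hT0S
    simp only [if_true] at hdep
    apply hep
    have : (ep : ℚ) = 0 := by linarith
    exact_mod_cast this
  have hcong : ∀ T ∈ Sin, I (X T - xi) := by
    intro T hT
    rcases hpm T hT with h1 | h1
    · exact h1
    · have e1 : X T - xi = X T + xi - 2 * xi := by ring
      rw [e1]; exact h1.sub h2xi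
  have h1 := ih _ hcardlt (S \ Sin) rfl (fun T hT => hreg T (hSout hT)) (hind.subset hSout)
    (fun T => if T = T0 then X T + xi else X T) (by
      intro e he
      have h2 := hX e he
      rw [hsplit e X] at h2
      have g1 : ∑ T ∈ (S \ Sin).filter (fun T => e ∈ T), (if T = T0 then X T + xi else X T) =
          ∑ T ∈ (S \ Sin).filter (fun T => e ∈ T), X T + if e ∈ T0 then xi else 0 := by
        have g2 : ∀ T ∈ (S \ Sin).filter (fun T => e ∈ T), (if T = T0 then X T + xi else X T) =
            X T + if T = T0 then xi else 0 := by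
          intro T _; split_ifs <;> ring
        rw [sum_congr rfl g2, sum_add_distrib, sum_ite_eq']
        simp only [mem_filter, hT0out, true_and]
      rw [g1]
      by_cases he0 : e ∈ T0
      · rw [if_pos he0]
        have h3 := hone e he0
        rw [card_eq_one] at h3
        obtain ⟨T, hT⟩ := h3
        have hTm : T ∈ Sin.filter (fun T => e ∈ T) := by rw [hT]; simp
        rw [hT, sum_singleton] at h2
        have h4 := hcong T (mem_filter.1 hTm).1
        have h5 := h2.sub h4
        have e1 : X T + ∑ T ∈ (S \ Sin).filter (fun T => e ∈ T), X T - (X T - xi) =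
            ∑ T ∈ (S \ Sin).filter (fun T => e ∈ T), X T + xi := by ring
        rwa [e1] at h5
      · rw [if_neg he0, add_zero]
        by_cases hex : ∃ T' ∈ Sin, e ∈ T'
        · rw [hout0 e he0 hex, sum_empty]; exact I.zero
        · have : Sin.filter (fun T => e ∈ T) = ∅ := by
            rw [filter_eq_empty_iff]
            intro T hT heT
            exact hex ⟨T, hT, heT⟩
          rw [this, sum_empty, zero_add] at h2
          exact h2)
  intro T hT
  by_cases hTi : T ∈ Sin
  · have h3 := hcong T hTi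
    have e1 : 2 * X T = (X T - xi) + (X T - xi) + 2 * xi := by ring
    rw [e1]; exact (h3.add h3).add h2xi
  · have h3 := h1 T (by rw [mem_sdiff]; exact ⟨hT, hTi⟩)
    split_ifs at h3 with h4
    · have e1 : 2 * X T = 2 * (X T + xi) - 2 * xi := by ring
      rw [e1]; exact h3.sub h2xi
    · exact h3

end Pool.Agent.X7.TriHalf
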