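import Mathlib
import Pool.Agent.X7.TriHalf
import Pool.Agent.H279R3.Final5

/-!
# From abstract duals to half-integral triangle packings
-/

set_option autoImplicit false
set_option maxHeartbeats 4000000
set_option linter.unusedSectionVars false

namespace Pool.Agent.X7.TriHalf

open Finset H279R3

section LP

variable {E : Type} [DecidableEq E]

/-- A nonnegative solution with independent support. -/
theorem exists_indep (EH : Finset E) (b : E → ℚ) : ∀ (n : ℕ) (TT : Finset (Finset E)),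
    TT.card = n → ∀ W : Finset E → ℚ, (∀ T ∈ TT, 0 ≤ W T) →
    (∀ e ∈ EH, ∑ T ∈ TT.filter (fun T => e ∈ T), W T = b e) →
    ∃ S ⊆ TT, ∃ W : Finset E → ℚ, (∀ T ∈ S, 0 ≤ W T) ∧
      (∀ e ∈ EH, ∑ T ∈ S.filter (fun T => e ∈ T), W T = b e) ∧ Indep EH S := by
  classical
  intro n
  induction n with
  | zero =>
    intro TT hn W h0 h1
    refine ⟨TT, Subset.refl _, W, h0, h1, ?_⟩
    rw [card_eq_zero] at hn
    subst hn
    intro c _ T hT
    simp at hT
  | succ n ih =>
    intro TT hn W h0 h1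
    by_cases hI : Indep EH TT
    · exact ⟨TT, Subset.refl _, W, h0, h1, hI⟩
    obtain ⟨c, hc, T1, hT1, hc1⟩ : ∃ c : Finset E → ℚ,
        (∀ e ∈ EH, ∑ T ∈ TT.filter (fun T => e ∈ T), c T = 0) ∧ ∃ T1 ∈ TT, 0 < c T1 := by
      unfold Indep at hI
      push Not at hI
      obtain ⟨c, hc, T1, hT1, hne⟩ := hI
      rcases lt_or_gt_of_ne hne with h2 | h2
      · refine ⟨fun T => - c T, ?_, T1, hT1, by simpa using h2⟩
        intro e he
        rw [sum_neg_distrib, hc e he, neg_zero]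
      · exact ⟨c, hc, T1, hT1, h2⟩
    obtain ⟨Ts, hTs, hmin⟩ := exists_min_image (TT.filter (fun T => 0 < c T))
      (fun T => W T / c T) ⟨T1, by rw [mem_filter]; exact ⟨hT1, hc1⟩⟩
    rw [mem_filter] at hTs
    obtain ⟨t, ht⟩ : ∃ t, t = W Ts / c Ts := ⟨_, rfl⟩
    have ht0 : 0 ≤ t := by rw [ht]; exact div_nonneg (h0 Ts hTs.1) hTs.2.le
    have hz : W Ts - t * c Ts = 0 := by rw [ht, div_mul_cancel₀ _ hTs.2.ne', sub_self]
    obtain ⟨S, hS, W', r1, r2, r3⟩ := ih (TT.erase Ts)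
      (by rw [card_erase_of_mem hTs.1, hn]; rfl) (fun T => W T - t * c T) (by
      intro T hT
      rw [mem_erase] at hT
      rcases lt_or_ge 0 (c T) with h2 | h2
      · have := hmin T (by rw [mem_filter]; exact ⟨hT.2, h2⟩)
        have h3 : t * c T ≤ W T := by
          rw [← le_div_iff₀ h2, ht]; exact this
        linarith
      · have h3 : t * c T ≤ 0 := mul_nonpos_of_nonneg_of_nonpos ht0 h2
        have := h0 T hT.2
        linarith) (by
      intro e he
      rw [← h1 e he]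
      have e1 : ∑ T ∈ (TT.erase Ts).filter (fun T => e ∈ T), (W T - t * c T) =
          ∑ T ∈ TT.filter (fun T => e ∈ T), (W T - t * c T) := by
        apply sum_subset (filter_subset_filter _ (erase_subset _ _))
        intro T hT hT'
        rw [mem_filter] at hT hT'
        have : T = Ts := by
          by_contra hne
          exact hT' ⟨mem_erase.2 ⟨hne, hT.1⟩, hT.2⟩
        rw [this]; exact hz
      rw [e1, sum_sub_distrib, ← mul_sum, hc e he, mul_zero, sub_zero])
    exact ⟨S, hS.trans (erase_subset _ _), W', r1, r2, r3⟩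

end LP

/-- the triangles of a simple graph, as sets of three edges -/
def IsTri {V : Type} [DecidableEq V] (H : SimpleGraph V) (T : Finset (Sym2 V)) : Prop :=
  ∃ u v w, H.Adj u v ∧ H.Adj v w ∧ H.Adj w u ∧ T = {s(u, v), s(v, w), s(w, u)}

section

variable {V : Type} [DecidableEq V] {H : SimpleGraph V}

lemma IsTri.ne {u v w : V} (h1 : H.Adj u v) (h2 : H.Adj v w) (h3 : H.Adj w u) :
    s(u, v) ≠ s(v, w) ∧ s(u, v) ≠ s(w, u) ∧ s(v, w) ≠ s(w, u) := by
  have a := h1.ne
  have b := h2.ne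
  have c := h3.ne
  refine ⟨?_, ?_, ?_⟩ <;>
  · rw [Ne, Sym2.eq_iff]
    rintro (⟨h, h'⟩ | ⟨h, h'⟩)
    all_goals (subst_vars; first | exact a rfl | exact b rfl | exact c rfl)

lemma IsTri.card {T : Finset (Sym2 V)} (h : IsTri H T) : T.card = 3 := by
  obtain ⟨u, v, w, h1, h2, h3, rfl⟩ := h
  obtain ⟨a, b, c⟩ := IsTri.ne h1 h2 h3
  rw [card_eq_three]
  exact ⟨_, _, _, a, b, c, rfl⟩

lemma IsTri.mem_edge {T : Finset (Sym2 V)} (h : IsTri H T) {e : Sym2 V} (he : e ∈ T) :
    e ∈ H.edgeSet := by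
  obtain ⟨u, v, w, h1, h2, h3, rfl⟩ := h
  simp only [mem_insert, mem_singleton] at he
  rcases he with rfl | rfl | rfl
  · exact h1
  · exact h2
  · exact h3

lemma IsTri.even {T : Finset (Sym2 V)} (h : IsTri H T) : EvenSet H (T : Set (Sym2 V)) := by
  refine ⟨fun e he => h.mem_edge (by simpa using he), ?_⟩
  intro z
  obtain ⟨u, v, w, h1, h2, h3, rfl⟩ := h
  obtain ⟨a, b, c⟩ := IsTri.ne h1 h2 h3
  have e1 : ((({s(u, v), s(v, w), s(w, u)} : Finset (Sym2 V)) : Set (Sym2 V)) ∩ {e | z ∈ e}) =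
      ((({s(u, v), s(v, w), s(w, u)} : Finset (Sym2 V)).filter (fun e => z ∈ e) :
        Finset (Sym2 V)) : Set (Sym2 V)) := by
    ext e
    rw [Set.mem_inter_iff, mem_coe, mem_coe, mem_filter]
    rfl
  rw [e1, Set.ncard_coe_finset, card_filter, sum_insert (by simp only [mem_insert, mem_singleton]; tauto),
    sum_pair c]
  simp only [Sym2.mem_iff]
  have d1 := h1.ne
  have d2 := h2.ne
  have d3 := h3.ne
  by_cases k1 : z = u
  · subst k1
    simp only [d1, d3.symm, true_or, or_true, if_true, or_self, if_false]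
    decide
  · by_cases k2 : z = v
    · subst k2
      simp only [d2, k1, true_or, or_true, if_true, or_self, if_false]
      decide
    · by_cases k3 : z = w
      · subst k3
        simp only [k1, k2, true_or, or_true, if_true, or_self, if_false]
        decide
      · simp only [k1, k2, k3, or_self, if_false]
        decide

lemma EvenSet.three {F : Set (Sym2 V)} (hF : EvenSet H F) (hne : F.Nonempty) :
    ∃ a b c, a ∈ F ∧ b ∈ F ∧ c ∈ F ∧ a ≠ b ∧ a ≠ c ∧ b ≠ c := by
  obtain ⟨e, he⟩ := hne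
  have key : ∀ z, z ∈ e → ∃ e' ∈ F, e' ≠ e ∧ z ∈ e' := by
    intro z hz
    by_contra hcon
    push Not at hcon
    have h1 : F ∩ {e | z ∈ e} = {e} := by
      ext e'
      rw [Set.mem_inter_iff, Set.mem_singleton_iff]
      constructor
      · rintro ⟨h2, h3⟩
        by_contra h4
        exact hcon e' h2 h4 h3
      · rintro rfl
        exact ⟨he, hz⟩
    have h2 := hF.2 z
    rw [h1, Set.ncard_singleton] at h2
    exact absurd h2 (by decide)
  induction e using Sym2.ind with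
  | _ a b =>
    obtain ⟨e1, h1, h1', h1''⟩ := key a (by simp)
    obtain ⟨e2, h2, h2', h2''⟩ := key b (by simp)
    refine ⟨_, _, _, he, h1, h2, h1'.symm, h2'.symm, ?_⟩
    rintro rfl
    have hab : a ≠ b := (hF.1 he : H.Adj a b).ne
    exact h1' ((Sym2.mem_and_mem_iff hab).1 ⟨h1'', h2''⟩)

variable {K : Type} (D : AbstractDual H K)

/-- first face at `e` -/
noncomputable def fx (e : Sym2 V) : K := (ends_cases D.ends e).choose

/-- second face at `e` -/
noncomputable def fy (e : Sym2 V) : K := (ends_cases D.ends e).choose_spec.choose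

lemma ends_eq (e : Sym2 V) : D.ends e = s(fx D e, fy D e) :=
  (ends_cases D.ends e).choose_spec.choose_spec

lemma mem_cut_iff' (EH : Finset (Sym2 V)) (hEH : ∀ e, e ∈ EH ↔ e ∈ H.edgeSet) (A : Set K)
    (e : Sym2 V) : e ∈ cutF (fx D) (fy D) EH A ↔ e ∈ cut H D.ends A := by
  rw [mem_cutF, mem_cut_iff (ends_eq D e), hEH]
  tauto

lemma coe_cut (EH : Finset (Sym2 V)) (hEH : ∀ e, e ∈ EH ↔ e ∈ H.edgeSet) (A : Set K) :
    (cutF (fx D) (fy D) EH A : Set (Sym2 V)) = cut H D.ends A := by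
  ext e
  rw [mem_coe, mem_cut_iff' D EH hEH]

lemma hyp (EH : Finset (Sym2 V)) (hEH : ∀ e, e ∈ EH ↔ e ∈ H.edgeSet) (f0 : K) :
    Hyp (fx D) (fy D) EH f0 where
  three := by
    intro A hA
    have h1 : (cut H D.ends A).Finite := by
      rw [← coe_cut D EH hEH]; exact Finset.finite_toSet _
    have h2 := D.cut_even A h1
    obtain ⟨a, b, c, ha, hb, hc, h3⟩ := EvenSet.three h2 (by
      rw [← coe_cut D EH hEH]; exact_mod_cast hA)
    rw [← mem_cut_iff' D EH hEH] at ha hb hc
    rw [Nat.succ_le_iff, two_lt_card]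
    exact ⟨a, ha, b, hb, c, hc, h3⟩
  uniq := by
    intro A hf hA
    have h1 : cut H D.ends A = ∅ := by
      rw [← coe_cut D EH hEH, hA]; simp
    rcases D.conn A h1 with h2 | h2
    · exact h2
    · rw [h2] at hf
      exact absurd (Set.mem_univ _) hf

lemma exists_reg (EH : Finset (Sym2 V)) (hEH : ∀ e, e ∈ EH ↔ e ∈ H.edgeSet) (f0 : K)
    {T : Finset (Sym2 V)} (hT : IsTri H T) : ∃ R, Reg (fx D) (fy D) EH f0 T R := by
  obtain ⟨A, hA⟩ := D.even_cut _ (Finset.finite_toSet T) hT.even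
  have key : ∀ B : Set K, f0 ∉ B → cut H D.ends B = (T : Set (Sym2 V)) →
      Reg (fx D) (fy D) EH f0 T B := by
    intro B hB hc
    refine ⟨hB, ?_, hT.card⟩
    have := coe_cut D EH hEH B
    rw [hc] at this
    exact_mod_cast this
  by_cases hf : f0 ∈ A
  · exact ⟨Aᶜ, key _ (by simpa using hf) (by rw [cut_compl, hA])⟩
  · exact ⟨A, key _ hf hA⟩

end

/-- Half-integrality over simple planar graphs with arbitrary integral demands. -/
theorem simple_half {V : Type} [Fintype V] [DecidableEq V] (H : SimpleGraph V)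
    (hpl : PlanarGraph H) (b : Sym2 V → ℕ) (TT : Finset (Finset (Sym2 V)))
    (hTT : ∀ T ∈ TT, IsTri H T) (W : Finset (Sym2 V) → ℚ) (h0 : ∀ T ∈ TT, 0 ≤ W T)
    (h1 : ∀ e ∈ H.edgeSet, ∑ T ∈ TT.filter (fun T => e ∈ T), W T = b e) :
    ∃ n : Finset (Sym2 V) → ℕ, (∀ T, T ∉ TT → n T = 0) ∧
      ∀ e ∈ H.edgeSet, ∑ T ∈ univ.filter (fun T => e ∈ T), n T = 2 * b e := by
  classical
  by_cases hE : ∃ e0, e0 ∈ H.edgeSet
  swap
  · exact ⟨fun _ => 0, fun _ _ => rfl, fun e he => absurd ⟨e, he⟩ hE⟩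
  obtain ⟨e0, he0⟩ := hE
  obtain ⟨K, ⟨D⟩⟩ := exists_dual_of_finitelyPlanar (fun v => Set.toFinite _) hpl.finitelyPlanar
  set f0 := fx D e0
  set EH := (univ : Finset (Sym2 V)).filter (fun e => e ∈ H.edgeSet) with hEHdef
  have hEH : ∀ e, e ∈ EH ↔ e ∈ H.edgeSet := by
    intro e; rw [hEHdef, mem_filter]; simp
  obtain ⟨S, hS, W', r1, r2, r3⟩ := exists_indep EH (fun e => (b e : ℚ)) _ TT rfl W h0
    (fun e he => h1 e ((hEH e).1 he))
  have hex : ∀ T : Finset (Sym2 V), ∃ R, IsTri H T → Reg (fx D) (fy D) EH f0 T R := by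
    intro T
    by_cases hT : IsTri H T
    · obtain ⟨R, hR⟩ := exists_reg D EH hEH f0 hT
      exact ⟨R, fun _ => hR⟩
    · exact ⟨∅, fun h => absurd h hT⟩
  choose reg hreg using hex
  have hI := half (hyp D EH hEH f0) reg S.card S rfl (fun T hT => hreg T (hTT T (hS hT))) r3 W' (by
    intro e he
    rw [r2 e he]
    exact ⟨b e, by simp⟩)
  have hn : ∀ T : Finset (Sym2 V), ∃ m : ℕ, (T ∈ S → 2 * W' T = m) ∧ (T ∉ S → m = 0) := by
    intro T
    by_cases hT : T ∈ S
    · obtain ⟨z, hz⟩ := hI T hT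
      have h2 : (0 : ℚ) ≤ z := by rw [← hz]; have := r1 T hT; linarith
      have h3 : 0 ≤ z := by exact_mod_cast h2
      obtain ⟨m, rfl⟩ := Int.eq_ofNat_of_zero_le h3
      exact ⟨m, fun _ => by rw [hz]; simp, fun h => absurd hT h⟩
    · exact ⟨0, fun h => absurd h hT, fun _ => rfl⟩
  choose n hn1 hn2 using hn
  refine ⟨n, fun T hT => hn2 T (fun h => hT (hS h)), ?_⟩
  intro e he
  have h3 : ∑ T ∈ univ.filter (fun T => e ∈ T), n T = ∑ T ∈ S.filter (fun T => e ∈ T), n T := by
    symm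
    apply sum_subset
    · intro T hT
      rw [mem_filter] at hT ⊢
      exact ⟨mem_univ _, hT.2⟩
    · intro T hT hT'
      rw [mem_filter] at hT hT'
      apply hn2
      intro hTS
      exact hT' ⟨hTS, hT.2⟩
  rw [h3]
  have h4 : ((∑ T ∈ S.filter (fun T => e ∈ T), n T : ℕ) : ℚ) = ((2 * b e : ℕ) : ℚ) := by
    push_cast
    rw [← r2 e ((hEH e).2 he), mul_sum]
    apply sum_congr rfl
    intro T hT
    rw [hn1 T (mem_filter.1 hT).1]
  exact_mod_cast h4

/-- two-to-one maps -/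
lemma two_to_one {α β : Type} [DecidableEq β] [Nonempty β] (A : Finset α) (B : Finset β)
    (h : A.card = 2 * B.card) : ∃ f : α → β, (∀ a ∈ A, f a ∈ B) ∧
      ∀ b ∈ B, (A.filter (fun a => f a = b)).card = 2 := by
  classical
  have hc : Fintype.card A = Fintype.card (B × Fin 2) := by
    rw [Fintype.card_prod, Fintype.card_fin, Fintype.card_coe, Fintype.card_coe, h, mul_comm]
  have φ : A ≃ B × Fin 2 := Fintype.equivOfCardEq hc
  refine ⟨fun a => if h : a ∈ A then (φ ⟨a, h⟩).1.1 else Classical.arbitrary β, ?_, ?_⟩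
  · intro a ha
    have : (if h : a ∈ A then ((φ ⟨a, h⟩).1.1 : β) else Classical.arbitrary β) =
        (φ ⟨a, ha⟩).1.1 := dif_pos ha
    simp only [this]
    exact (φ ⟨a, ha⟩).1.2
  · intro b hb
    have e1 : A.filter (fun a => (if h : a ∈ A then ((φ ⟨a, h⟩).1.1 : β) else
        Classical.arbitrary β) = b) =
        (univ : Finset (Fin 2)).image (fun i => ((φ.symm (⟨b, hb⟩, i)).1 : α)) := by
      ext a
      rw [mem_filter, mem_image]
      constructor
      · rintro ⟨ha, h1⟩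
        rw [dif_pos ha] at h1
        refine ⟨(φ ⟨a, ha⟩).2, mem_univ _, ?_⟩
        have : (⟨b, hb⟩, (φ ⟨a, ha⟩).2) = φ ⟨a, ha⟩ := by
          apply Prod.ext
          · apply Subtype.ext; exact h1.symm
          · rfl
        rw [this, Equiv.symm_apply_apply]
      · rintro ⟨i, -, rfl⟩
        have h2 := (φ.symm (⟨b, hb⟩, i)).2
        refine ⟨h2, ?_⟩
        rw [dif_pos h2]
        simp
    rw [e1, card_image_of_injective]
    · simp
    · intro i j hij
      have h1 := φ.symm.injective (Subtype.ext hij)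
      exact (Prod.ext_iff.1 h1).2

end Pool.Agent.X7.TriHalf
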